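import Pool.Agent.H40.HT.Stm

/-!
# A caterpillar can be dismantled (`St_catchain`)
-/

set_option autoImplicit false

namespace Pool.Agent.H40.HT

open Finset Pool.Agent.H40.HL

theorem CatChain_nc_mono {V D : Type} [DecidableEq V] [DecidableEq D] {m : ℕ} {U : UT V D m}
    {R S : Finset V} (h : R ⊆ S) (hS : ¬ NC U S) : ¬ NC U R := by
  rintro (⟨x, hx, y, hy, z, hz, h1⟩ | ⟨x, hx, y, hy, z, hz, w, hw, h1⟩)
  · exact hS (Or.inl ⟨x, h hx, y, h hy, z, h hz, h1⟩)
  · exact hS (Or.inr ⟨x, h hx, y, h hy, z, h hz, w, h hw, h1⟩)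

theorem CatChain_off {V D : Type} [DecidableEq V] [DecidableEq D] {m : ℕ} {U : UT V D m}
    {G : Finset V} {a b : V} (ha : a ∈ G) (_hab : a ≠ b)
    (hmin : ∀ x ∈ G, ∀ y ∈ G, x ≠ y → U.dl a b ≤ U.dl x y)
    (h : ∀ y ∈ G, y ≠ a → y ≠ b → U.dl a b < U.dl b y) : Off U G a (U.dl a b) := by
  refine ⟨fun y hy hya => ?_, fun y hy z hz hya hza hyz => ?_⟩
  · by_cases hyb : y = b
    · rw [hyb]
    · have h1 := h y hy hya hyb
      have h2 := hmin a ha y hy (Ne.symm hya)
      have h3 := U.ultra a y b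
      rw [U.comm y b] at h3
      omega
  · by_cases hyb : y = b
    · rw [hyb]
      exact h z hz hza fun h0 => hyz (by rw [hyb, h0])
    · by_cases hzb : z = b
      · rw [hzb, U.comm y b]
        exact h y hy hya hyb
      · have h1 := h y hy hya hyb
        have h2 := h z hz hza hzb
        have h3 := U.ultra y b z
        rw [U.comm y b] at h3
        omega

theorem CatChain_aux {V D : Type} [DecidableEq V] [DecidableEq D] {m : ℕ} (U : UT V D m) :
    ∀ (k : ℕ) (G : Finset V), G.card = k + 1 → ¬ NC U G → Chain U k G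
  | 0, G, hG, _ => by
      change G.Nonempty
      exact Finset.card_pos.1 (by omega)
  | k + 1, G, hG, hN => by
      have hne : G.offDiag.Nonempty := by
        obtain ⟨a, ha, b, hb, hab⟩ := Finset.one_lt_card.1 (show 1 < G.card by omega)
        exact ⟨(a, b), Finset.mem_offDiag.2 ⟨ha, hb, hab⟩⟩
      obtain ⟨⟨a, b⟩, hmem, hmin'⟩ :=
        Finset.exists_min_image G.offDiag (fun p => U.dl p.1 p.2) hne
      obtain ⟨ha, hb, hab⟩ := Finset.mem_offDiag.1 hmem
      have hmin : ∀ x ∈ G, ∀ y ∈ G, x ≠ y → U.dl a b ≤ U.dl x y := fun x hx y hy hxy =>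
        hmin' (x, y) (Finset.mem_offDiag.2 ⟨hx, hy, hxy⟩)
      have hmin2 : ∀ x ∈ G, ∀ y ∈ G, x ≠ y → U.dl b a ≤ U.dl x y := fun x hx y hy hxy => by
        rw [U.comm b a]
        exact hmin x hx y hy hxy
      have key : (∀ y ∈ G, y ≠ a → y ≠ b → U.dl a b < U.dl b y) ∨
          (∀ y ∈ G, y ≠ b → y ≠ a → U.dl b a < U.dl a y) := by
        by_contra hcon
        push Not at hcon
        obtain ⟨⟨y, hy, hya, hyb, h1⟩, ⟨y', hy', hyb', hya', h2⟩⟩ := hcon
        have h3 := hmin b hb y hy (Ne.symm hyb)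
        have h4 := hmin2 a ha y' hy' (Ne.symm hya')
        have h5 := hmin a ha y hy (Ne.symm hya)
        have h6 := hmin b hb y' hy' (Ne.symm hyb')
        have hc := U.comm a b
        have h7 : U.dl a b ≠ U.dl a y := by
          intro h0
          exact hN (Or.inl ⟨a, ha, b, hb, y, hy, hab, Ne.symm hyb, Ne.symm hya, by omega, h0⟩)
        have h8 : U.dl a b ≠ U.dl b y' := by
          intro h0
          exact hN (Or.inl ⟨b, hb, a, ha, y', hy', Ne.symm hab, Ne.symm hya', Ne.symm hyb',
            by omega, by omega⟩)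
        exact hN (Or.inr ⟨a, ha, y, hy, b, hb, y', hy', Ne.symm hya, Ne.symm hyb', by omega,
          by omega⟩)
      rcases key with key | key
      · refine ⟨a, ha, U.dl a b, CatChain_off ha hab hmin key, by omega, ?_⟩
        exact CatChain_aux U k (G.erase a) (by rw [Finset.card_erase_of_mem ha]; omega)
          (CatChain_nc_mono (Finset.erase_subset a G) hN)
      · refine ⟨b, hb, U.dl b a, CatChain_off hb (Ne.symm hab) hmin2 key, by omega, ?_⟩
        exact CatChain_aux U k (G.erase b) (by rw [Finset.card_erase_of_mem hb]; omega)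
          (CatChain_nc_mono (Finset.erase_subset b G) hN)

theorem catchain : St_catchain := by
  intro V D _ _ m U G hG hN
  have h : 0 < G.card := Finset.card_pos.2 hG
  exact CatChain_aux U (G.card - 1) G (by omega) hN

end Pool.Agent.H40.HT
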