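import Pool.Agent.H40.HT.Stm

/-!
# CHAINLEV (project HT of helper40), by helper166
-/

set_option autoImplicit false

namespace Pool.Agent.H40.HT

open Finset Pool.Agent.H40.HL

theorem ChainLev_mem {V D : Type} [DecidableEq V] [DecidableEq D] {m : ℕ} (U : UT V D m)
    (R : Finset V) (a : ℕ) :
    a ∈ levels U R ↔ ∃ x ∈ R, ∃ y ∈ R, x ≠ y ∧ U.dl x y = a := by
  unfold levels
  rw [mem_image]
  constructor
  · rintro ⟨p, hp, rfl⟩
    rw [mem_offDiag] at hp
    exact ⟨p.1, hp.1, p.2, hp.2.1, hp.2.2, rfl⟩
  · rintro ⟨x, hx, y, hy, hxy, rfl⟩
    exact ⟨(x, y), mem_offDiag.2 ⟨hx, hy, hxy⟩, rfl⟩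

theorem chainlev : St_chainlev := by
  intro V D _ _ m U t
  induction t with
  | zero =>
    intro H hH
    obtain ⟨y, hy⟩ : H.Nonempty := hH
    refine ⟨∅, empty_subset _, card_empty, fun B hB => ?_⟩
    rw [subset_empty] at hB
    subst hB
    refine ⟨{y}, singleton_subset_iff.2 hy, by simp, ?_, ?_, ?_⟩
    · rw [eq_empty_iff_forall_notMem]
      intro a ha
      rw [ChainLev_mem] at ha
      obtain ⟨x, hx, z, hz, hne, -⟩ := ha
      rw [mem_singleton] at hx hz
      exact hne (hx.trans hz.symm)
    · rintro (⟨x, hx, z, hz, w, hw, hne, -⟩ | ⟨x, hx, z, hz, w, hw, w', hw', hne, -⟩)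
      · rw [mem_singleton] at hx hz
        exact hne (hx.trans hz.symm)
      · rw [mem_singleton] at hx hz
        exact hne (hx.trans hz.symm)
    · intro h
      exact absurd h not_nonempty_empty
  | succ t ih =>
    intro H hH
    obtain ⟨x, hx, l, ⟨ho1, ho2⟩, hcard, hch⟩ := hH
    obtain ⟨L', hL', hLc, hLB⟩ := ih (H.erase x) hch
    have hlt : ∀ y z, y ≠ z → U.dl y z < m := by
      intro y z hyz
      have h1 := U.le_m y z
      have h2 : U.dl y z ≠ m := fun h => hyz ((U.eq_m y z).1 h)
      omega
    have hge : ∀ y ∈ H, ∀ z ∈ H, y ≠ z → l ≤ U.dl y z := by
      intro y hy z hz hyz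
      by_cases h1 : y = x
      · subst h1
        exact (ho1 z hz (fun h => hyz h.symm)).ge
      · by_cases h2 : z = x
        · subst h2
          rw [U.comm]
          exact (ho1 y hy h1).ge
        · exact (ho2 y hy z hz h1 h2 hyz).le
    have hl : l ∉ L' := by
      intro h
      have h1 := hL' h
      rw [ChainLev_mem] at h1
      obtain ⟨y, hy, z, hz, hyz, he⟩ := h1
      rw [mem_erase] at hy hz
      have h2 := ho2 y hy.2 z hz.2 hy.1 hz.1 hyz
      omega
    refine ⟨insert l L', ?_, ?_, ?_⟩
    · intro a ha
      rw [mem_insert] at ha
      rw [ChainLev_mem]
      rcases ha with rfl | ha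
      · obtain ⟨y, hy, hyx⟩ := exists_mem_ne (by omega : 1 < H.card) x
        exact ⟨x, hx, y, hy, fun h => hyx h.symm, ho1 y hy hyx⟩
      · have h1 := hL' ha
        rw [ChainLev_mem] at h1
        obtain ⟨y, hy, z, hz, hyz, he⟩ := h1
        exact ⟨y, mem_of_mem_erase hy, z, mem_of_mem_erase hz, hyz, he⟩
    · rw [card_insert_of_notMem hl, hLc]
    · intro B hB
      by_cases hlB : l ∈ B
      · have hB' : B.erase l ⊆ L' := subset_insert_iff.1 hB
        obtain ⟨R, hR, hRc, hRl, hRn, -⟩ := hLB (B.erase l) hB'
        have hxR : x ∉ R := fun h => (mem_erase.1 (hR h)).1 rfl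
        have hRH : ∀ y ∈ R, y ∈ H ∧ y ≠ x := fun y hy => by
          have := mem_erase.1 (hR hy)
          exact ⟨this.2, this.1⟩
        have hsub : insert x R ⊆ H := by
          intro y hy
          rw [mem_insert] at hy
          rcases hy with rfl | hy
          · exact hx
          · exact (hRH y hy).1
        refine ⟨insert x R, hsub, ?_, ?_, ?_, ?_⟩
        · rw [card_insert_of_notMem hxR, hRc, card_erase_of_mem hlB]
          have := card_pos.2 ⟨l, hlB⟩
          omega
        · have h1 : levels U (insert x R) = insert l (levels U R) := by
            ext a
            rw [mem_insert, ChainLev_mem, ChainLev_mem]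
            constructor
            · rintro ⟨y, hy, z, hz, hyz, he⟩
              rw [mem_insert] at hy hz
              rcases hy with rfl | hy
              · rcases hz with rfl | hz
                · exact absurd rfl hyz
                · left
                  rw [← he]
                  exact ho1 z (hRH z hz).1 (hRH z hz).2
              · rcases hz with rfl | hz
                · left
                  rw [← he, U.comm]
                  exact ho1 y (hRH y hy).1 (hRH y hy).2
                · right
                  exact ⟨y, hy, z, hz, hyz, he⟩
            · rintro (rfl | ⟨y, hy, z, hz, hyz, he⟩)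
              · obtain ⟨y, hy⟩ : R.Nonempty := by
                  rw [← card_pos, hRc]
                  omega
                exact ⟨x, mem_insert_self x R, y, mem_insert_of_mem hy,
                  fun h => hxR (h ▸ hy), ho1 y (hRH y hy).1 (hRH y hy).2⟩
              · exact ⟨y, mem_insert_of_mem hy, z, mem_insert_of_mem hz, hyz, he⟩
          rw [h1, hRl]
          exact insert_erase hlB
        · rintro (⟨a, ha, b, hb, c, hc, hab, hbc, hac, h1, h2⟩ |
            ⟨a, ha, b, hb, c, hc, d, hd, hab, hcd, h1, h2⟩)
          · have ha' := hsub ha
            have hb' := hsub hb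
            have hc' := hsub hc
            by_cases hax : a = x
            · subst hax
              have e1 := ho1 b hb' (fun h => hab h.symm)
              have e2 := ho2 b hb' c hc' (fun h => hab h.symm) (fun h => hac h.symm) hbc
              omega
            · by_cases hbx : b = x
              · subst hbx
                have e1 := ho1 a ha' hax
                rw [U.comm] at e1
                have e2 := ho2 a ha' c hc' hax (fun h => hbc h.symm) hac
                omega
              · by_cases hcx : c = x
                · subst hcx
                  have e1 := ho1 b hb' hbx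
                  rw [U.comm] at e1
                  have e2 := ho2 a ha' b hb' hax hbx hab
                  omega
                · apply hRn
                  left
                  exact ⟨a, mem_of_mem_insert_of_ne ha hax, b, mem_of_mem_insert_of_ne hb hbx,
                    c, mem_of_mem_insert_of_ne hc hcx, hab, hbc, hac, h1, h2⟩
          · have ha' := hsub ha
            have hb' := hsub hb
            have hc' := hsub hc
            have hd' := hsub hd
            have hacne : a ≠ c := by
              intro h
              have e1 : U.dl a c = m := (U.eq_m a c).2 h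
              have e2 := U.le_m a b
              omega
            have e3 := hge a ha' c hc' hacne
            by_cases hax : a = x
            · subst hax
              have e1 := ho1 b hb' (fun h => hab h.symm)
              omega
            · by_cases hbx : b = x
              · subst hbx
                have e1 := ho1 a ha' hax
                rw [U.comm] at e1
                omega
              · by_cases hcx : c = x
                · subst hcx
                  have e1 := ho1 d hd' (fun h => hcd h.symm)
                  omega
                · by_cases hdx : d = x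
                  · subst hdx
                    have e1 := ho1 c hc' hcx
                    rw [U.comm] at e1
                    omega
                  · apply hRn
                    right
                    exact ⟨a, mem_of_mem_insert_of_ne ha hax, b, mem_of_mem_insert_of_ne hb hbx,
                      c, mem_of_mem_insert_of_ne hc hcx, d, mem_of_mem_insert_of_ne hd hdx,
                      hab, hcd, h1, h2⟩
        · intro _
          refine ⟨x, mem_insert_self x R, ?_⟩
          intro y hy z hz hyx hzx hyz
          rw [ho1 y (hsub hy) hyx]
          exact ho2 y (hsub hy) z (hsub hz) hyx hzx hyz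
      · have hB' : B ⊆ L' := (subset_insert_iff_of_notMem hlB).1 hB
        obtain ⟨R, hR, h2⟩ := hLB B hB'
        exact ⟨R, hR.trans (erase_subset x H), h2⟩

end Pool.Agent.H40.HT
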