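import Pool.Agent.H40.HT.Stm

namespace Pool.Agent.H40.HT

open Finset Pool.Agent.H40.HL

theorem ConstK_tri {V D : Type} {m : ℕ} (U : UT V D m) (a b c : V) :
    min (U.dl a b) (U.dl b c) ≤ U.dl a c ∧ min (U.dl a b) (U.dl a c) ≤ U.dl b c ∧
      min (U.dl a c) (U.dl b c) ≤ U.dl a b := by
  have h1 := U.ultra a b c
  have h2 := U.ultra b a c
  have h3 := U.ultra a c b
  rw [U.comm b a] at h2
  rw [U.comm c b] at h3
  exact ⟨h1, h2, h3⟩

theorem ConstK_star {V D : Type} [DecidableEq V] {m : ℕ} (U : UT V D m) (e : Finset V)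
    (z x w v : V) (l : ℕ) (hx : x ∈ e) (hxz : l ≤ U.dl x z) (hw : w ∈ e) (hwz : U.dl w z < l)
    (hv : l ≤ U.dl v z) (hve : v ∉ e) : ¬ Star U (insert v e) := by
  rintro ⟨j, hj⟩
  have hvx : v ≠ x := fun h => hve (h ▸ hx)
  have hxw : x ≠ w := by
    rintro rfl
    omega
  have h1 := hj v (Finset.mem_insert_self _ _) x (Finset.mem_insert_of_mem hx) hvx
  have h2 := hj x (Finset.mem_insert_of_mem hx) w (Finset.mem_insert_of_mem hw) hxw
  have h3 := ConstK_tri U v x z
  have h4 := ConstK_tri U x w z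
  omega

theorem ConstK_top {V D : Type} [DecidableEq V] {m : ℕ} (U : UT V D m) (e : Finset V)
    (z x w v : V) (l : ℕ) (hx : x ∈ e) (hxz : l ≤ U.dl x z) (hw : w ∈ e) (hwz : U.dl w z < l)
    (hv : l ≤ U.dl v z) (hve : v ∉ e) : Top U (insert v e) ↔
      ∃ t ∈ e, U.dl t z < l ∧ ∀ y ∈ e, ∀ y' ∈ e, y ≠ t → y' ≠ t → y ≠ y' →
        U.dl t y < U.dl y y' := by
  have hvx : v ≠ x := fun h => hve (h ▸ hx)
  constructor
  · rintro ⟨t, ht, H⟩
    rcases Nat.lt_or_ge (U.dl t z) l with htz | htz
    · have htv : t ≠ v := by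
        rintro rfl
        omega
      have hte : t ∈ e := (Finset.mem_insert.mp ht).resolve_left htv
      exact ⟨t, hte, htz, fun y hy y' hy' h1 h2 h3 =>
        H y (Finset.mem_insert_of_mem hy) y' (Finset.mem_insert_of_mem hy') h1 h2 h3⟩
    · exfalso
      have hwt : w ≠ t := by
        rintro rfl
        omega
      obtain ⟨y, hy, hyz, hyt⟩ : ∃ y ∈ insert v e, l ≤ U.dl y z ∧ y ≠ t := by
        by_cases htx : x = t
        · exact ⟨v, Finset.mem_insert_self _ _, hv, htx ▸ hvx⟩
        · exact ⟨x, Finset.mem_insert_of_mem hx, hxz, htx⟩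
      have hyw : y ≠ w := by
        rintro rfl
        omega
      have h1 := H y hy w (Finset.mem_insert_of_mem hw) hyt hwt hyw
      have h2 := ConstK_tri U t y z
      have h3 := ConstK_tri U y w z
      omega
  · rintro ⟨t, ht, htz, H⟩
    have hxt : x ≠ t := by
      rintro rfl
      omega
    refine ⟨t, Finset.mem_insert_of_mem ht, ?_⟩
    intro y hy y' hy' hyt hyt' hyy
    rcases Finset.mem_insert.mp hy with rfl | hy1
    · rcases Finset.mem_insert.mp hy' with rfl | hy1'
      · exact absurd rfl hyy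
      · have a1 := ConstK_tri U t y z
        have a2 := ConstK_tri U t x z
        have a3 := ConstK_tri U y y' z
        have a4 := ConstK_tri U x y' z
        have a5 := ConstK_tri U t y' z
        have a6 := ConstK_tri U t y x
        have a7 := ConstK_tri U y x z
        by_cases hzz : l ≤ U.dl y' z
        · omega
        · have hxy' : x ≠ y' := by
            rintro rfl
            exact hzz hxz
          have b1 := H x hx y' hy1' hxt hyt' hxy'
          omega
    · rcases Finset.mem_insert.mp hy' with rfl | hy1'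
      · have a1 := ConstK_tri U t y z
        have a2 := ConstK_tri U y y' z
        have a3 := ConstK_tri U y x z
        have a4 := ConstK_tri U t x z
        by_cases hzz : l ≤ U.dl y z
        · omega
        · have hyx : y ≠ x := by
            rintro rfl
            exact hzz hxz
          have b1 := H y hy1 x hx hyt hxt hyx
          omega
      · exact H y hy1 y' hy1' hyt hyt' hyy

theorem constK : St_constK := by
  intro V D κ _ _ _ m U χ φ z0 z1 e z x w l hx hxz hw hwz hNC v v' hv hve hv' hve'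
  have key : ∀ v, l ≤ U.dl v z → v ∉ e → (col U χ φ z0 z1 (insert v e) = z0 ∧
      (∃ t ∈ e, U.dl t z < l ∧ ∀ y ∈ e, ∀ y' ∈ e, y ≠ t → y' ≠ t → y ≠ y' →
        U.dl t y < U.dl y y')) ∨ (col U χ φ z0 z1 (insert v e) = z1 ∧
      ¬ (∃ t ∈ e, U.dl t z < l ∧ ∀ y ∈ e, ∀ y' ∈ e, y ≠ t → y' ≠ t → y ≠ y' →
        U.dl t y < U.dl y y')) := by
    intro v hv hve
    have h1 := ConstK_star U e z x w v l hx hxz hw hwz hv hve
    have h2 := ConstK_top U e z x w v l hx hxz hw hwz hv hve
    by_cases h3 : Top U (insert v e)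
    · left
      refine ⟨?_, h2.mp h3⟩
      unfold col
      rw [if_neg h1, if_pos h3, if_pos (hNC v hv hve)]
    · right
      refine ⟨?_, fun h => h3 (h2.mpr h)⟩
      unfold col
      rw [if_neg h1, if_neg h3]
  rcases key v hv hve with ⟨h1, h2⟩ | ⟨h1, h2⟩
  · rcases key v' hv' hve' with ⟨h3, _⟩ | ⟨_, h4⟩
    · rw [h1, h3]
    · exact absurd h2 h4
  · rcases key v' hv' hve' with ⟨_, h4⟩ | ⟨h3, _⟩
    · exact absurd h4 h2
    · rw [h1, h3]

end Pool.Agent.H40.HT
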