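import Pool.Agent.H40.HT.Defs
import Pool.Agent.H40.HL.Order
import Pool.Graph.R_pool_sql_team_seeded_3997aac3.Q216.TI.Frozen

/-!
# Numerical statements (project HT of helper40)
-/

namespace Pool.Agent.H40.HT

open Finset Filter Pool.Agent.H40.HL Pool.Agent.TH138.NF Pool.Agent.Q216.TI

/-- Some colouring of the `(s + 1)`-subsets of an `N`-set with two given colours has no one-coloured `k`-set
and no extended mistake tree of depth `d + 1`. -/
def GoodE (s d k N : ℕ) : Prop := ∀ (κ : Type) [DecidableEq κ] (c0 c1 : κ), c0 ≠ c1 →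
  ∃ c : Finset (Fin N) → κ, (∀ g, c g = c0 ∨ c g = c1) ∧ NoMono s c k ∧
    ¬ TreeE s c c0 c1 (d + 1) (Finset.univ : Finset (Fin N))

/-- GOODE.  Take `hr : St_rande` as a hypothesis (statement RANDE of `Stm.lean`, being proved by somebody else).
Proof: (1) copy `random_real` of `Pool/Agent/H40/HL/Asy.lean` with `Good s q d k N` replaced by `GoodE s d k N`
(the last lines use `random`; now use `hr κ N k m s a u c0 c1 ...`, which has the same numerical hypotheses; `q` disappears).
(2) copy the lower bound half of `sharp` in `Pool/Agent/H40/HL/Order.lean`: there, for `d ≥ D`, `d ≤ k ^ η`, `k` large,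
`N = ⌊exp (lam d log k)⌋`, `lam = s - δ / 2`, satisfies `Good s q d k N`, `1 ≤ N` and
`(s - δ) d log k ≤ lam d log k - 1 ≤ log N`.  Here `d` is fixed and `k ≥ k0(d)`, which is easier: `d ≤ k ^ η` for all
large `k`. -/
def St_goodE : Prop := ∀ s : ℕ, 1 ≤ s → ∀ δ : ℝ, 0 < δ → δ ≤ 1 → ∃ D : ℕ, ∀ d : ℕ, D ≤ d →
  ∃ k0 : ℕ, ∀ k : ℕ, k0 ≤ k → ∃ N : ℕ, 1 ≤ N ∧ (s - δ) * d * Real.log k ≤ Real.log N ∧
    GoodE s d k N

/-- TOW.  Classical lower bound (stepping-up): for `s ≥ 3` and all large `n` there is a two-colouring of the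
`s`-subsets of a set with at least `tow (s - 2) n` elements without one-coloured `n`-set.
Proof by induction on `s`, of the stronger statement with `tow (s - 2) (n ^ (3/2) / c_s)`, i.e.: for some `c > 0` and all
large `n` there is `N ≥ tow (s - 2) (c * n ^ (3/2))` with `¬ Ram N s n` (`Ram N r n` of the library: every
two-colouring of the `r`-subsets of `range N` has a one-coloured `n`-set).
`s = 3`: `Pool.Agent.H40.HL.order` with `s := 2`, `q := 2`, `δ := 1/2`, `d := ⌊k ^ (3/2)⌋`: the largest order
`largest 2 2 d k` is attained (`largest_good`), and its logarithm is at least `c d log k ≥ c' k ^ (3/2) log 2`; a colouring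
with values in `Fin 2` gives one with values in `Bool`, `NoMono 2 c k` is the absence of one-coloured `k`-sets; see
`not_ram_iff` in `Pool/Agent/H40/HL/Quest.lean`.
Step `s → s + 1`, `s ≥ 3`: part (1) of the library theorem
`Pool.Agent.Results.MP_014066_co.TranslationInvariant.result` (module
`Pool.Graph.R_pool_sql_team_seeded_3997aac3.Results.MP_014066_co.TranslationInvariant`; or `lower_up` / `lower_of_lowerS` in
`...Q216.TI.Tower`, whose proofs show how it is used): if `¬ Ram N s k` then there is a colouring of `(s + 1)`-sets of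
integers without one-coloured `(3 k + 3 s)`-set in `{0, ..., 3 ^ N - 1}`, so `¬ Ram (3 ^ N) (s + 1) (3 k + 3 s)`.
The constants (`n = 3 k + 3 s`, monotonicity in `n`) are absorbed by `c`; at the end `c n ^ (3/2) ≥ n` for large `n`. -/
def St_tow : Prop := ∀ s : ℕ, 3 ≤ s → ∃ n0 : ℕ, ∀ n : ℕ, n0 ≤ n → ∃ (N : ℕ)
  (φ : Finset (Fin N) → Bool), tow (s - 2) n ≤ N ∧ NoMono (s - 1) φ n

end Pool.Agent.H40.HT
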