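import Pool.Agent.H40.HT.Stm
import Pool.Agent.H40.HT.Stm2

/-!
# The random base colouring, asymptotic form (helper903 for helper40)

Adaptation of `random_real` of `Pool/Agent/H40/HL/Asy.lean` and of the lower half of `sharp` of
`Pool/Agent/H40/HL/Order.lean` (helper40).
-/

namespace Pool.Agent.H40.HT

open Finset Filter Pool.Agent.H40.HL

/-- The random colouring with real parameters. -/
theorem GoodE_random_real (hr : St_rande) (s : ℕ) (γ : ℝ) (hγ0 : 0 < γ) (hγs : γ < s) :
    ∃ k0 : ℕ, ∀ k : ℕ, k0 ≤ k → ∀ N a u d : ℕ, a + u = d + 1 → 1 ≤ N →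
    Real.log N ≤ (k : ℝ) ^ γ / (8 * Cs s) →
    ((s : ℝ) * a + 2 ^ u) * Real.log N + 2 ≤ a * 2 ^ u * ((s - γ) * Real.log k) →
    GoodE s d k N := by
  have hC := Cs_pos s
  have hlim : Tendsto (fun k : ℕ => (k : ℝ) ^ (1 + γ)) atTop atTop :=
    (tendsto_rpow_atTop (by linarith)).comp tendsto_natCast_atTop_atTop
  have hlim2 : Tendsto (fun k : ℕ => (k : ℝ) ^ ((s : ℝ) - γ)) atTop atTop :=
    (tendsto_rpow_atTop (by linarith)).comp tendsto_natCast_atTop_atTop
  obtain ⟨k1, hk1⟩ := Filter.eventually_atTop.1 (hlim.eventually_ge_atTop (4 * Cs s * 2))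
  obtain ⟨k2, hk2⟩ := Filter.eventually_atTop.1 (hlim2.eventually_ge_atTop 2)
  refine ⟨max (max k1 k2) (2 * s + 2), ?_⟩
  intro k hk N a u d hau hN hlog hcond
  have hkk1 : k1 ≤ k := le_trans (le_trans (le_max_left _ _) (le_max_left _ _)) hk
  have hkk2 : k2 ≤ k := le_trans (le_trans (le_max_right _ _) (le_max_left _ _)) hk
  have hks : 2 * s + 2 ≤ k := le_trans (le_max_right _ _) hk
  have hkpos : (0 : ℝ) < k := by exact_mod_cast (by omega : 0 < k)
  have hX2 := hk2 k hkk2
  set X : ℕ := ⌈(k : ℝ) ^ ((s : ℝ) - γ)⌉₊ with hX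
  have hXge : (k : ℝ) ^ ((s : ℝ) - γ) ≤ X := Nat.le_ceil _
  have hXle : (X : ℝ) ≤ 2 * (k : ℝ) ^ ((s : ℝ) - γ) := by
    have h1 := (Nat.ceil_lt_add_one (le_trans (by norm_num) hX2 :
      (0 : ℝ) ≤ (k : ℝ) ^ ((s : ℝ) - γ))).le
    linarith
  have hX2' : 2 ≤ X := by
    have : (2 : ℝ) ≤ X := le_trans hX2 hXge
    exact_mod_cast this
  obtain ⟨m, hm⟩ : ∃ m, X = m + 1 := ⟨X - 1, by omega⟩
  have hm1 : 1 ≤ m := by omega
  have hNpos : (0 : ℝ) < N := by exact_mod_cast hN
  have hlogN : 0 ≤ Real.log N := Real.log_natCast_nonneg N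
  have hmpos : (0 : ℝ) < m := by exact_mod_cast hm1
  have hl3 : Real.log 3 < 2 := by
    have h1 : Real.log 3 ≤ Real.log 4 := Real.log_le_log (by norm_num) (by norm_num)
    have h2 : Real.log 4 = 2 * Real.log 2 := by
      rw [show (4 : ℝ) = 2 ^ 2 by norm_num, Real.log_pow]; norm_num
    have := Real.log_two_lt_d9
    linarith
  set Mk : ℕ := k.choose (s + 1) with hMk
  -- first condition
  have c1 : 3 * (N ^ k * m ^ Mk) < (m + 1) ^ Mk := by
    have hMkge : (k : ℝ) ^ (1 + γ) / (2 * Cs s) ≤ (Mk : ℝ) / X := by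
      rw [div_le_div_iff₀ (by positivity) (by positivity)]
      have h1 := choose_ge (s := s) (k := k) (by omega)
      rw [div_le_iff₀ hC] at h1
      have h2 : (k : ℝ) ^ (1 + γ) * (2 * (k : ℝ) ^ ((s : ℝ) - γ)) = 2 * (k : ℝ) ^ (s + 1) := by
        rw [show (k : ℝ) ^ (1 + γ) * (2 * (k : ℝ) ^ ((s : ℝ) - γ)) =
          2 * ((k : ℝ) ^ (1 + γ) * (k : ℝ) ^ ((s : ℝ) - γ)) by ring, ← Real.rpow_add hkpos]
        congr 1
        rw [← Real.rpow_natCast]
        congr 1
        push_cast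
        ring
      calc (k : ℝ) ^ (1 + γ) * X ≤ (k : ℝ) ^ (1 + γ) * (2 * (k : ℝ) ^ ((s : ℝ) - γ)) :=
            mul_le_mul_of_nonneg_left hXle (by positivity)
        _ = 2 * (k : ℝ) ^ (s + 1) := h2
        _ ≤ 2 * ((Mk : ℝ) * Cs s) := by linarith
        _ = (Mk : ℝ) * (2 * Cs s) := by ring
    have hmain : Real.log 3 + k * Real.log N < (Mk : ℝ) / X := by
      have h1 := hk1 k hkk1
      have h2 : (k : ℝ) ^ (1 + γ) = k * (k : ℝ) ^ γ := by
        rw [Real.rpow_add hkpos, Real.rpow_one]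
      have h3 : k * Real.log N ≤ (k : ℝ) ^ (1 + γ) / (8 * Cs s) := by
        rw [h2, mul_div_assoc]
        exact mul_le_mul_of_nonneg_left hlog hkpos.le
      have h4 : (2 : ℝ) ≤ (k : ℝ) ^ (1 + γ) / (4 * Cs s) := by
        rw [le_div_iff₀ (by positivity)]
        linarith
      have h5 : (k : ℝ) ^ (1 + γ) / (2 * Cs s) = (k : ℝ) ^ (1 + γ) / (4 * Cs s) +
          2 * ((k : ℝ) ^ (1 + γ) / (8 * Cs s)) := by
        field_simp
        ring
      have h6 : 0 ≤ (k : ℝ) ^ (1 + γ) / (8 * Cs s) := by positivity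
      linarith
    have hXm : (X : ℝ) = m + 1 := by rw [hm]; push_cast; ring
    have hlt : Real.log (3 * ((N : ℝ) ^ k * (m : ℝ) ^ Mk)) < Real.log (((m : ℝ) + 1) ^ Mk) := by
      rw [Real.log_mul (by norm_num) (by positivity), Real.log_mul (by positivity) (by positivity),
        Real.log_pow, Real.log_pow, Real.log_pow]
      have h1 : Real.log (m : ℝ) ≤ Real.log ((m : ℝ) + 1) - 1 / X := by
        have h2 : Real.log ((m : ℝ) / (m + 1)) ≤ (m : ℝ) / (m + 1) - 1 :=
          Real.log_le_sub_one_of_pos (by positivity)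
        rw [Real.log_div (by positivity) (by positivity)] at h2
        have h3 : (m : ℝ) / (m + 1) - 1 = - (1 / X) := by
          rw [hXm]; field_simp; ring
        linarith
      have h2 : (Mk : ℝ) * Real.log m ≤ Mk * (Real.log ((m : ℝ) + 1) - 1 / X) :=
        mul_le_mul_of_nonneg_left h1 (by positivity)
      have h3 : (Mk : ℝ) * (1 / X) = Mk / X := by ring
      nlinarith
    have h7 := (Real.log_lt_log_iff (by positivity) (by positivity)).1 hlt
    exact_mod_cast h7
  have c3 : 3 * N ^ (s * a + 2 ^ u) < (m + 1) ^ (a * 2 ^ u) := by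
    have hXm : (X : ℝ) = m + 1 := by rw [hm]; push_cast; ring
    have hlt : Real.log (3 * (N : ℝ) ^ (s * a + 2 ^ u)) <
        Real.log (((m : ℝ) + 1) ^ (a * 2 ^ u)) := by
      rw [Real.log_mul (by norm_num) (by positivity), Real.log_pow, Real.log_pow]
      push_cast
      have h1 : (s - γ) * Real.log k ≤ Real.log ((m : ℝ) + 1) := by
        rw [← Real.log_rpow hkpos, ← hXm]
        exact Real.log_le_log (by positivity) hXge
      have h2 : (a : ℝ) * 2 ^ u * ((s - γ) * Real.log k) ≤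
          (a : ℝ) * 2 ^ u * Real.log ((m : ℝ) + 1) := mul_le_mul_of_nonneg_left h1 (by positivity)
      linarith
    have h7 := (Real.log_lt_log_iff (by positivity) (by positivity)).1 hlt
    exact_mod_cast h7
  intro κ _ z0 z1 h01
  obtain ⟨c, h1, hc2, hc3⟩ := hr κ N k m s a u z0 z1 h01 (by omega) c1 hm1 c3
  refine ⟨c, h1, hc2, ?_⟩
  rw [← hau]
  exact hc3

/-- **GOODE.** -/
theorem goodE (hr : St_rande) : St_goodE := by
  intro s hs δ hδ hδ1
  have hsp : (1 : ℝ) ≤ s := by exact_mod_cast hs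
  have hC := Cs_pos s
  set γ : ℝ := δ / 8 with hγ
  set ρ : ℝ := δ / (8 * s) with hρ
  have hγ0 : 0 < γ := by positivity
  have hγs : γ < s := by rw [hγ]; linarith
  have hρ0 : 0 < ρ := by positivity
  have hρs : ρ * s = δ / 8 := by rw [hρ]; field_simp
  have hρ1 : ρ ≤ 1 / 8 := by
    rw [hρ, div_le_iff₀ (by positivity)]; linarith
  obtain ⟨k0, hk0⟩ := GoodE_random_real hr s γ hγ0 hγs
  set lam : ℝ := s - δ / 2 with hlam
  have hlam0 : 0 < lam := by rw [hlam]; linarith
  set M : ℕ := ⌈(s : ℝ) / ρ⌉₊ with hM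
  have hMge : (s : ℝ) / ρ ≤ M := Nat.le_ceil _
  have hMpos : 1 ≤ M := by
    have : (0 : ℝ) < M := lt_of_lt_of_le (by positivity) hMge
    exact_mod_cast this
  -- eventual facts in `k`
  have ev1 : ∀ᶠ k : ℕ in atTop, (s : ℝ) * (k : ℝ) ^ (γ / 2) * Real.log k ≤
      (k : ℝ) ^ γ / (8 * Cs s) := by
    have h1 := isLittleO_log_rpow_atTop (show (0 : ℝ) < γ / 2 by positivity)
    have h2 := (h1.bound (show (0 : ℝ) < 1 / (s * (8 * Cs s)) by positivity))
    have h3 := tendsto_natCast_atTop_atTop (R := ℝ) |>.eventually h2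
    filter_upwards [h3, eventually_ge_atTop 1] with k hk hk1
    have hkp : (0 : ℝ) < k := by exact_mod_cast hk1
    rw [Real.norm_of_nonneg (Real.log_natCast_nonneg k), Real.norm_of_nonneg (by positivity)] at hk
    have h4 : (k : ℝ) ^ γ = (k : ℝ) ^ (γ / 2) * (k : ℝ) ^ (γ / 2) := by
      rw [← Real.rpow_add hkp]; congr 1; ring
    rw [h4]
    have h5 : (s : ℝ) * (k : ℝ) ^ (γ / 2) * Real.log k ≤ (s : ℝ) * (k : ℝ) ^ (γ / 2) *
        (1 / (s * (8 * Cs s)) * (k : ℝ) ^ (γ / 2)) := mul_le_mul_of_nonneg_left hk (by positivity)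
    refine h5.trans (le_of_eq ?_)
    field_simp
  have hlogk : Tendsto (fun k : ℕ => Real.log k) atTop atTop :=
    Real.tendsto_log_atTop.comp tendsto_natCast_atTop_atTop
  have ev2 : ∀ᶠ k : ℕ in atTop, 16 / δ ≤ Real.log k :=
    hlogk.eventually_ge_atTop _
  obtain ⟨k1, hk1⟩ := Filter.eventually_atTop.1 (ev1.and ev2)
  -- eventual facts in `d`
  have ev3 : ∀ᶠ d : ℕ in atTop, ((Nat.clog 2 (M * d) : ℕ) : ℝ) ≤ ρ * d := by
    have h1 : Tendsto (fun d : ℕ => Real.log d) atTop atTop := hlogk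
    have h2 := (Real.isLittleO_log_id_atTop.bound (show (0 : ℝ) < ρ * Real.log 2 / 2 by
      have := Real.log_pos (show (1 : ℝ) < 2 by norm_num); positivity))
    have h3 := tendsto_natCast_atTop_atTop (R := ℝ) |>.eventually h2
    filter_upwards [h3, eventually_ge_atTop 1,
      eventually_ge_atTop (⌈(Real.log M / Real.log 2 + 1) / (ρ / 2)⌉₊)] with d hd hd1 hd2
    have hdp : (0 : ℝ) < d := by exact_mod_cast hd1
    have hl2 := Real.log_pos (show (1 : ℝ) < 2 by norm_num)
    have hMd : 0 < M * d := Nat.mul_pos hMpos hd1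
    have hMp : (0 : ℝ) < M := by exact_mod_cast hMpos
    rw [Real.norm_of_nonneg (Real.log_natCast_nonneg d)] at hd
    simp only [id, Real.norm_of_nonneg hdp.le] at hd
    have h4 : ((Nat.clog 2 (M * d) : ℕ) : ℝ) ≤ Real.log (M * d) / Real.log 2 + 1 := by
      rcases Nat.lt_or_ge 1 (M * d) with h5 | h5
      · have h6 := Nat.pow_pred_clog_lt_self (b := 2) (by norm_num) h5
        have h7 : ((2 : ℝ)) ^ (Nat.clog 2 (M * d)).pred ≤ M * d := by exact_mod_cast h6.le
        have h8 := Real.log_le_log (by positivity) h7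
        rw [Real.log_pow] at h8
        have h9 : 0 < Nat.clog 2 (M * d) := Nat.clog_pos (by norm_num) h5
        have h10 : (((Nat.clog 2 (M * d)).pred : ℕ) : ℝ) = (Nat.clog 2 (M * d) : ℝ) - 1 := by
          rw [Nat.pred_eq_sub_one, Nat.cast_sub h9]; norm_num
        rw [h10] at h8
        rw [← sub_le_iff_le_add, le_div_iff₀ hl2]
        exact h8
      · have h6 : M * d = 1 := le_antisymm h5 hMd
        rw [h6]
        simp only [Nat.clog_one_right, Nat.cast_zero]
        have h7 : ((M : ℝ) * d) = 1 := by exact_mod_cast h6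
        rw [h7]
        simp
    rw [Real.log_mul (by positivity) (by positivity)] at h4
    have h5 : (Real.log M / Real.log 2 + 1) / (ρ / 2) ≤ d :=
      (Nat.le_ceil _).trans (by exact_mod_cast hd2)
    rw [div_le_iff₀ (by positivity)] at h5
    have h6 : Real.log d / Real.log 2 ≤ ρ * d / 2 := by
      rw [div_le_iff₀ hl2]
      linarith
    rw [add_div] at h4
    linarith
  obtain ⟨D1, hD1⟩ := Filter.eventually_atTop.1 ev3
  set K : ℕ := max (max k0 k1) 3 with hK
  refine ⟨max D1 2, ?_⟩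
  intro d hd
  have hdD1 : D1 ≤ d := le_trans (le_max_left _ _) hd
  have hd2 : 2 ≤ d := le_trans (le_max_right _ _) hd
  have hd1 : 1 ≤ d := by omega
  have hdp : (1 : ℝ) ≤ d := by exact_mod_cast hd1
  have ev4 : ∀ᶠ k : ℕ in atTop, (d : ℝ) ≤ (k : ℝ) ^ (γ / 2) :=
    ((tendsto_rpow_atTop (by positivity : (0 : ℝ) < γ / 2)).comp
      tendsto_natCast_atTop_atTop).eventually_ge_atTop _
  obtain ⟨k2, hk2⟩ := Filter.eventually_atTop.1 ev4
  refine ⟨max (max K k2) (max 1 k1), ?_⟩
  intro k hk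
  simp only [max_le_iff] at hk
  obtain ⟨⟨hkK, hkk2⟩, hk1', hkk1⟩ := hk
  have hdk := hk2 k hkk2
  have hkk0 : k0 ≤ k := by
    have : k0 ≤ K := le_trans (le_max_left _ _) (le_max_left _ _)
    omega
  have hkp : (0 : ℝ) < k := by exact_mod_cast hk1'
  obtain ⟨hev1, hlk16⟩ := hk1 k hkk1
  have hlkpos : 0 < Real.log k := lt_of_lt_of_le (by positivity) hlk16
  set u : ℕ := Nat.clog 2 (M * d) with hu
  have hu1 : (u : ℝ) ≤ ρ * d := hD1 d hdD1
  have hu2 : M * d ≤ 2 ^ u := Nat.le_pow_clog (by norm_num) _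
  have hupos : 1 ≤ u := by
    have h1 : 2 ≤ M * d := le_trans (by omega : 2 ≤ d) (Nat.le_mul_of_pos_left _ hMpos)
    exact Nat.clog_pos (by norm_num) h1
  have hud : u ≤ d := by
    have h1 : (u : ℝ) ≤ d := hu1.trans (by nlinarith)
    exact_mod_cast h1
  set a : ℕ := d + 1 - u with ha
  have hau : a + u = d + 1 := by omega
  have haR : (a : ℝ) = d + 1 - u := by
    have : (a : ℝ) + u = d + 1 := by exact_mod_cast hau
    linarith
  set N : ℕ := ⌊Real.exp (lam * d * Real.log k)⌋₊ with hN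
  have hexp1 : 1 ≤ Real.exp (lam * d * Real.log k) := Real.one_le_exp (by positivity)
  have hN1 : 1 ≤ N := (Nat.one_le_floor_iff _).2 hexp1
  have hNp : (0 : ℝ) < N := by exact_mod_cast hN1
  have hNle : (N : ℝ) ≤ Real.exp (lam * d * Real.log k) := Nat.floor_le (by positivity)
  have hNge : Real.exp (lam * d * Real.log k) / 2 ≤ N := by
    have h1 := Nat.lt_floor_add_one (Real.exp (lam * d * Real.log k))
    have h2 : (1 : ℝ) ≤ N := by exact_mod_cast hN1
    rw [← hN] at h1
    linarith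
  have hlogNle : Real.log N ≤ lam * d * Real.log k := by
    rw [← Real.log_exp (lam * d * Real.log k)]
    exact Real.log_le_log hNp hNle
  have hlogNge : lam * d * Real.log k - 1 ≤ Real.log N := by
    have h1 := Real.log_le_log (by positivity) hNge
    rw [Real.log_div (by positivity) (by norm_num), Real.log_exp] at h1
    have := Real.log_two_lt_d9
    linarith
  have hlogN0 : 0 ≤ Real.log N := Real.log_natCast_nonneg N
  have hgood : GoodE s d k N := by
    refine hk0 k hkk0 N a u d hau hN1 ?_ ?_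
    · refine hlogNle.trans (le_trans ?_ hev1)
      have h1 : lam * d ≤ s * (k : ℝ) ^ (γ / 2) :=
        mul_le_mul (by rw [hlam]; linarith) hdk (by positivity) (by positivity)
      exact mul_le_mul_of_nonneg_right h1 hlkpos.le
    · have h2u : (0 : ℝ) < 2 ^ u := by positivity
      have hMd : (s : ℝ) / ρ * d ≤ 2 ^ u := by
        calc (s : ℝ) / ρ * d ≤ M * d := mul_le_mul_of_nonneg_right hMge (by positivity)
          _ ≤ 2 ^ u := by exact_mod_cast hu2
      have had : (a : ℝ) ≤ d := by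
        rw [haR]
        have : (1 : ℝ) ≤ u := by exact_mod_cast hupos
        linarith
      have h1 : (s : ℝ) * a ≤ ρ * 2 ^ u := by
        have h2 : (s : ℝ) * d ≤ ρ * 2 ^ u := by
          calc (s : ℝ) * d = ρ * ((s : ℝ) / ρ * d) := by field_simp
            _ ≤ ρ * 2 ^ u := mul_le_mul_of_nonneg_left hMd hρ0.le
        exact le_trans (mul_le_mul_of_nonneg_left had (by positivity)) h2
      have ha2 : (1 - ρ) * d ≤ a := by rw [haR]; nlinarith
      have hk2 : (2 : ℝ) ≤ 2 ^ u * d * (δ / 8 * Real.log k) := by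
        have h3 : 2 ≤ δ / 8 * Real.log k := by
          rw [div_le_iff₀ hδ] at hlk16
          nlinarith
        have h4 : (1 : ℝ) ≤ 2 ^ u * d := by
          have : (1 : ℝ) ≤ 2 ^ u := one_le_pow₀ (by norm_num)
          nlinarith
        nlinarith
      have key : (1 + ρ) * lam + δ / 8 ≤ (1 - ρ) * (s - γ) := by
        rw [hlam, hγ]
        nlinarith
      calc ((s : ℝ) * a + 2 ^ u) * Real.log N + 2
          ≤ ((1 + ρ) * 2 ^ u) * (lam * d * Real.log k) + 2 ^ u * d * (δ / 8 * Real.log k) := by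
            have h5 : ((s : ℝ) * a + 2 ^ u) * Real.log N ≤
                ((1 + ρ) * 2 ^ u) * (lam * d * Real.log k) :=
              mul_le_mul (by linarith) hlogNle hlogN0 (by positivity)
            linarith
        _ = 2 ^ u * d * Real.log k * ((1 + ρ) * lam + δ / 8) := by ring
        _ ≤ 2 ^ u * d * Real.log k * ((1 - ρ) * (s - γ)) :=
            mul_le_mul_of_nonneg_left key (by positivity)
        _ = ((1 - ρ) * d) * (2 ^ u * ((s - γ) * Real.log k)) := by ring
        _ ≤ a * (2 ^ u * ((s - γ) * Real.log k)) := by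
            refine mul_le_mul_of_nonneg_right ha2 ?_
            have : 0 ≤ (s : ℝ) - γ := by linarith
            positivity
        _ = a * 2 ^ u * ((s - γ) * Real.log k) := by ring
  refine ⟨N, hN1, ?_, hgood⟩
  have h3 : 1 ≤ δ / 2 * (d * Real.log k) := by
    have h4 : 16 ≤ Real.log k * δ := by rwa [div_le_iff₀ hδ] at hlk16
    nlinarith
  calc (s - δ) * d * Real.log k = lam * d * Real.log k - δ / 2 * (d * Real.log k) := by
        rw [hlam]; ring
    _ ≤ Real.log N := by linarith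

end Pool.Agent.H40.HT
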