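import Pool.Agent.H40.HT.Stm

/-!
# The colour of a set is invariant under maps which preserve the depths of the meets
-/

set_option autoImplicit false
set_option linter.unusedSectionVars false

namespace Pool.Agent.H40.HT

open Finset Pool.Agent.H40.HL

section Iso

variable {V D κ : Type} [DecidableEq V] [DecidableEq D] [DecidableEq κ] {m : ℕ}
  {U : UT V D m} {R : Finset V} {g : V → V}

theorem Iso_inj (h : ∀ x ∈ R, ∀ y ∈ R, x ≠ y → U.dl (g x) (g y) = U.dl x y) {x y : V}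
    (hx : x ∈ R) (hy : y ∈ R) (hxy : x ≠ y) : g x ≠ g y := by
  intro he
  have h1 := h x hx y hy hxy
  have h2 : U.dl (g x) (g y) = m := (U.eq_m _ _).2 he
  rw [h2] at h1
  exact hxy ((U.eq_m x y).1 h1.symm)

theorem Iso_ne {x y : V} (h : g x ≠ g y) : x ≠ y := fun he => h (he ▸ rfl)

theorem Iso_levels (h : ∀ x ∈ R, ∀ y ∈ R, x ≠ y → U.dl (g x) (g y) = U.dl x y) :
    levels U (R.image g) = levels U R := by
  unfold levels
  ext l
  simp only [Finset.mem_image, Finset.mem_offDiag]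
  constructor
  · rintro ⟨p, ⟨⟨x, hx, h1⟩, ⟨y, hy, h2⟩, h3⟩, h4⟩
    rw [← h1, ← h2] at h3 h4
    have hxy := Iso_ne h3
    exact ⟨(x, y), ⟨hx, hy, hxy⟩, by rw [← h4]; exact (h x hx y hy hxy).symm⟩
  · rintro ⟨p, ⟨hx, hy, hxy⟩, h4⟩
    exact ⟨(g p.1, g p.2), ⟨⟨p.1, hx, rfl⟩, ⟨p.2, hy, rfl⟩, Iso_inj h hx hy hxy⟩, by
      rw [← h4]
      exact h _ hx _ hy hxy⟩

theorem Iso_star (h : ∀ x ∈ R, ∀ y ∈ R, x ≠ y → U.dl (g x) (g y) = U.dl x y) :
    Star U (R.image g) ↔ Star U R := by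
  constructor
  · rintro ⟨l, hl⟩
    refine ⟨l, fun x hx y hy hxy => ?_⟩
    rw [← h x hx y hy hxy]
    exact hl _ (Finset.mem_image_of_mem g hx) _ (Finset.mem_image_of_mem g hy)
      (Iso_inj h hx hy hxy)
  · rintro ⟨l, hl⟩
    refine ⟨l, fun a ha b hb hab => ?_⟩
    obtain ⟨x, hx, rfl⟩ := Finset.mem_image.1 ha
    obtain ⟨y, hy, rfl⟩ := Finset.mem_image.1 hb
    rw [h x hx y hy (Iso_ne hab)]
    exact hl x hx y hy (Iso_ne hab)

theorem Iso_top (h : ∀ x ∈ R, ∀ y ∈ R, x ≠ y → U.dl (g x) (g y) = U.dl x y) :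
    Top U (R.image g) ↔ Top U R := by
  constructor
  · rintro ⟨a, ha, hl⟩
    obtain ⟨x, hx, rfl⟩ := Finset.mem_image.1 ha
    refine ⟨x, hx, fun y hy z hz hyx hzx hyz => ?_⟩
    have h1 := hl _ (Finset.mem_image_of_mem g hy) _ (Finset.mem_image_of_mem g hz)
      (Iso_inj h hy hx hyx) (Iso_inj h hz hx hzx) (Iso_inj h hy hz hyz)
    rwa [h x hx y hy hyx.symm, h y hy z hz hyz] at h1
  · rintro ⟨x, hx, hl⟩
    refine ⟨g x, Finset.mem_image_of_mem g hx, fun a ha b hb h1 h2 h3 => ?_⟩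
    obtain ⟨y, hy, rfl⟩ := Finset.mem_image.1 ha
    obtain ⟨z, hz, rfl⟩ := Finset.mem_image.1 hb
    have h1' := Iso_ne h1
    have h2' := Iso_ne h2
    have h3' := Iso_ne h3
    rw [h x hx y hy h1'.symm, h y hy z hz h3']
    exact hl y hy z hz h1' h2' h3'

theorem Iso_nc (h : ∀ x ∈ R, ∀ y ∈ R, x ≠ y → U.dl (g x) (g y) = U.dl x y) :
    NC U (R.image g) ↔ NC U R := by
  -- all pairs
  have h' : ∀ x ∈ R, ∀ y ∈ R, U.dl (g x) (g y) = U.dl x y := by
    intro x hx y hy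
    by_cases hxy : x = y
    · rw [hxy, (U.eq_m y y).2 rfl, (U.eq_m (g y) (g y)).2 rfl]
    · exact h x hx y hy hxy
  constructor
  · rintro (⟨a, ha, b, hb, c, hc, h1, h2, h3, h4, h5⟩ |
      ⟨a, ha, b, hb, c, hc, d, hd, h1, h2, h3, h4⟩)
    · obtain ⟨x, hx, rfl⟩ := Finset.mem_image.1 ha
      obtain ⟨y, hy, rfl⟩ := Finset.mem_image.1 hb
      obtain ⟨z, hz, rfl⟩ := Finset.mem_image.1 hc
      rw [h' x hx y hy, h' y hy z hz] at h4
      rw [h' x hx y hy, h' x hx z hz] at h5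
      exact Or.inl ⟨x, hx, y, hy, z, hz, Iso_ne h1, Iso_ne h2, Iso_ne h3, h4, h5⟩
    · obtain ⟨x, hx, rfl⟩ := Finset.mem_image.1 ha
      obtain ⟨y, hy, rfl⟩ := Finset.mem_image.1 hb
      obtain ⟨z, hz, rfl⟩ := Finset.mem_image.1 hc
      obtain ⟨w, hw, rfl⟩ := Finset.mem_image.1 hd
      rw [h' x hx z hz, h' x hx y hy] at h3
      rw [h' x hx z hz, h' z hz w hw] at h4
      exact Or.inr ⟨x, hx, y, hy, z, hz, w, hw, Iso_ne h1, Iso_ne h2, h3, h4⟩
  · rintro (⟨x, hx, y, hy, z, hz, h1, h2, h3, h4, h5⟩ |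
      ⟨x, hx, y, hy, z, hz, w, hw, h1, h2, h3, h4⟩)
    · refine Or.inl ⟨g x, Finset.mem_image_of_mem g hx, g y, Finset.mem_image_of_mem g hy, g z,
        Finset.mem_image_of_mem g hz, Iso_inj h hx hy h1, Iso_inj h hy hz h2, Iso_inj h hx hz h3,
        ?_, ?_⟩
      · rw [h' x hx y hy, h' y hy z hz]
        exact h4
      · rw [h' x hx y hy, h' x hx z hz]
        exact h5
    · refine Or.inr ⟨g x, Finset.mem_image_of_mem g hx, g y, Finset.mem_image_of_mem g hy, g z,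
        Finset.mem_image_of_mem g hz, g w, Finset.mem_image_of_mem g hw, Iso_inj h hx hy h1,
        Iso_inj h hz hw h2, ?_, ?_⟩
      · rw [h' x hx z hz, h' x hx y hy]
        exact h3
      · rw [h' x hx z hz, h' z hz w hw]
        exact h4

end Iso

theorem iso : St_iso := by
  intro V D κ _ _ _ m U χ φ z0 z1 R g h hR
  have hS : ¬ Star U (R.image g) := fun hs => hR ((Iso_star h).1 hs)
  unfold col
  rw [if_neg hS, if_neg hR]
  by_cases hT : Top U R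
  · rw [if_pos hT, if_pos ((Iso_top h).2 hT)]
    by_cases hN : NC U R
    · rw [if_pos hN, if_pos ((Iso_nc h).2 hN)]
    · rw [if_neg hN, if_neg (fun hn => hN ((Iso_nc h).1 hn)), Iso_levels h]
  · rw [if_neg hT, if_neg (fun ht => hT ((Iso_top h).1 ht))]

end Pool.Agent.H40.HT
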