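import Pool.Agent.H40.HT.Stm

/-!
# The Littlestone dimension of the tree colouring
-/

namespace Pool.Agent.H40.HT

open Finset Pool.Agent.H40.HL

theorem LDim_treeE_mono {D κ : Type} [DecidableEq D] [DecidableEq κ] {s : ℕ} {χ : Finset D → κ}
    {c0 c1 : κ} {t : ℕ} {S T : Finset D} (h : S ⊆ T) (hS : TreeE s χ c0 c1 t S) :
    TreeE s χ c0 c1 t T := by
  induction t generalizing S T with
  | zero => exact Finset.Nonempty.mono h hS
  | succ t ih =>
    obtain ⟨e, he, h1, h2⟩ := hS
    exact ⟨e, he, ih (part_mono χ h e c1) h1,
      ih (Finset.union_subset_union (part_mono χ h e c0) (Finset.inter_subset_inter_right h)) h2⟩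

theorem LDim_two {V D κ : Type} [DecidableEq V] [DecidableEq D] [DecidableEq κ] {m : ℕ}
    (U : UT V D m) (c : Finset V → κ) (s M h l : ℕ) (hl : l + 1 = m - h) (hlm : l < m)
    (hc2 : ∀ z z' : V, ∀ S : Finset V, (∀ v ∈ S, m - h ≤ U.dl v z ∨ m - h ≤ U.dl v z') →
      ¬ Tree s c M S) (z : V) (u u' : D) (S : Finset V) (hS : ∀ v ∈ S, l ≤ U.dl v z)
    (hd : ∀ v ∈ S, U.dg v l = u ∨ U.dg v l = u') : ¬ Tree s c M S := by
  classical
  have hrep : ∀ w : D, ∃ r : V, ∀ v ∈ S, U.dg v l = w → m - h ≤ U.dl v r := by
    intro w
    by_cases hw : ∃ r ∈ S, U.dg r l = w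
    · obtain ⟨r, hr, hrw⟩ := hw
      refine ⟨r, fun v hv hvw => ?_⟩
      have h1 : l ≤ U.dl v r := by
        have := U.ultra v z r
        rw [U.comm z r] at this
        exact le_trans (le_min (hS v hv) (hS r hr)) this
      have h2 := (U.dg_iff v r l hlm h1).1 (hvw.trans hrw.symm)
      omega
    · refine ⟨z, fun v hv hvw => absurd ⟨v, hv, hvw⟩ hw⟩
  obtain ⟨r, hr⟩ := hrep u
  obtain ⟨r', hr'⟩ := hrep u'
  refine hc2 r r' S (fun v hv => ?_)
  rcases hd v hv with h1 | h1
  · exact Or.inl (hr v hv h1)
  · exact Or.inr (hr' v hv h1)

theorem ldim (h1 : St_sl1) (h1s : St_sl1s) (h2 : St_sl2) : St_ldim := by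
  classical
  intro V D κ _ _ _ _ _ m U χ φ z0 z1 s d0 hs hz hχ hE hT
  set c := col U χ φ z0 z1 with hcdef
  have main : ∀ h : ℕ, h ≤ m →
      (∀ z : V, ∀ S : Finset V, (∀ v ∈ S, m - h ≤ U.dl v z) → ¬ Tree s c (h * (d0 + 2) + 1) S) ∧
      (∀ z z' : V, ∀ S : Finset V, (∀ v ∈ S, m - h ≤ U.dl v z ∨ m - h ≤ U.dl v z') →
        ¬ Tree s c (h * (d0 + 2) + 2) S) := by
    intro h
    induction h with
    | zero =>
      intro _
      constructor
      · intro z S hS hT'
        have h3 := hT'.two_pow_le
        have h4 : S ⊆ {z} := by
          intro v hv
          have h5 := hS v hv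
          have h6 := U.le_m v z
          exact Finset.mem_singleton.2 ((U.eq_m v z).1 (by omega))
        have h5 := Finset.card_le_card h4
        rw [Finset.card_singleton] at h5
        simp at h3
        omega
      · intro z z' S hS hT'
        have h3 := hT'.two_pow_le
        have h4 : S ⊆ {z, z'} := by
          intro v hv
          rw [Finset.mem_insert, Finset.mem_singleton]
          rcases hS v hv with h5 | h5
          · have h6 := U.le_m v z
            exact Or.inl ((U.eq_m v z).1 (by omega))
          · have h6 := U.le_m v z'
            exact Or.inr ((U.eq_m v z').1 (by omega))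
        have h5 := Finset.card_le_card h4
        have h6 : ({z, z'} : Finset V).card ≤ 2 := Finset.card_le_two
        simp at h3
        omega
    | succ h ih =>
      intro hm
      obtain ⟨ih1, ih2⟩ := ih (by omega)
      set l : ℕ := m - (h + 1) with hl
      have hl1 : l + 1 = m - h := by omega
      have hlm : l < m := by omega
      have key : ∀ z : V, ∀ j : ℕ, ∀ S : Finset V, (∀ v ∈ S, l ≤ U.dl v z) →
          Tree s c (h * (d0 + 2) + 2 + j) S →
          TreeE s χ z1 z0 j (S.image (fun x => U.dg x l)) := by
        intro z j
        induction j with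
        | zero =>
          intro S _ hT'
          exact hT'.nonempty.image _
        | succ j ihj =>
          intro S hS hT'
          obtain ⟨e, he, a, b, hab, ha, hb⟩ := hT'
          by_cases hst : (∀ x ∈ e, l ≤ U.dl x z) ∧ ∀ x ∈ e, ∀ y ∈ e, x ≠ y → U.dl x y = l
          · obtain ⟨hcard, hcol⟩ := h1s V D κ m U χ φ z0 z1 s e z l hs he hlm hst.1 hst.2
            have hval : ∀ a' : κ, Tree s c (h * (d0 + 2) + 2 + j) (part c S e a') →
                a' = z0 ∨ a' = z1 := by
              intro a' hT'
              obtain ⟨v, hv⟩ := hT'.nonempty
              simp only [part, Finset.mem_filter] at hv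
              obtain ⟨hvS, hve, hva⟩ := hv
              obtain ⟨q1, q2⟩ := hcol v (hS v hvS) hve
              by_cases hin : U.dg v l ∈ e.image (fun x => U.dg x l)
              · right; rw [← hva]; exact q2 hin
              · have q3 := q1 hin
                rcases hχ (insert (U.dg v l) (e.image (fun x => U.dg x l))) with h5 | h5
                · right; rw [← hva]; exact q3.trans h5
                · left; rw [← hva]; exact q3.trans h5
            have hs0 : (part c S e z0).image (fun x => U.dg x l) ⊆
                part χ (S.image (fun x => U.dg x l)) (e.image (fun x => U.dg x l)) z0 := by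
              intro y hy
              rw [Finset.mem_image] at hy
              obtain ⟨v, hv, rfl⟩ := hy
              simp only [part, Finset.mem_filter] at hv
              obtain ⟨hvS, hve, hva⟩ := hv
              obtain ⟨q1, q2⟩ := hcol v (hS v hvS) hve
              simp only [part, Finset.mem_filter]
              have hnin : U.dg v l ∉ e.image (fun x => U.dg x l) := by
                intro hin
                exact hz (hva.symm.trans (q2 hin))
              exact ⟨Finset.mem_image_of_mem _ hvS, hnin, (q1 hnin).symm.trans hva⟩
            have hs1 : (part c S e z1).image (fun x => U.dg x l) ⊆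
                part χ (S.image (fun x => U.dg x l)) (e.image (fun x => U.dg x l)) z1 ∪
                  ((S.image (fun x => U.dg x l)) ∩ (e.image (fun x => U.dg x l))) := by
              intro y hy
              rw [Finset.mem_image] at hy
              obtain ⟨v, hv, rfl⟩ := hy
              simp only [part, Finset.mem_filter] at hv
              obtain ⟨hvS, hve, hva⟩ := hv
              obtain ⟨q1, q2⟩ := hcol v (hS v hvS) hve
              rw [Finset.mem_union]
              by_cases hin : U.dg v l ∈ e.image (fun x => U.dg x l)
              · right
                exact Finset.mem_inter.2 ⟨Finset.mem_image_of_mem _ hvS, hin⟩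
              · left
                simp only [part, Finset.mem_filter]
                exact ⟨Finset.mem_image_of_mem _ hvS, hin, (q1 hin).symm.trans hva⟩
            have hsub : ∀ a' : κ, ∀ v ∈ part c S e a', l ≤ U.dl v z := fun a' v hv =>
              hS v (part_subset c S e a' hv)
            have r0 : TreeE s χ z1 z0 (j + 1) (S.image (fun x => U.dg x l)) := by
              have both : Tree s c (h * (d0 + 2) + 2 + j) (part c S e z0) ∧
                  Tree s c (h * (d0 + 2) + 2 + j) (part c S e z1) := by
                rcases hval a ha with rfl | rfl <;> rcases hval b hb with rfl | rfl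
                · exact absurd rfl hab
                · exact ⟨ha, hb⟩
                · exact ⟨hb, ha⟩
                · exact absurd rfl hab
              exact ⟨e.image (fun x => U.dg x l), hcard,
                LDim_treeE_mono hs0 (ihj _ (hsub z0) both.1),
                LDim_treeE_mono hs1 (ihj _ (hsub z1) both.2)⟩
            exact r0
          · exfalso
            obtain ⟨c0, u, u', hc0⟩ := h1 V D κ m U χ φ z0 z1 s e z l hs he hlm hst
            have hno : ∀ a' : κ, a' ≠ c0 → ¬ Tree s c (h * (d0 + 2) + 2 + j) (part c S e a') := by
              intro a' ha' hT'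
              refine LDim_two U c s (h * (d0 + 2) + 2) h l hl1 hlm ih2 z u u' (part c S e a') ?_ ?_
                (hT'.anti (by omega))
              · exact fun v hv => hS v (part_subset c S e a' hv)
              · intro v hv
                simp only [part, Finset.mem_filter] at hv
                obtain ⟨hvS, hve, hva⟩ := hv
                exact hc0 v (hS v hvS) hve (by rw [← hcdef, hva]; exact ha')
            by_cases hac : a = c0
            · exact hno b (fun hb' => hab (hac.trans hb'.symm)) hb
            · exact hno a hac ha
      have c1 : ∀ z : V, ∀ S : Finset V, (∀ v ∈ S, l ≤ U.dl v z) →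
          ¬ Tree s c ((h + 1) * (d0 + 2) + 1) S := by
        intro z S hS hT'
        have e1 : (h + 1) * (d0 + 2) + 1 = h * (d0 + 2) + 2 + (d0 + 1) := by ring
        rw [e1] at hT'
        exact hE (LDim_treeE_mono (Finset.subset_univ _) (key z (d0 + 1) S hS hT'))
      refine ⟨c1, ?_⟩
      intro z z' S hS hT'
      have e2 : (h + 1) * (d0 + 2) + 2 = ((h + 1) * (d0 + 2) + 1) + 1 := by ring
      rw [e2] at hT'
      by_cases hzz : l ≤ U.dl z z'
      · refine c1 z S (fun v hv => ?_) hT'.pred
        rcases hS v hv with h3 | h3
        · exact h3
        · have := U.ultra v z' z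
          rw [U.comm z' z] at this
          exact le_trans (le_min h3 hzz) this
      · push Not at hzz
        obtain ⟨e, he, a, b, hab, ha, hb⟩ := hT'
        rcases h2 V D κ m U χ φ z0 z1 e z z' l (by omega) hzz with h3 | h3 | h3
        · -- constant on the first node
          have : (∀ v ∈ part c S e a, l ≤ U.dl v z') ∨ (∀ v ∈ part c S e b, l ≤ U.dl v z') := by
            by_contra hcon
            push Not at hcon
            obtain ⟨⟨v, hv, hvz⟩, ⟨w, hw, hwz⟩⟩ := hcon
            simp only [part, Finset.mem_filter] at hv hw
            have q1 : l ≤ U.dl v z := by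
              rcases hS v hv.1 with h4 | h4
              · exact h4
              · omega
            have q2 : l ≤ U.dl w z := by
              rcases hS w hw.1 with h4 | h4
              · exact h4
              · omega
            have q3 := h3 v w q1 hv.2.1 q2 hw.2.1
            rw [← hcdef, hv.2.2, hw.2.2] at q3
            exact hab q3
          rcases this with h4 | h4
          · exact c1 z' _ h4 ha
          · exact c1 z' _ h4 hb
        · have : (∀ v ∈ part c S e a, l ≤ U.dl v z) ∨ (∀ v ∈ part c S e b, l ≤ U.dl v z) := by
            by_contra hcon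
            push Not at hcon
            obtain ⟨⟨v, hv, hvz⟩, ⟨w, hw, hwz⟩⟩ := hcon
            simp only [part, Finset.mem_filter] at hv hw
            have q1 : l ≤ U.dl v z' := by
              rcases hS v hv.1 with h4 | h4
              · omega
              · exact h4
            have q2 : l ≤ U.dl w z' := by
              rcases hS w hw.1 with h4 | h4
              · omega
              · exact h4
            have q3 := h3 v w q1 hv.2.1 q2 hw.2.1
            rw [← hcdef, hv.2.2, hw.2.2] at q3
            exact hab q3
          rcases this with h4 | h4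
          · exact c1 z _ h4 ha
          · exact c1 z _ h4 hb
        · obtain ⟨c0, x, x', _, _, h5, h6⟩ := h3
          have hno : ∀ a' : κ, a' ≠ c0 →
              ¬ Tree s c ((h + 1) * (d0 + 2) + 1) (part c S e a') := by
            intro a' ha' hT'
            refine ih2 x x' (part c S e a') (fun v hv => ?_) (hT'.anti (by ring_nf; omega))
            simp only [part, Finset.mem_filter] at hv
            rcases hS v hv.1 with h7 | h7
            · left
              have := h5 v h7 hv.2.1 (by rw [← hcdef, hv.2.2]; exact ha')
              omega
            · right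
              have := h6 v h7 hv.2.1 (by rw [← hcdef, hv.2.2]; exact ha')
              omega
          by_cases hac : a = c0
          · exact hno b (fun hb' => hab (hac.trans hb'.symm)) hb
          · exact hno a hac ha
  obtain ⟨z, _⟩ := hT.nonempty
  exact (main m le_rfl).1 z Finset.univ (fun v _ => by omega) hT

end Pool.Agent.H40.HT
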