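import Pool.Agent.H40.HT.Stm

namespace Pool.Agent.H40.HT

open Finset Pool.Agent.H40.HL

theorem Near_image {V : Type} [DecidableEq V] (e : Finset V) (v v' : V) (hv : v ∉ e) :
    (insert v e).image (fun x => if x = v then v' else x) = insert v' e := by
  rw [Finset.image_insert, if_pos rfl]
  congr 1
  ext y
  simp only [Finset.mem_image]
  constructor
  · rintro ⟨x, hx, hxy⟩
    have hxv : x ≠ v := fun h => hv (h ▸ hx)
    rw [if_neg hxv] at hxy
    exact hxy ▸ hx
  · intro hy
    have hyv : y ≠ v := fun h => hv (h ▸ hy)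
    exact ⟨y, hy, if_neg hyv⟩

theorem Near_same (hiso : St_iso) : St_same := by
  intro V D κ _ _ _ m U χ φ z0 z1 e v v' hv hv' hd hs
  have h := hiso V D κ m U χ φ z0 z1 (insert v e) (fun x => if x = v then v' else x) (by
    intro x hx y hy hxy
    rcases Finset.mem_insert.mp hx with rfl | hx1
    · rcases Finset.mem_insert.mp hy with rfl | hy1
      · exact absurd rfl hxy
      · simp only [if_true, if_neg (Ne.symm hxy)]
        exact (hd y hy1).symm
    · have hxv : x ≠ v := fun h => hv (h ▸ hx1)
      rcases Finset.mem_insert.mp hy with rfl | hy1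
      · simp only [if_true, if_neg hxy]
        rw [U.comm x v', U.comm x y]
        exact (hd x hx1).symm
      · have hyv : y ≠ v := fun h => hv (h ▸ hy1)
        simp only [if_neg hxv, if_neg hyv]) hs
  rw [Near_image e v v' hv] at h
  exact h.symm

theorem Near_levels {V D : Type} [DecidableEq V] [DecidableEq D] {m : ℕ} (U : UT V D m)
    (R : Finset V) (l : ℕ) (hl : ∀ x ∈ R, ∀ y ∈ R, x ≠ y → U.dl x y = l) (a b : V) (ha : a ∈ R)
    (hb : b ∈ R) (hab : a ≠ b) : (levels U R).sup id = l := by
  have h : levels U R = {l} := by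
    ext j
    simp only [levels, Finset.mem_image, Finset.mem_offDiag, Finset.mem_singleton]
    constructor
    · rintro ⟨p, ⟨h1, h2, h3⟩, h4⟩
      rw [← h4]
      exact hl _ h1 _ h2 h3
    · rintro rfl
      exact ⟨(a, b), ⟨ha, hb, hab⟩, hl a ha b hb hab⟩
  rw [h]
  simp

theorem near (hiso : St_iso) : St_near := by
  intro V D κ _ _ _ m U χ φ z0 z1 e v v' hne hv hv' hd hlt
  by_cases hs : Star U (insert v e)
  · obtain ⟨x0, hx0⟩ := hne
    obtain ⟨l, hl⟩ := hs
    have hvx : v ≠ x0 := fun h => hv (h ▸ hx0)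
    have hvx' : v' ≠ x0 := fun h => hv' (h ▸ hx0)
    have h0 : U.dl v x0 = l :=
      hl v (Finset.mem_insert_self _ _) x0 (Finset.mem_insert_of_mem hx0) hvx
    have hl' : ∀ x ∈ insert v' e, ∀ y ∈ insert v' e, x ≠ y → U.dl x y = l := by
      intro x hx y hy hxy
      rcases Finset.mem_insert.mp hx with rfl | hx1
      · rcases Finset.mem_insert.mp hy with rfl | hy1
        · exact absurd rfl hxy
        · rw [← hd y hy1]
          exact hl v (Finset.mem_insert_self _ _) y (Finset.mem_insert_of_mem hy1)
            (fun h => hv (h ▸ hy1))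
      · rcases Finset.mem_insert.mp hy with rfl | hy1
        · rw [U.comm, ← hd x hx1]
          exact hl v (Finset.mem_insert_self _ _) x (Finset.mem_insert_of_mem hx1)
            (fun h => hv (h ▸ hx1))
        · exact hl x (Finset.mem_insert_of_mem hx1) y (Finset.mem_insert_of_mem hy1) hxy
    have hs1 : Star U (insert v e) := ⟨l, hl⟩
    have hs2 : Star U (insert v' e) := ⟨l, hl'⟩
    unfold col
    rw [if_pos hs1, if_pos hs2]
    rw [Near_levels U _ l hl v x0 (Finset.mem_insert_self _ _) (Finset.mem_insert_of_mem hx0) hvx,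
      Near_levels U _ l hl' v' x0 (Finset.mem_insert_self _ _) (Finset.mem_insert_of_mem hx0) hvx']
    rw [Finset.image_insert, Finset.image_insert]
    have h1 : l < U.dl v v' := h0 ▸ hlt x0 hx0
    have h2 : l < m := lt_of_lt_of_le h1 (U.le_m v v')
    rw [(U.dg_iff v v' l h2 h1.le).mpr h1]
  · exact Near_same hiso V D κ m U χ φ z0 z1 e v v' hv hv' hd hs

end Pool.Agent.H40.HT
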