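import Pool.Agent.H40.HT.Stm

/-!
# The star case
-/

set_option autoImplicit false

namespace Pool.Agent.H40.HT

open Finset Pool.Agent.H40.HL

theorem SL1S_ex {V : Type} [DecidableEq V] {e : Finset V} (h : 4 ≤ e.card) (t : V) :
    ∃ y ∈ e, ∃ y' ∈ e, y ≠ t ∧ y' ≠ t ∧ y ≠ y' := by
  have h1 : 1 < (e.erase t).card := by
    have := Finset.pred_card_le_card_erase (s := e) (a := t)
    omega
  obtain ⟨y, hy, y', hy', hne⟩ := Finset.one_lt_card.1 h1
  rw [mem_erase] at hy hy'
  exact ⟨y, hy.2, y', hy'.2, hy.1, hy'.1, hne⟩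

theorem sl1s : St_sl1s := by
  intro V D κ _ _ _ m U χ φ z0 z1 s e z l hs hcard hl hsub hd
  have hinj : Set.InjOn (fun x => U.dg x l) ↑e := by
    intro x hx y hy hxy
    by_contra hne
    have h1 := hd x hx y hy hne
    have h2 := (U.dg_iff x y l hl h1.ge).1 hxy
    omega
  refine ⟨by rw [card_image_of_injOn hinj, hcard], ?_⟩
  intro v hv hve
  have hle : ∀ x ∈ e, l ≤ U.dl v x := by
    intro x hx
    have h1 := U.ultra v z x
    have h2 := hsub x hx
    rw [U.comm x z] at h2
    exact (le_min hv h2).trans h1
  have hvne : ∀ x ∈ e, v ≠ x := fun x hx h => hve (h ▸ hx)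
  constructor
  · intro hnew
    have hvx : ∀ x ∈ e, U.dl v x = l := by
      intro x hx
      by_contra hne
      have h1 := hle x hx
      have h2 : l < U.dl v x := lt_of_le_of_ne h1 (Ne.symm hne)
      apply hnew
      rw [mem_image]
      exact ⟨x, hx, ((U.dg_iff v x l hl h1).2 h2).symm⟩
    have hstar : ∀ x ∈ insert v e, ∀ y ∈ insert v e, x ≠ y → U.dl x y = l := by
      intro x hx y hy hne
      rw [mem_insert] at hx hy
      rcases hx with hx | hx
      · rcases hy with hy | hy
        · exact absurd (hx.trans hy.symm) hne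
        · rw [hx]
          exact hvx y hy
      · rcases hy with hy | hy
        · rw [hy, U.comm]
          exact hvx x hx
        · exact hd x hx y hy hne
    have hlev : levels U (insert v e) = {l} := by
      unfold levels
      ext k
      rw [mem_image, mem_singleton]
      constructor
      · rintro ⟨p, hp, rfl⟩
        rw [mem_offDiag] at hp
        exact hstar p.1 hp.1 p.2 hp.2.1 hp.2.2
      · intro hk
        obtain ⟨x, hx⟩ : e.Nonempty := card_pos.1 (by omega)
        refine ⟨(v, x), ?_, ?_⟩
        · rw [mem_offDiag]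
          exact ⟨mem_insert_self _ _, mem_insert_of_mem hx, hvne x hx⟩
        · rw [hk]
          exact hvx x hx
    unfold col
    rw [if_pos ⟨l, hstar⟩, hlev, sup_singleton, image_insert]
    rfl
  · intro hold
    obtain ⟨x, hx, hxd⟩ := mem_image.1 hold
    have hlt : l < U.dl v x := (U.dg_iff v x l hl (hle x hx)).1 hxd.symm
    have hns : ¬ Star U (insert v e) := by
      rintro ⟨l', hl'⟩
      obtain ⟨y, hy, -, -, hyx, -, -⟩ := SL1S_ex (e := e) (by omega) x
      have h1 := hl' v (mem_insert_self _ _) x (mem_insert_of_mem hx) (hvne x hx)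
      have h2 := hl' x (mem_insert_of_mem hx) y (mem_insert_of_mem hy) hyx.symm
      have h3 := hd x hx y hy hyx.symm
      omega
    have hnt : ¬ Top U (insert v e) := by
      rintro ⟨t, ht, htt⟩
      obtain ⟨y, hy, y', hy', hyt, hyt', hyy⟩ := SL1S_ex (e := e) (by omega) t
      have h1 := htt y (mem_insert_of_mem hy) y' (mem_insert_of_mem hy') hyt hyt' hyy
      have h2 := hd y hy y' hy' hyy
      rw [mem_insert] at ht
      rcases ht with ht | ht
      · rw [ht] at h1
        have h3 := hle y hy
        omega
      · have h3 := hd t ht y hy hyt.symm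
        omega
    unfold col
    rw [if_neg hns, if_neg hnt]

end Pool.Agent.H40.HT
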