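import Pool.Agent.H40.HT.Stm

/-!
# SL2 (project HT of helper40)
-/

namespace Pool.Agent.H40.HT

open Finset Pool.Agent.H40.HL

section
variable {V D κ : Type} [DecidableEq V] [DecidableEq D] [DecidableEq κ] {m : ℕ}

/-- The ultrametric inequality for the three sides, with all symmetric versions. -/
theorem SL2_tri (U : UT V D m) (a b c : V) :
    (min (U.dl a b) (U.dl b c) ≤ U.dl a c ∧ min (U.dl a b) (U.dl a c) ≤ U.dl b c ∧
      min (U.dl a c) (U.dl b c) ≤ U.dl a b) ∧
    U.dl a b = U.dl b a ∧ U.dl b c = U.dl c b ∧ U.dl a c = U.dl c a := by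
  have h1 := U.ultra a b c
  have h2 := U.ultra b a c
  have h3 := U.ultra a c b
  have c1 := U.comm a b
  have c2 := U.comm b c
  have c3 := U.comm a c
  refine ⟨⟨h1, ?_, ?_⟩, c1, c2, c3⟩ <;> omega

/-- Case 0: no element of `e` in the node. -/
theorem SL2_case0 (hnear : St_near) (U : UT V D m) (χ : Finset D → κ) (φ : Finset ℕ → κ)
    (z0 z1 : κ) (e : Finset V) (z : V) (l : ℕ) (he : e.Nonempty) (h : ∀ x ∈ e, U.dl x z < l) :
    ∀ v v', l ≤ U.dl v z → v ∉ e → l ≤ U.dl v' z → v' ∉ e →
    col U χ φ z0 z1 (insert v e) = col U χ φ z0 z1 (insert v' e) := by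
  intro v v' hv hve hv' hve'
  apply hnear V D κ m U χ φ z0 z1 e v v' he hve hve'
  · intro x hx
    have h1 := h x hx
    have t1 := SL2_tri U v z x
    have t2 := SL2_tri U v' z x
    omega
  · intro x hx
    have h1 := h x hx
    have t1 := SL2_tri U v z x
    have t2 := SL2_tri U v' z x
    have t3 := SL2_tri U v z v'
    omega

/-- Part (c), one node. -/
theorem SL2_c (hsame : St_same) (U : UT V D m) (χ : Finset D → κ) (φ : Finset ℕ → κ)
    (z0 z1 : κ) (e : Finset V) (x x' : V) (l : ℕ) (hx : x ∈ e) (hx' : x' ∈ e)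
    (hj : U.dl x x' < l) (hb : ∀ y ∈ e, y ≠ x → y ≠ x' → U.dl y x < U.dl x x')
    (v w : V) (hve : v ∉ e) (hwe : w ∉ e) (hv : U.dl v x = l) (hw : U.dl w x = l) :
    col U χ φ z0 z1 (insert v e) = col U χ φ z0 z1 (insert w e) := by
  apply hsame V D κ m U χ φ z0 z1 e v w hve hwe
  · intro y hy
    by_cases h1 : y = x
    · rw [h1, hv, hw]
    · by_cases h2 : y = x'
      · subst h2
        have t1 := SL2_tri U v x y
        have t2 := SL2_tri U w x y
        omega
      · have h3 := hb y hy h1 h2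
        have t1 := SL2_tri U v x y
        have t2 := SL2_tri U w x y
        omega
  · rintro ⟨l0, hl0⟩
    have hvx : v ≠ x := fun h => hve (h ▸ hx)
    have h1 := hl0 v (Finset.mem_insert_self _ _) x (Finset.mem_insert_of_mem hx) hvx
    have hxx : x ≠ x' := by
      intro h
      subst h
      have h2 := (U.eq_m x x).2 rfl
      have h3 := U.le_m v x
      omega
    have h2 := hl0 x (Finset.mem_insert_of_mem hx) x' (Finset.mem_insert_of_mem hx') hxx
    omega

/-- Part (c), the two nodes. -/
theorem SL2_cross (hiso : St_iso) (U : UT V D m) (χ : Finset D → κ) (φ : Finset ℕ → κ)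
    (z0 z1 : κ) (e : Finset V) (x x' : V) (l : ℕ) (hx : x ∈ e) (hx' : x' ∈ e)
    (hj : U.dl x x' < l) (hb : ∀ y ∈ e, y ≠ x → y ≠ x' → U.dl y x < U.dl x x')
    (v v' : V) (hve : v ∉ e) (hve' : v' ∉ e) (hv : U.dl v x = l) (hv' : U.dl v' x' = l) :
    col U χ φ z0 z1 (insert v e) = col U χ φ z0 z1 (insert v' e) := by
  have hvx : v ≠ x := fun h => hve (h ▸ hx)
  have hvx' : v ≠ x' := fun h => hve (h ▸ hx')
  have hxx : x ≠ x' := by
    intro h
    subst h
    have h2 := (U.eq_m x x).2 rfl
    have h3 := U.le_m v x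
    omega
  have hstar : ¬ Star U (insert v e) := by
    rintro ⟨l0, hl0⟩
    have h1 := hl0 v (Finset.mem_insert_self _ _) x (Finset.mem_insert_of_mem hx) hvx
    have h2 := hl0 x (Finset.mem_insert_of_mem hx) x' (Finset.mem_insert_of_mem hx') hxx
    omega
  let g : V → V := fun a => if a = v then v' else if a = x then x' else if a = x' then x else a
  have gv : g v = v' := by simp [g]
  have gx : g x = x' := by simp [g, hvx.symm]
  have gx' : g x' = x := by simp [g, hvx'.symm, hxx.symm]
  have go : ∀ y ∈ e, y ≠ x → y ≠ x' → g y = y := by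
    intro y hy h1 h2
    have h3 : y ≠ v := fun h => hve (h ▸ hy)
    simp [g, h1, h2, h3]
  have himg : (insert v e).image g = insert v' e := by
    ext b
    simp only [Finset.mem_image, Finset.mem_insert]
    constructor
    · rintro ⟨a, ha, rfl⟩
      rcases ha with rfl | ha
      · left; exact gv
      · right
        by_cases h1 : a = x
        · rw [h1, gx]; exact hx'
        · by_cases h2 : a = x'
          · rw [h2, gx']; exact hx
          · rw [go a ha h1 h2]; exact ha
    · rintro (rfl | hb)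
      · exact ⟨v, Or.inl rfl, gv⟩
      · by_cases h1 : b = x
        · exact ⟨x', Or.inr hx', by rw [gx', h1]⟩
        · by_cases h2 : b = x'
          · exact ⟨x, Or.inr hx, by rw [gx, h2]⟩
          · exact ⟨b, Or.inr hb, go b hb h1 h2⟩
  have hvx'd : U.dl v x' = U.dl x x' := by
    have t1 := SL2_tri U v x x'
    omega
  have hv'xd : U.dl v' x = U.dl x x' := by
    have t1 := SL2_tri U v' x' x
    omega
  -- distances to the other elements
  have hother : ∀ y ∈ e, y ≠ x → y ≠ x' → U.dl v y = U.dl x y ∧ U.dl x' y = U.dl x y ∧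
      U.dl v' y = U.dl x y := by
    intro y hy h1 h2
    have h3 := hb y hy h1 h2
    have t1 := SL2_tri U v x y
    have t2 := SL2_tri U x x' y
    have t3 := SL2_tri U v' x' y
    omega
  have hsym : ∀ a b : V, U.dl a b = U.dl b a := U.comm
  have key : ∀ b ∈ e, U.dl (g v) (g b) = U.dl v b := by
    intro b hbe
    by_cases h1 : b = x
    · rw [h1, gv, gx, hv, hv']
    · by_cases h2 : b = x'
      · rw [h2, gv, gx', hv'xd, hvx'd]
      · obtain ⟨o1, o2, o3⟩ := hother b hbe h1 h2
        rw [gv, go b hbe h1 h2, o1, o3]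
  have keyx : ∀ b ∈ e, b ≠ x → U.dl (g x) (g b) = U.dl x b := by
    intro b hbe h1
    by_cases h2 : b = x'
    · rw [h2, gx, gx', hsym]
    · obtain ⟨o1, o2, o3⟩ := hother b hbe h1 h2
      rw [gx, go b hbe h1 h2, o2]
  have keyx' : ∀ b ∈ e, b ≠ x' → U.dl (g x') (g b) = U.dl x' b := by
    intro b hbe h1
    by_cases h2 : b = x
    · rw [h2, gx, gx', hsym]
    · obtain ⟨o1, o2, o3⟩ := hother b hbe h2 h1
      rw [gx', go b hbe h2 h1, o2]
  have keyall : ∀ a ∈ e, ∀ b ∈ e, a ≠ b → U.dl (g a) (g b) = U.dl a b := by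
    intro a ha b hbe hab
    by_cases h1 : a = x
    · rw [h1]; exact keyx b hbe (fun h => hab (h1.trans h.symm))
    · by_cases h2 : a = x'
      · rw [h2]; exact keyx' b hbe (fun h => hab (h2.trans h.symm))
      · by_cases h3 : b = x
        · rw [h3, hsym, keyx a ha h1, hsym]
        · by_cases h4 : b = x'
          · rw [h4, hsym, keyx' a ha h2, hsym]
          · rw [go a ha h1 h2, go b hbe h3 h4]
  have hiso' := hiso V D κ m U χ φ z0 z1 (insert v e) g (by
    intro a ha b hb' hab
    rw [Finset.mem_insert] at ha hb'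
    rcases ha with rfl | ha
    · rcases hb' with rfl | hb'
      · exact absurd rfl hab
      · exact key b hb'
    · rcases hb' with rfl | hb'
      · rw [hsym, key a ha, hsym]
      · exact keyall a ha b hb' hab) hstar
  rw [himg] at hiso'
  exact hiso'.symm

end

theorem sl2 (hiso : St_iso) (hnear : St_near) (hsame : St_same) (hK : St_constK) : St_sl2 := by
  intro V D κ _ _ _ m U χ φ z0 z1 e z z' l he hzz
  have hne : e.Nonempty := Finset.card_pos.1 (by omega)
  by_cases h0 : ∀ x ∈ e, U.dl x z < l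
  · left
    exact SL2_case0 hnear U χ φ z0 z1 e z l hne h0
  by_cases h0' : ∀ x ∈ e, U.dl x z' < l
  · right; left
    exact SL2_case0 hnear U χ φ z0 z1 e z' l hne h0'
  push Not at h0 h0'
  obtain ⟨x, hxe, hx⟩ := h0
  obtain ⟨x', hxe', hx'⟩ := h0'
  have txz := SL2_tri U x z z'
  have tx'z := SL2_tri U x' z z'
  have txx := SL2_tri U x z' x'
  have txx2 := SL2_tri U x z x'
  have hjl : U.dl x x' < l := by omega
  by_cases h1 : ∀ v, l ≤ U.dl v z → v ∉ e → NC U (insert v e)
  · left
    exact hK V D κ m U χ φ z0 z1 e z x x' l hxe hx hxe' (by omega) h1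
  by_cases h1' : ∀ v, l ≤ U.dl v z' → v ∉ e → NC U (insert v e)
  · right; left
    exact hK V D κ m U χ φ z0 z1 e z' x' x l hxe' hx' hxe (by omega) h1'
  right; right
  push Not at h1 h1'
  obtain ⟨v1, hv1, hv1e, hv1n⟩ := h1
  obtain ⟨v1', hv1', hv1e', hv1n'⟩ := h1'
  have hxx : x ≠ x' := by
    intro h
    subst h
    have h2 := (U.eq_m x x).2 rfl
    have h3 := U.le_m x z
    omega
  have hxv1 : l ≤ U.dl x v1 := by
    have t := SL2_tri U x z v1
    omega
  have hxv1' : l ≤ U.dl x' v1' := by
    have t := SL2_tri U x' z' v1'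
    omega
  have hx'ne : x' ≠ v1' := fun h => hv1e' (h ▸ hxe')
  have hxne : x ≠ v1 := fun h => hv1e (h ▸ hxe)
  have hcomm := U.comm x x'
  have hb : ∀ y ∈ e, y ≠ x → y ≠ x' → U.dl y x < U.dl x x' := by
    intro y hy hyx hyx'
    by_contra hcon
    push Not at hcon
    have t := SL2_tri U y x x'
    by_cases g1 : U.dl x x' < U.dl x y
    · apply hv1n'
      right
      refine ⟨x, Finset.mem_insert_of_mem hxe, y, Finset.mem_insert_of_mem hy, x',
        Finset.mem_insert_of_mem hxe', v1', Finset.mem_insert_self _ _, hyx.symm, hx'ne, ?_, ?_⟩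
      · omega
      · omega
    · by_cases g2 : U.dl x x' < U.dl y x'
      · apply hv1n
        right
        refine ⟨x', Finset.mem_insert_of_mem hxe', y, Finset.mem_insert_of_mem hy, x,
          Finset.mem_insert_of_mem hxe, v1, Finset.mem_insert_self _ _, hyx'.symm, hxne, ?_, ?_⟩
        · omega
        · omega
      · apply hv1n
        left
        refine ⟨x, Finset.mem_insert_of_mem hxe, x', Finset.mem_insert_of_mem hxe', y,
          Finset.mem_insert_of_mem hy, hxx, hyx'.symm, hyx.symm, ?_, ?_⟩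
        · omega
        · omega
  have hb' : ∀ y ∈ e, y ≠ x' → y ≠ x → U.dl y x' < U.dl x' x := by
    intro y hy h2 h3
    have h4 := hb y hy h3 h2
    have t := SL2_tri U y x x'
    omega
  have hP : ∀ v, l ≤ U.dl v z → l ≤ U.dl v x := by
    intro v hv
    have t := SL2_tri U v z x
    omega
  have hP' : ∀ v, l ≤ U.dl v z' → l ≤ U.dl v x' := by
    intro v hv
    have t := SL2_tri U v z' x'
    omega
  by_cases A : ∃ v, v ∉ e ∧ U.dl v x = l
  · obtain ⟨v0, hv0e, hv0⟩ := A
    refine ⟨col U χ φ z0 z1 (insert v0 e), x, x', hx, hx', ?_, ?_⟩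
    · intro v hv hve hc
      by_contra hcon
      have h5 := hP v hv
      exact hc (SL2_c hsame U χ φ z0 z1 e x x' l hxe hxe' hjl hb v v0 hve hv0e (by omega) hv0)
    · intro v hv hve hc
      by_contra hcon
      have h5 := hP' v hv
      exact hc (SL2_cross hiso U χ φ z0 z1 e x x' l hxe hxe' hjl hb v0 v hv0e hve hv0
        (by omega)).symm
  · by_cases B : ∃ v, v ∉ e ∧ U.dl v x' = l
    · obtain ⟨v0, hv0e, hv0⟩ := B
      refine ⟨col U χ φ z0 z1 (insert v0 e), x, x', hx, hx', ?_, ?_⟩
      · intro v hv hve hc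
        by_contra hcon
        have h5 := hP v hv
        exact A ⟨v, hve, by omega⟩
      · intro v hv hve hc
        by_contra hcon
        have h5 := hP' v hv
        exact hc (SL2_c hsame U χ φ z0 z1 e x' x l hxe' hxe (by omega) hb' v v0 hve hv0e
          (by omega) hv0)
    · refine ⟨z1, x, x', hx, hx', ?_, ?_⟩
      · intro v hv hve hc
        by_contra hcon
        have h5 := hP v hv
        exact A ⟨v, hve, by omega⟩
      · intro v hv hve hc
        by_contra hcon
        have h5 := hP' v hv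
        exact B ⟨v, hve, by omega⟩

end Pool.Agent.H40.HT
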