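import Pool.Agent.H40.HT.Stm

namespace Pool.Agent.H40.HT

open Finset Pool.Agent.H40.HL

theorem Same_image {V : Type} [DecidableEq V] (e : Finset V) (v v' : V) (hv : v ∉ e) :
    (insert v e).image (fun x => if x = v then v' else x) = insert v' e := by
  rw [Finset.image_insert, if_pos rfl]
  congr 1
  ext y
  simp only [Finset.mem_image]
  constructor
  · rintro ⟨x, hx, hxy⟩
    have hxv : x ≠ v := fun h => hv (h ▸ hx)
    rw [if_neg hxv] at hxy
    exact hxy ▸ hx
  · intro hy
    have hyv : y ≠ v := fun h => hv (h ▸ hy)
    exact ⟨y, hy, if_neg hyv⟩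

theorem same (hiso : St_iso) : St_same := by
  intro V D κ _ _ _ m U χ φ z0 z1 e v v' hv hv' hd hs
  have h := hiso V D κ m U χ φ z0 z1 (insert v e) (fun x => if x = v then v' else x) (by
    intro x hx y hy hxy
    rcases Finset.mem_insert.mp hx with rfl | hx1
    · rcases Finset.mem_insert.mp hy with rfl | hy1
      · exact absurd rfl hxy
      · simp only [if_true, if_neg (Ne.symm hxy)]
        exact (hd y hy1).symm
    · have hxv : x ≠ v := fun h => hv (h ▸ hx1)
      rcases Finset.mem_insert.mp hy with rfl | hy1
      · simp only [if_true, if_neg hxy]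
        rw [U.comm x v', U.comm x y]
        exact (hd x hx1).symm
      · have hyv : y ≠ v := fun h => hv (h ▸ hy1)
        simp only [if_neg hxv, if_neg hyv]) hs
  rw [Same_image e v v' hv] at h
  exact h.symm

end Pool.Agent.H40.HT
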