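import Pool.Agent.H40.HT.Stm

/-! # STARSET -/

namespace Pool.Agent.H40.HT

open Finset Pool.Agent.H40.HL

theorem StarSet_inj {V D : Type} {m : ℕ} (U : UT V D m) (H : Finset V) (l : ℕ)
    (hl : ∀ x ∈ H, ∀ y ∈ H, x ≠ y → U.dl x y = l) :
    Set.InjOn (fun x => U.dg x l) (H : Set V) := by
  intro x hx y hy hxy
  by_contra hne
  have h1 : U.dl x y = l := hl x hx y hy hne
  have h2 : l ≤ m := h1 ▸ U.le_m x y
  have h3 : l ≠ m := fun h => hne ((U.eq_m x y).1 (h1.trans h))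
  have h4 := (U.dg_iff x y l (lt_of_le_of_ne h2 h3) h1.ge).1 hxy
  rw [h1] at h4
  exact lt_irrefl _ h4

theorem StarSet_levels {V D : Type} [DecidableEq V] {m : ℕ} (U : UT V D m) (R : Finset V) (l : ℕ)
    (hl : ∀ x ∈ R, ∀ y ∈ R, x ≠ y → U.dl x y = l) (hR : 1 < R.card) : levels U R = {l} := by
  obtain ⟨x, hx, y, hy, hxy⟩ := Finset.one_lt_card.1 hR
  ext k
  simp only [levels, Finset.mem_image, Finset.mem_offDiag, Finset.mem_singleton]
  constructor
  · rintro ⟨p, ⟨h1, h2, h3⟩, rfl⟩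
    exact hl _ h1 _ h2 h3
  · rintro rfl
    exact ⟨(x, y), ⟨hx, hy, hxy⟩, hl x hx y hy hxy⟩

theorem starset : St_starset := by
  intro V D κ _ _ _ m U χ φ z0 z1 s H a hs hH hcol
  obtain ⟨l, hl⟩ := hH
  have hinj := StarSet_inj U H l hl
  refine ⟨H.image (fun x => U.dg x l), Finset.card_image_of_injOn hinj, ?_⟩
  intro g hg hgc
  have hRH : H.filter (fun x => U.dg x l ∈ g) ⊆ H := Finset.filter_subset _ _
  have himg : (H.filter (fun x => U.dg x l ∈ g)).image (fun x => U.dg x l) = g := by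
    ext d
    simp only [Finset.mem_image, Finset.mem_filter]
    constructor
    · rintro ⟨x, ⟨_, h⟩, rfl⟩
      exact h
    · intro hd
      obtain ⟨x, hx, rfl⟩ := Finset.mem_image.1 (hg hd)
      exact ⟨x, ⟨hx, hd⟩, rfl⟩
  have hRc : (H.filter (fun x => U.dg x l ∈ g)).card = s + 1 := by
    rw [← hgc, ← congrArg Finset.card himg]
    exact (Finset.card_image_of_injOn (hinj.mono (Finset.coe_subset.2 hRH))).symm
  have hlR : ∀ x ∈ H.filter (fun x => U.dg x l ∈ g), ∀ y ∈ H.filter (fun x => U.dg x l ∈ g),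
      x ≠ y → U.dl x y = l := fun x hx y hy => hl x (hRH hx) y (hRH hy)
  have h1 := hcol _ hRH hRc
  have h2 : Star U (H.filter (fun x => U.dg x l ∈ g)) := ⟨l, hlR⟩
  unfold col at h1
  rw [if_pos h2, StarSet_levels U _ l hlR (by omega), Finset.sup_singleton, id, himg] at h1
  exact h1

end Pool.Agent.H40.HT
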