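import Pool.Agent.H40.HT.Stm

/-!
# TOPEX (project HT of helper40), by helper236
-/

namespace Pool.Agent.H40.HT

open Finset Pool.Agent.H40.HL

theorem TopEx_lt {V D : Type} {m : ℕ} (U : UT V D m) {l : ℕ} {x y z : V} (h1 : l < U.dl x y)
    (h2 : l < U.dl y z) : l < U.dl x z :=
  lt_of_lt_of_le (lt_min h1 h2) (U.ultra x y z)

theorem topex : St_topex := by
  intro V D _ _ m U s H hs hcard hns hR
  -- the minimal depth
  have hne : H.offDiag.Nonempty := by
    obtain ⟨a, ha, b, hb, hab⟩ := Finset.one_lt_card.mp (show 1 < H.card by omega)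
    exact ⟨(a, b), Finset.mem_offDiag.mpr ⟨ha, hb, hab⟩⟩
  obtain ⟨p, hp, hpmin⟩ := Finset.exists_min_image H.offDiag (fun p => U.dl p.1 p.2) hne
  obtain ⟨a, b⟩ := p
  rw [Finset.mem_offDiag] at hp
  obtain ⟨ha, hb, hab⟩ := hp
  simp only at ha hb hab hpmin
  obtain ⟨l, hl⟩ : ∃ l, l = U.dl a b := ⟨_, rfl⟩
  have hmin : ∀ x ∈ H, ∀ y ∈ H, x ≠ y → l ≤ U.dl x y := by
    intro x hx y hy hxy
    rw [hl]
    exact hpmin (x, y) (Finset.mem_offDiag.mpr ⟨hx, hy, hxy⟩)
  -- a pair which meets lower
  obtain ⟨x, hx, y, hy, hxy, hxyl⟩ : ∃ x ∈ H, ∃ y ∈ H, x ≠ y ∧ l < U.dl x y := by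
    by_contra hcon
    apply hns
    refine ⟨l, fun x hx y hy hxy => ?_⟩
    by_contra h
    exact hcon ⟨x, hx, y, hy, hxy, lt_of_le_of_ne (hmin x hx y hy hxy) (Ne.symm h)⟩
  -- an element at the minimal depth
  obtain ⟨w, hw, hwx, hxw⟩ : ∃ w ∈ H, w ≠ x ∧ U.dl x w = l := by
    by_cases hxa : x = a
    · exact ⟨b, hb, by rw [hxa]; exact hab.symm, by rw [hxa, hl]⟩
    · by_cases hxb : x = b
      · exact ⟨a, ha, by rw [hxb]; exact hab, by rw [hxb, hl, U.comm]⟩
      · by_cases h1 : U.dl x a = l
        · exact ⟨a, ha, Ne.symm hxa, h1⟩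
        · by_cases h2 : U.dl x b = l
          · exact ⟨b, hb, Ne.symm hxb, h2⟩
          · exfalso
            have h3 : l < U.dl a x := by
              rw [U.comm]
              exact lt_of_le_of_ne (hmin x hx a ha hxa) (Ne.symm h1)
            have h4 : l < U.dl x b := lt_of_le_of_ne (hmin x hx b hb hxb) (Ne.symm h2)
            have h5 := TopEx_lt U h3 h4
            omega
  have hyw : U.dl y w = l := by
    have h1 : y ≠ w := by
      rintro rfl
      omega
    have h2 := hmin y hy w hw h1
    by_contra h3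
    have h4 := TopEx_lt U hxyl (lt_of_le_of_ne h2 (Ne.symm h3))
    omega
  -- it is the only one
  have huniq : ∀ w' ∈ H, w' ≠ x → U.dl x w' = l → w' = w := by
    intro w' hw' hw'x hxw'
    by_contra hne'
    have hsub : ({x, y, w, w'} : Finset V) ⊆ H := by
      intro z hz
      simp only [Finset.mem_insert, Finset.mem_singleton] at hz
      rcases hz with rfl | rfl | rfl | rfl <;> assumption
    have hc4 : ({x, y, w, w'} : Finset V).card ≤ 4 := Finset.card_le_four
    obtain ⟨R, hR1, hR2, hR3⟩ := Finset.exists_subsuperset_card_eq hsub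
      (show ({x, y, w, w'} : Finset V).card ≤ s + 1 by omega) hcard
    have mx : x ∈ R := hR1 (by simp)
    have my : y ∈ R := hR1 (by simp)
    have mw : w ∈ R := hR1 (by simp)
    have mw' : w' ∈ R := hR1 (by simp)
    have hyw1 : y ≠ w := by
      rintro rfl
      omega
    have hyw2 : y ≠ w' := by
      rintro rfl
      omega
    rcases hR R hR2 hR3 with ⟨l', h'⟩ | ⟨t, ht, htop⟩
    · have h1 := h' x mx y my hxy
      have h2 := h' x mx w mw (Ne.symm hwx)
      omega
    · have c1 := U.comm x y
      have c2 := U.comm x w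
      have c3 := U.comm x w'
      by_cases t1 : t = x
      · have := htop y my w mw (by rw [t1]; exact Ne.symm hxy) (by rw [t1]; exact hwx) hyw1
        rw [t1] at this
        omega
      · by_cases t2 : t = y
        · have := htop x mx w mw (by rw [t2]; exact hxy) (by rw [t2]; exact Ne.symm hyw1)
            (Ne.symm hwx)
          rw [t2] at this
          omega
        · by_cases t3 : t = w
          · have := htop x mx w' mw' (by rw [t3]; exact Ne.symm hwx) (by rw [t3]; exact hne')
              (Ne.symm hw'x)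
            rw [t3] at this
            omega
          · have h5 := htop x mx w mw (Ne.symm t1) (Ne.symm t3) (Ne.symm hwx)
            have h6 := hmin t (hR2 ht) x hx t1
            omega
  have hlow : ∀ y' ∈ H, y' ≠ w → y' ≠ x → l < U.dl x y' := by
    intro y' hy' h1 h2
    apply lt_of_le_of_ne (hmin x hx y' hy' (Ne.symm h2))
    intro h3
    exact h1 (huniq y' hy' h2 h3.symm)
  refine ⟨w, hw, l, ?_, ?_⟩
  · intro y' hy' h1
    by_cases h2 : y' = x
    · rw [h2, U.comm]
      exact hxw
    · have h3 := hlow y' hy' h1 h2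
      have h4 := hmin w hw y' hy' (Ne.symm h1)
      by_contra h5
      have h6 : l < U.dl y' w := by
        rw [U.comm]
        exact lt_of_le_of_ne h4 (Ne.symm h5)
      have h7 := TopEx_lt U h3 h6
      omega
  · intro y' hy' z' hz' h1 h2 h3
    by_cases h4 : y' = x
    · rw [h4]
      exact hlow z' hz' h2 (by rw [← h4]; exact Ne.symm h3)
    · by_cases h5 : z' = x
      · rw [h5, U.comm]
        exact hlow y' hy' h1 h4
      · have h6 := hlow y' hy' h1 h4
        rw [U.comm] at h6
        exact TopEx_lt U h6 (hlow z' hz' h2 h5)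

end Pool.Agent.H40.HT
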