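import Pool.Agent.H40.HT.Stm2

/-!
# The classical tower lower bound (project HT of helper40, task HT-TOW)
-/

namespace Pool.Agent.H40.HT

open Finset Filter Pool.Agent.H40.HL Pool.Agent.TH138.NF Pool.Agent.Q216.TI

theorem Tow_not_ram_iff {N s n : ℕ} : ¬ Ram N (s + 1) n ↔
    ∃ c : Finset (Fin N) → Bool, NoMono s c n := by
  rw [← ram_iff]
  push Not
  constructor
  · rintro ⟨c, hc⟩
    refine ⟨c, ?_⟩
    rintro K hK ⟨b, hb⟩
    obtain ⟨e, he1, he2, he3⟩ := hc K hK b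
    exact he3 (hb e he1 he2)
  · rintro ⟨c, hc⟩
    refine ⟨c, ?_⟩
    intro S hS b
    by_contra hcon
    push Not at hcon
    exact hc S hS ⟨b, fun g hg hgc => hcon g hg hgc⟩

/-- one step up -/
theorem Tow_step {N s k : ℕ} (hs : 3 ≤ s) (h : ¬ Ram N s k) :
    ¬ Ram (3 ^ N) (s + 1) (3 * k + 3 * s) := by
  classical
  unfold Ram at h
  push Not at h
  obtain ⟨φ, hφ⟩ := h
  have hφ' : ∀ H ⊆ range N, H.card = k → ¬ ∃ b, ∀ e ⊆ H, e.card = s → φ e = b := by
    intro H hH hHc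
    rintro ⟨b, hb⟩
    obtain ⟨e, he1, he2, he3⟩ := hφ H hH hHc b
    exact he3 (hb e he1 he2)
  intro hram
  obtain ⟨H, hH, hHc, b, hb⟩ := hram (fun S => tree.col φ (S.image (fun i : ℕ => (i : ℤ))))
  have hinj : Function.Injective (fun i : ℕ => (i : ℤ)) := Nat.cast_injective
  have hcard : (H.image (fun i : ℕ => (i : ℤ))).card = 3 * k + 3 * s := by
    rw [card_image_of_injective _ hinj, hHc]
  have hsub : H.image (fun i : ℕ => (i : ℤ)) ⊆ Ico (0 : ℤ) (3 ^ N) := by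
    intro x hx
    obtain ⟨i, hi, rfl⟩ := mem_image.1 hx
    have := mem_range.1 (hH hi)
    rw [mem_Ico]
    constructor
    · positivity
    · exact_mod_cast this
  refine tree.step_up φ (r := s) (k := k) hs (range N) hφ' (H.image (fun i : ℕ => (i : ℤ)))
    (levels_range hsub) hcard.ge ⟨b, ?_⟩
  intro e he hec
  obtain ⟨J, hJ, rfl⟩ := subset_image_iff.1 he
  rw [card_image_of_injective _ hinj] at hec
  exact hb J (by exact_mod_cast hJ) hec

/-- the stronger statement -/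
def Tow_P (s : ℕ) : Prop :=
  ∃ c : ℝ, 0 < c ∧ ∃ n₀ : ℕ, ∀ n : ℕ, n₀ ≤ n →
    ∃ N : ℕ, tow s (c * (n : ℝ) ^ (3 / 2 : ℝ)) ≤ N ∧ ¬ Ram N (s + 2) n

theorem Tow_base : Tow_P 1 := by
  obtain ⟨c, hc, k0, h⟩ := order 2 2 (by norm_num) (by norm_num) (1 / 2) (by norm_num)
    (by norm_num)
  refine ⟨c / 2, by positivity, max k0 2, fun n hn => ?_⟩
  have hn0 : k0 ≤ n := le_trans (le_max_left _ _) hn
  have hn2 : 2 ≤ n := le_trans (le_max_right _ _) hn
  have hn2r : (2 : ℝ) ≤ n := by exact_mod_cast hn2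
  set X : ℝ := (n : ℝ) ^ (3 / 2 : ℝ) with hX
  have hX1 : 1 ≤ X := Real.one_le_rpow (by linarith) (by norm_num)
  set d : ℕ := ⌊X⌋₊ with hd
  have hd1 : 1 ≤ d := (Nat.one_le_floor_iff _).2 hX1
  have hdX : (d : ℝ) ≤ X := Nat.floor_le (by linarith)
  have hdX2 : X / 2 ≤ d := by
    have h1 := Nat.lt_floor_add_one X
    have h2 : (1 : ℝ) ≤ d := by exact_mod_cast hd1
    rw [← hd] at h1
    linarith
  have hexp : ((2 : ℕ) : ℝ) - 1 / 2 = 3 / 2 := by norm_num
  have h1 := h d n hn0 hd1 (by rw [hexp]; exact hdX)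
  have hl2 : 0 < Real.log 2 := Real.log_pos (by norm_num)
  have hlog : Real.log 2 ≤ Real.log n := Real.log_le_log (by norm_num) hn2r
  have h2 : c / 2 * X * Real.log 2 ≤ Real.log (largest 2 2 d n) := by
    refine le_trans ?_ h1
    have h3 : c / 2 * X ≤ c * d := by nlinarith
    exact mul_le_mul h3 hlog hl2.le (by positivity)
  obtain ⟨χ, -, hχ⟩ := largest_good (s := 2) (q := 2) (d := d) (k := n) (by norm_num) (by omega)
  refine ⟨largest 2 2 d n, ?_, ?_⟩
  · have hpos : 0 < Real.log (largest 2 2 d n) := lt_of_lt_of_le (by positivity) h2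
    have hNpos : (0 : ℝ) < largest 2 2 d n := by
      rcases Nat.eq_zero_or_pos (largest 2 2 d n) with h0 | h0
      · exfalso
        rw [h0] at hpos
        simp at hpos
      · exact_mod_cast h0
    change (2 : ℝ) ^ (c / 2 * X) ≤ _
    rw [Real.rpow_def_of_pos (by norm_num), ← Real.le_log_iff_exp_le hNpos]
    linarith
  · rw [show 1 + 2 = 2 + 1 from rfl, Tow_not_ram_iff]
    refine ⟨fun e => decide (χ e = 1), ?_⟩
    rintro K hK ⟨a, ha⟩
    refine hχ K hK ⟨if a = true then 1 else 0, fun g hg hgc => ?_⟩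
    have h3 := ha g hg hgc
    cases a with
    | true =>
      simp only [decide_eq_true_eq] at h3
      simpa using h3
    | false =>
      simp only [decide_eq_false_iff_not] at h3
      have h4 : χ g = 0 := by
        have h5 : (χ g : ℕ) < 2 := (χ g).2
        have h6 : (χ g : ℕ) ≠ 1 := fun h7 => h3 (Fin.ext h7)
        apply Fin.ext
        change (χ g : ℕ) = 0
        omega
      simpa using h4

theorem Tow_up {s : ℕ} (hs : 1 ≤ s) (h : Tow_P s) : Tow_P (s + 1) := by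
  obtain ⟨c, hc, n₀, h⟩ := h
  refine ⟨c / 8, by positivity, 3 * n₀ + 12 * (s + 3) + 12, ?_⟩
  intro n hn
  set m := n / 3 - (s + 2) with hm
  have hm0 : n₀ ≤ m := by omega
  have hm1 : 3 * m + 3 * (s + 2) ≤ n := by omega
  have hm2 : n ≤ 4 * m := by omega
  obtain ⟨N, hN, hR⟩ := h m hm0
  refine ⟨3 ^ N, ?_, ?_⟩
  · have hm2' : (n : ℝ) ≤ 4 * m := by exact_mod_cast hm2
    have h4 : ((4 : ℝ)) ^ (3 / 2 : ℝ) = 8 := by
      rw [show (4 : ℝ) = 2 ^ (2 : ℝ) by norm_num, ← Real.rpow_mul (by norm_num)]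
      norm_num
    have h1 : (n : ℝ) ^ (3 / 2 : ℝ) ≤ 8 * (m : ℝ) ^ (3 / 2 : ℝ) := by
      have h5 := Real.rpow_le_rpow (by positivity) hm2' (show (0 : ℝ) ≤ 3 / 2 by norm_num)
      rw [Real.mul_rpow (by norm_num) (by positivity), h4] at h5
      exact h5
    have h2 : tow (s + 1) (c / 8 * (n : ℝ) ^ (3 / 2 : ℝ)) ≤ (2 : ℝ) ^ (N : ℝ) := by
      rw [tow]
      apply Real.rpow_le_rpow_of_exponent_le (by norm_num)
      refine le_trans (tow_mono _ ?_) hN
      nlinarith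
    refine h2.trans ?_
    rw [two_pow_nat]
    push_cast
    exact pow_le_pow_left₀ (by norm_num) (by norm_num) _
  · intro h1
    have h2 := ram_mono' h1 hm1
    exact Tow_step (by omega) hR h2

theorem Tow_all (s : ℕ) : Tow_P (s + 1) := by
  induction s with
  | zero => exact Tow_base
  | succ s ih => exact Tow_up (by omega) ih

/-- **TOW.** -/
theorem tow_lower : St_tow := by
  intro s hs
  obtain ⟨t, rfl⟩ : ∃ t, s = t + 3 := ⟨s - 3, by omega⟩
  obtain ⟨c, hc, n₀, h⟩ := Tow_all t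
  refine ⟨max n₀ (⌈(1 / c) ^ 2⌉₊ + 1), fun n hn => ?_⟩
  have hn0 : n₀ ≤ n := le_trans (le_max_left _ _) hn
  have hn1 : ⌈(1 / c) ^ 2⌉₊ + 1 ≤ n := le_trans (le_max_right _ _) hn
  obtain ⟨N, hN, hR⟩ := h n hn0
  obtain ⟨φ, hφ⟩ := Tow_not_ram_iff.1 hR
  refine ⟨N, φ, ?_, hφ⟩
  change tow (t + 1) (n : ℝ) ≤ N
  refine le_trans (tow_mono _ ?_) hN
  have hnpos : (0 : ℝ) < n := by exact_mod_cast (by omega : 0 < n)
  have h1 : (1 / c) ^ 2 ≤ n :=
    (Nat.le_ceil _).trans (by exact_mod_cast (by omega : ⌈(1 / c) ^ 2⌉₊ ≤ n))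
  have h2 : 1 / c ≤ Real.sqrt n := Real.le_sqrt_of_sq_le h1
  have h3 : 1 ≤ c * Real.sqrt n := by
    rw [div_le_iff₀ hc] at h2
    linarith
  have h4 : (n : ℝ) ^ (3 / 2 : ℝ) = n * Real.sqrt n := by
    rw [Real.sqrt_eq_rpow, ← Real.rpow_one_add' hnpos.le (by norm_num)]
    norm_num
  rw [h4]
  nlinarith

end Pool.Agent.H40.HT
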