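import Pool.Agent.H40.HT.Stm

/-!
Project HT (helper40), statement St_words (helper358).
-/

namespace Pool.Agent.H40.HT

section
variable {D : Type} {m : ℕ}

open Classical in
/-- the depth of the meet of two words -/
noncomputable def Words_dl (x y : Fin m → D) : ℕ :=
  Nat.findGreatest (fun l => ∀ i : Fin m, (i : ℕ) < l → x i = y i) m

theorem Words_le (x y : Fin m → D) : Words_dl x y ≤ m := by
  classical
  unfold Words_dl
  exact Nat.findGreatest_le m

theorem Words_spec (x y : Fin m → D) (i : Fin m) (h : (i : ℕ) < Words_dl x y) : x i = y i := by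
  classical
  have h1 : ∀ i : Fin m, (i : ℕ) < Words_dl x y → x i = y i :=
    Nat.findGreatest_spec (P := fun l => ∀ i : Fin m, (i : ℕ) < l → x i = y i) (Nat.zero_le m)
      (fun i hi => absurd hi (Nat.not_lt_zero _))
  exact h1 i h

theorem Words_iff (x y : Fin m → D) (l : ℕ) (hl : l ≤ m) :
    l ≤ Words_dl x y ↔ ∀ i : Fin m, (i : ℕ) < l → x i = y i := by
  classical
  constructor
  · intro h i hi
    exact Words_spec x y i (hi.trans_le h)
  · intro h
    exact Nat.le_findGreatest hl h

end

theorem words : St_words := by
  intro D _ _ m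
  refine ⟨⟨Words_dl, Words_le, fun x y => ?_, fun x y => ?_, fun x y z => ?_,
    fun x l => if h : l < m then x ⟨l, h⟩ else default, fun x y l hl hle => ?_⟩⟩
  · constructor
    · intro h
      funext i
      exact (Words_iff x y m le_rfl).1 h.ge i i.2
    · rintro rfl
      exact le_antisymm (Words_le x x) ((Words_iff x x m le_rfl).2 fun i _ => rfl)
  · apply le_antisymm
    · exact (Words_iff y x _ (Words_le x y)).2 fun i hi => (Words_spec x y i hi).symm
    · exact (Words_iff x y _ (Words_le y x)).2 fun i hi => (Words_spec y x i hi).symm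
  · refine (Words_iff x z _ ((min_le_left _ _).trans (Words_le x y))).2 fun i hi => ?_
    rw [lt_min_iff] at hi
    exact (Words_spec x y i hi.1).trans (Words_spec y z i hi.2)
  · show ((if h : l < m then x ⟨l, h⟩ else default) = (if h : l < m then y ⟨l, h⟩ else default)) ↔
      l < Words_dl x y
    rw [dif_pos hl, dif_pos hl]
    constructor
    · intro h
      refine (Words_iff x y (l + 1) hl).2 fun i hi => ?_
      rcases Nat.lt_succ_iff_lt_or_eq.1 hi with h1 | h1
      · exact Words_spec x y i (h1.trans_le hle)
      · have h2 : i = ⟨l, hl⟩ := Fin.ext h1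
        rw [h2]
        exact h
    · intro h
      exact Words_spec x y ⟨l, hl⟩ h

end Pool.Agent.H40.HT
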