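import Pool.Agent.H40.HT.TowC
import Pool.Agent.H40.HT.LDim
import Pool.Agent.H40.HT.Iso
import Pool.Agent.H40.HT.Near
import Pool.Agent.H40.HT.Same
import Pool.Agent.H40.HT.ConstK
import Pool.Agent.H40.HT.SL1
import Pool.Agent.H40.HT.SL1S
import Pool.Agent.H40.HT.SL2
import Pool.Agent.H40.HT.ChainLev
import Pool.Agent.H40.HT.CatChain
import Pool.Agent.H40.HT.TopEx
import Pool.Agent.H40.HT.StarSet
import Pool.Agent.H40.HT.Mono
import Pool.Agent.H40.HT.RandE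
import Pool.Agent.H40.HT.Words
import Pool.Agent.H40.HT.GoodE
import Pool.Agent.H40.HT.Tow

/-!
# The two theorems on large Littlestone dimension
-/

namespace Pool.Agent.H40.HT

open Finset Filter Pool.Agent.H40.HL Pool.Agent.TH138.NF Pool.Agent.Q216.TI

theorem All_ldim : St_ldim :=
  ldim (sl1 (near iso) (same iso) constK) sl1s (sl2 iso (near iso) (same iso) constK)

theorem All_mono : St_mono := mono chainlev catchain topex starset

/-- Sharp asymptotics up to the Ramsey number of the `s`-sets. -/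
theorem All_sharp (s q : ℕ) (hs : 4 ≤ s) (hq : 2 ≤ q) (δ : ℝ) (hδ : 0 < δ) (hδ1 : δ ≤ 1) :
    ∃ η : ℝ, 0 < η ∧ ∃ D k₀ : ℕ, ∀ d k : ℕ, D ≤ d → k₀ ≤ k →
      ((∃ φ : Finset (Fin d) → Fin q, NoMono (s - 1) φ ⌊(k : ℝ) ^ η⌋₊) ∨
        (d : ℝ) ≤ tow (s - 2) ((k : ℝ) ^ η)) →
      (s - δ) * d * Real.log k ≤ Real.log (largest s q d k) ∧
      largest s q d k ≤ largestI s q d k ∧
      Real.log (largestI s q d k) ≤ (s + δ) * d * Real.log k := by
  obtain ⟨η, hη, D, k₀, h⟩ := Asym_sharp All_ldim All_mono words (goodE rande) s q hs hq δ hδ hδ1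
  obtain ⟨k1, hk1⟩ := TowC_range tow_lower s q (by omega) hq η (η / 2) (by positivity)
    (by linarith)
  refine ⟨η / 2, by positivity, D, max k₀ (max k1 1), fun d k hd hk hor => ?_⟩
  have hk0 : k₀ ≤ k := le_trans (le_max_left _ _) hk
  have hkk1 : k1 ≤ k := le_trans (le_trans (le_max_left _ _) (le_max_right _ _)) hk
  have hk1' : 1 ≤ k := le_trans (le_trans (le_max_right _ _) (le_max_right _ _)) hk
  have hφ : ∃ φ : Finset (Fin d) → Fin q, NoMono (s - 1) φ ⌊(k : ℝ) ^ η⌋₊ := by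
    rcases hor with ⟨φ, hφ⟩ | ht
    · refine ⟨φ, Comp_noMono_mono hφ (Nat.floor_le_floor ?_)⟩
      exact Real.rpow_le_rpow_of_exponent_le (by exact_mod_cast hk1') (by linarith)
    · exact hk1 k hkk1 d ht
  obtain ⟨h1, h2⟩ := h d k hd hk0 hφ
  exact ⟨h1, largest_le_largestI (by omega) hk1', h2⟩

/-- Order of magnitude up to the Ramsey number of the `s`-sets. -/
theorem All_order (s q : ℕ) (hs : 4 ≤ s) (hq : 2 ≤ q) (δ : ℝ) (hδ : 0 < δ) (hδ1 : δ ≤ 1) :
    ∃ a : ℝ, 0 < a ∧ ∃ b : ℝ, 0 < b ∧ ∃ k₀ : ℕ, ∀ d k : ℕ, k₀ ≤ k → 1 ≤ d →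
      ((∃ φ : Finset (Fin d) → Fin q, NoMono (s - 1) φ ⌊(k : ℝ) ^ (1 - δ)⌋₊) ∨
        (d : ℝ) ≤ tow (s - 2) ((k : ℝ) ^ (1 - δ))) →
      a * d * Real.log k ≤ Real.log (largest s q d k) ∧
      largest s q d k ≤ largestI s q d k ∧
      Real.log (largestI s q d k) ≤ b * d * Real.log k := by
  obtain ⟨a, ha, k₀, h⟩ := Ord_order All_ldim All_mono words (goodE rande) s q hs hq (δ / 2)
    (by positivity) (by linarith)
  obtain ⟨k1, hk1⟩ := TowC_range tow_lower s q (by omega) hq (1 - δ / 2) (max (1 - δ) (1 / 4))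
    (lt_of_lt_of_le (by norm_num) (le_max_right _ _)) (max_lt (by linarith) (by linarith))
  refine ⟨a, ha, 2 * s + 3, by positivity, max k₀ (max k1 (2 * q + 2)), fun d k hk hd hor => ?_⟩
  have hk0 : k₀ ≤ k := le_trans (le_max_left _ _) hk
  have hkk1 : k1 ≤ k := le_trans (le_trans (le_max_left _ _) (le_max_right _ _)) hk
  have hkq : 2 * q + 2 ≤ k := le_trans (le_trans (le_max_right _ _) (le_max_right _ _)) hk
  have hk1r : (1 : ℝ) ≤ k := by exact_mod_cast (by omega : 1 ≤ k)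
  have hφ : ∃ φ : Finset (Fin d) → Fin q, NoMono (s - 1) φ ⌊(k : ℝ) ^ (1 - δ / 2)⌋₊ := by
    rcases hor with ⟨φ, hφ⟩ | ht
    · refine ⟨φ, Comp_noMono_mono hφ (Nat.floor_le_floor ?_)⟩
      exact Real.rpow_le_rpow_of_exponent_le hk1r (by linarith)
    · refine hk1 k hkk1 d (ht.trans (tow_mono _ ?_))
      exact Real.rpow_le_rpow_of_exponent_le hk1r (le_max_left _ _)
  exact ⟨h d k hk0 hd hφ, largest_le_largestI (by omega) (by omega), Ord_upper s q hq d k hkq hd⟩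

end Pool.Agent.H40.HT
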