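import Pool.Agent.H40.HT.Stm3

/-!
# BIN: binary trees contain long chains (helper113, project HT of helper40)
-/

namespace Pool.Agent.H40.HT

open Finset Pool.Agent.H40.HL

variable {V D : Type} [DecidableEq V] [DecidableEq D] {m : ℕ}

theorem Bin_ne (U : UT V D m) : ∀ (t : ℕ) (H : Finset V), Chain U t H → H.Nonempty
  | 0, _, h => h
  | _ + 1, _, ⟨x, hx, _⟩ => ⟨x, hx⟩

theorem Bin_step (U : UT V D m) (t : ℕ)
    (ih : ∀ G : Finset V, (∀ x ∈ G, ∀ y ∈ G, ∀ z ∈ G, x ≠ y → y ≠ z → x ≠ z →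
      ¬ (U.dl x y = U.dl y z ∧ U.dl x y = U.dl x z)) → 2 ^ t ≤ G.card → ∃ G' ⊆ G, Chain U t G')
    (G : Finset V) (hG : ∀ x ∈ G, ∀ y ∈ G, ∀ z ∈ G, x ≠ y → y ≠ z → x ≠ z →
      ¬ (U.dl x y = U.dl y z ∧ U.dl x y = U.dl x z)) (a b : V) (hb : b ∈ G)
    (hc : 2 ^ t ≤ (G.filter (fun y => U.dl a b < U.dl a y)).card) :
    ∃ G' ⊆ G, Chain U (t + 1) G' := by
  obtain ⟨G2, hs, hch⟩ := ih (G.filter (fun y => U.dl a b < U.dl a y))
    (fun x hx y hy z hz => hG x (mem_filter.1 hx).1 y (mem_filter.1 hy).1 z (mem_filter.1 hz).1) hc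
  have hlt : ∀ y ∈ G2, U.dl a b < U.dl a y := fun y hy => (mem_filter.1 (hs hy)).2
  have hbG : b ∉ G2 := fun h => lt_irrefl _ (hlt b h)
  have hne := Bin_ne U t G2 hch
  refine ⟨insert b G2, ?_, b, mem_insert_self _ _, U.dl a b, ⟨?_, ?_⟩, ?_, ?_⟩
  · intro y hy
    rcases mem_insert.1 hy with rfl | hy
    · exact hb
    · exact (mem_filter.1 (hs hy)).1
  · intro y hy hyb
    have hy2 : y ∈ G2 := (mem_insert.1 hy).resolve_left hyb
    have h1 := hlt y hy2
    have h2 := U.ultra b a y
    have h3 := U.ultra a y b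
    rw [U.comm b a] at h2
    rw [U.comm y b] at h3
    rcases lt_trichotomy (U.dl b y) (U.dl a b) with h | h | h
    · have := lt_min (h) (h.trans h1)
      omega
    · exact h
    · have := lt_min h1 h
      omega
  · intro y hy z hz hyb hzb _
    have hy2 : y ∈ G2 := (mem_insert.1 hy).resolve_left hyb
    have hz2 : z ∈ G2 := (mem_insert.1 hz).resolve_left hzb
    have h1 := hlt y hy2
    have h2 := hlt z hz2
    have h3 := U.ultra y a z
    rw [U.comm y a] at h3
    exact lt_of_lt_of_le (lt_min h1 h2) h3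
  · rw [card_insert_of_notMem hbG]
    have := hne.card_pos
    omega
  · rw [erase_insert hbG]
    exact hch

/-- BIN. -/
theorem bin_chain : St_bin := by
  intro V D _ _ m U t
  induction t with
  | zero =>
    intro G _ hc
    refine ⟨G, Subset.rfl, ?_⟩
    rw [pow_zero] at hc
    exact card_pos.1 (by omega)
  | succ t ih =>
    intro G hG hc
    have hp : 0 < 2 ^ t := Nat.two_pow_pos t
    rw [pow_succ] at hc
    have h1 : 1 < G.card := by omega
    have h2 : G.offDiag.Nonempty := by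
      obtain ⟨a, ha, b, hb, hab⟩ := one_lt_card.1 h1
      exact ⟨(a, b), mem_offDiag.2 ⟨ha, hb, hab⟩⟩
    obtain ⟨⟨a, b⟩, hab, hmin⟩ := exists_min_image G.offDiag (fun p => U.dl p.1 p.2) h2
    obtain ⟨ha, hb, hne⟩ := mem_offDiag.1 hab
    dsimp only at ha hb hne hmin
    have hlm : U.dl a b < m := lt_of_le_of_ne (U.le_m a b) fun h => hne ((U.eq_m a b).1 h)
    have hcov : G ⊆ G.filter (fun y => U.dl a b < U.dl a y) ∪ G.filter (fun y => U.dl b a < U.dl b y) := by
      intro y hy
      rw [mem_union, mem_filter, mem_filter]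
      by_contra hcon
      push Not at hcon
      have c1 := hcon.1 hy
      have c2 := hcon.2 hy
      have hya : a ≠ y := by
        rintro rfl
        rw [(U.eq_m a a).2 rfl] at c1
        omega
      have hyb : b ≠ y := by
        rintro rfl
        rw [(U.eq_m b b).2 rfl, U.comm b a] at c2
        omega
      have m1 := hmin (a, y) (mem_offDiag.2 ⟨ha, hy, hya⟩)
      have m2 := hmin (b, y) (mem_offDiag.2 ⟨hb, hy, hyb⟩)
      dsimp only at m1 m2
      rw [U.comm b a] at c2
      exact hG a ha b hb y hy hne hyb hya ⟨by omega, by omega⟩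
    have hcard := (card_le_card hcov).trans (card_union_le _ _)
    rcases le_or_gt (2 ^ t) (G.filter (fun y => U.dl a b < U.dl a y)).card with h | h
    · exact Bin_step U t ih G hG a b hb h
    · exact Bin_step U t ih G hG b a ha (by omega)

end Pool.Agent.H40.HT
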