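import Pool.Agent.H40.HT.Stm3

/-!
# MONO3 (helper721, for project HT of helper40): one-coloured sets of `col` are small, `s = 3`
(adapted from `Mono.lean` of helper353)
-/

set_option autoImplicit false
set_option linter.unusedSectionVars false

namespace Pool.Agent.H40.HT

open Finset Pool.Agent.H40.HL

section Mono3

variable {V D κ : Type} [DecidableEq V] [DecidableEq D] [DecidableEq κ] {m : ℕ}

theorem Mono3_lt (U : UT V D m) {x y : V} (h : x ≠ y) : U.dl x y < m :=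
  lt_of_le_of_ne (U.le_m x y) fun h' => h ((U.eq_m x y).1 h')

theorem Mono3_star_NC {U : UT V D m} {R : Finset V} (h : Star U R) (hR : 2 < R.card) :
    NC U R := by
  obtain ⟨l, hl⟩ := h
  obtain ⟨x, hx, y, hy, z, hz, hxy, hxz, hyz⟩ := Finset.two_lt_card.1 hR
  left
  refine ⟨x, hx, y, hy, z, hz, hxy, hyz, hxz, ?_, ?_⟩
  · rw [hl x hx y hy hxy, hl y hy z hz hyz]
  · rw [hl x hx y hy hxy, hl x hx z hz hxz]

theorem Mono3_star_sub {U : UT V D m} {R S : Finset V} (h : R ⊆ S) (hS : Star U S) :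
    Star U R := by
  obtain ⟨l, hl⟩ := hS
  exact ⟨l, fun x hx y hy hxy => hl x (h hx) y (h hy) hxy⟩

/-- (0) the levels of a chain -/
theorem Mono3_chain (h1 : St_chainlev) (U : UT V D m) (χ : Finset D → κ) (φ : Finset ℕ → κ)
    (z0 z1 a : κ) {t : ℕ} {H H' : Finset V} (hH : H' ⊆ H)
    (ha : ∀ g ⊆ H, g.card = 3 + 1 → col U χ φ z0 z1 g = a)
    (hc : Chain U t H') :
    ∃ L ⊆ Finset.range m, L.card = t ∧ ∀ B ⊆ L, B.card = 3 → φ B = a := by
  obtain ⟨L, hL, hLt, hB⟩ := h1 V D m U t H' hc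
  refine ⟨L, ?_, hLt, fun B hBL hBs => ?_⟩
  · intro l hl
    have h2 := hL hl
    unfold levels at h2
    rw [Finset.mem_image] at h2
    obtain ⟨p, hp, rfl⟩ := h2
    rw [Finset.mem_offDiag] at hp
    rw [Finset.mem_range]
    exact Mono3_lt U hp.2.2
  · obtain ⟨R, hRH, hRc, hRl, hRN, hRT⟩ := hB B hBL
    rw [hBs] at hRc
    have hTop : Top U R := hRT (Finset.card_pos.1 (by omega))
    have hStar : ¬ Star U R := fun h => hRN (Mono3_star_NC h (by omega))
    have h2 := ha R (hRH.trans hH) hRc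
    unfold col at h2
    rw [if_neg hStar, if_pos hTop, if_neg hRN, hRl] at h2
    exact h2

/-- a star with `k0` elements is impossible -/
theorem Mono3_nostar (h4 : St_starset) (U : UT V D m) (χ : Finset D → κ) (φ : Finset ℕ → κ)
    (z0 z1 a : κ) {k0 : ℕ} {H T : Finset V} (hT : T ⊆ H) (hTk : T.card = k0)
    (ha : ∀ g ⊆ H, g.card = 3 + 1 → col U χ φ z0 z1 g = a) (hχ : NoMono 3 χ k0)
    (hst : Star U T) : False := by
  obtain ⟨K, hK, hK'⟩ := h4 V D κ m U χ φ z0 z1 3 T a (by omega) hst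
    (fun R hR hRc => ha R (hR.trans hT) hRc)
  exact hχ K (hK.trans hTk) ⟨a, hK'⟩

/-- (1) the colour `a ≠ z1` -/
theorem Mono3_one (h3 : St_topex3) (h4 : St_starset) (U : UT V D m)
    (χ : Finset D → κ) (φ : Finset ℕ → κ) (z0 z1 a : κ) {k0 : ℕ}
    {H : Finset V} (ha : ∀ g ⊆ H, g.card = 3 + 1 → col U χ φ z0 z1 g = a)
    (hχ : NoMono 3 χ k0) (haz : a ≠ z1) :
    ∀ (t : ℕ) (H' : Finset V), H' ⊆ H → t + k0 + 4 ≤ H'.card → Chain U t H' := by
  intro t
  induction t with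
  | zero =>
    intro H' _ hc
    exact Finset.card_pos.1 (by omega)
  | succ t ih =>
    intro H' hH' hc
    have hns : ¬ Star U H' := by
      intro hst
      obtain ⟨T, hT, hTk⟩ := Finset.exists_subset_card_eq (by omega : k0 ≤ H'.card)
      exact Mono3_nostar h4 U χ φ z0 z1 a (hT.trans hH') hTk ha hχ (Mono3_star_sub hT hst)
    have hR : ∀ R ⊆ H', R.card = 3 + 1 → Star U R ∨ Top U R := by
      intro R hR hRc
      by_contra hcon
      rw [not_or] at hcon
      have h5 := ha R (hR.trans hH') hRc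
      unfold col at h5
      rw [if_neg hcon.1, if_neg hcon.2] at h5
      exact haz h5.symm
    obtain ⟨x, hx, l, hoff⟩ := h3 V D m U 3 H' le_rfl (by omega) hns hR
    refine ⟨x, hx, l, hoff, by omega, ih (H'.erase x) ((Finset.erase_subset x H').trans hH') ?_⟩
    rw [Finset.card_erase_of_mem hx]
    omega

/-- (2) the colour `z1`: the size of the fibres -/
theorem Mono3_two (h1 : St_chainlev) (h5b : St_bin) (U : UT V D m)
    (χ : Finset D → κ) (φ : Finset ℕ → κ) (z0 z1 : κ) (hz : z0 ≠ z1)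
    {H : Finset V} (ha : ∀ g ⊆ H, g.card = 3 + 1 → col U χ φ z0 z1 g = z1)
    (hφ : ∀ L ⊆ Finset.range m, L.card = 4 → ¬ ∀ B ⊆ L, B.card = 3 → φ B = z1)
    {l : ℕ} {x0 y0 : V} (hx0 : x0 ∈ H) (hy0 : y0 ∈ H) (hxy : x0 ≠ y0) (hl : U.dl x0 y0 = l)
    (hmin : ∀ x ∈ H, ∀ y ∈ H, x ≠ y → l ≤ U.dl x y) (u : D) :
    (H.filter (fun x => U.dg x l = u)).card ≤ 15 := by
  by_contra hcon
  have hcard : 16 ≤ (H.filter (fun x => U.dg x l = u)).card := by omega
  set G := H.filter (fun x => U.dg x l = u) with hG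
  have hlm : l < m := by
    rw [← hl]
    exact Mono3_lt U hxy
  have hGH : G ⊆ H := Finset.filter_subset _ _
  -- an element of `H` outside of `G`
  obtain ⟨x, hxH, hxu⟩ : ∃ x ∈ H, U.dg x l ≠ u := by
    by_cases hx : U.dg x0 l = u
    · refine ⟨y0, hy0, fun hy => ?_⟩
      have h5 := (U.dg_iff x0 y0 l hlm hl.ge).1 (hx.trans hy.symm)
      omega
    · exact ⟨x0, hx0, hx⟩
  have hxG : x ∉ G := fun h => hxu (Finset.mem_filter.1 h).2
  have hne : ∀ y ∈ G, x ≠ y := fun y hy h => hxG (h ▸ hy)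
  have hxy' : ∀ y ∈ G, U.dl x y = l := by
    intro y hy
    have h5 := hmin x hxH y (hGH hy) (hne y hy)
    have h6 := (U.dg_iff x y l hlm h5).not.1 (by
      rw [(Finset.mem_filter.1 hy).2]
      exact hxu)
    omega
  have hyy : ∀ y ∈ G, ∀ z ∈ G, y ≠ z → l < U.dl y z := by
    intro y hy z hz hyz
    have h5 := hmin y (hGH hy) z (hGH hz) hyz
    exact (U.dg_iff y z l hlm h5).1 ((Finset.mem_filter.1 hy).2.trans (Finset.mem_filter.1 hz).2.symm)
  have hQ : ∀ a ∈ G, ∀ b ∈ G, ∀ c ∈ G, a ≠ b → b ≠ c → a ≠ c →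
      ¬ (U.dl a b = U.dl b c ∧ U.dl a b = U.dl a c) := by
    intro p hp q hq r hr hpq hqr hpr hmeet
    have hQG : ({p, q, r} : Finset V) ⊆ G := by
      intro v hv
      simp only [Finset.mem_insert, Finset.mem_singleton] at hv
      rcases hv with rfl | rfl | rfl <;> assumption
    have hQc : ({p, q, r} : Finset V).card = 3 := Finset.card_eq_three.2 ⟨p, q, r, hpq, hpr, hqr, rfl⟩
    generalize hQd : ({p, q, r} : Finset V) = Q at hQG hQc
    have hpQ : p ∈ Q := by rw [← hQd]; simp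
    have hqQ : q ∈ Q := by rw [← hQd]; simp
    have hrQ : r ∈ Q := by rw [← hQd]; simp
    have hxQ : x ∉ Q := fun h => hxG (hQG h)
    have hRc : (insert x Q).card = 3 + 1 := by rw [Finset.card_insert_of_notMem hxQ, hQc]
    have hRH : insert x Q ⊆ H := Finset.insert_subset hxH (hQG.trans hGH)
    have hRN : NC U (insert x Q) :=
      Or.inl ⟨p, Finset.mem_insert_of_mem hpQ, q, Finset.mem_insert_of_mem hqQ, r,
        Finset.mem_insert_of_mem hrQ, hpq, hqr, hpr, hmeet⟩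
    have hRT : Top U (insert x Q) := by
      refine ⟨x, Finset.mem_insert_self x Q, fun y hy z hz hyx hzx hyz => ?_⟩
      have hy' := hQG (Finset.mem_of_mem_insert_of_ne hy hyx)
      have hz' := hQG (Finset.mem_of_mem_insert_of_ne hz hzx)
      rw [hxy' y hy']
      exact hyy y hy' z hz' hyz
    have hRS : ¬ Star U (insert x Q) := by
      rintro ⟨j, hj⟩
      have h5 := hj x (Finset.mem_insert_self x Q) p (Finset.mem_insert_of_mem hpQ)
        (hne p hp)
      have h6 := hj p (Finset.mem_insert_of_mem hpQ) q (Finset.mem_insert_of_mem hqQ) hpq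
      rw [hxy' p hp] at h5
      have h7 := hyy p hp q hq hpq
      omega
    have h5 := ha _ hRH hRc
    unfold col at h5
    rw [if_neg hRS, if_pos hRT, if_pos hRN] at h5
    exact hz h5
  obtain ⟨G', hG', hch⟩ := h5b V D m U 4 G hQ (by norm_num; exact hcard)
  obtain ⟨L, hLm, hLc, hLB⟩ := Mono3_chain h1 U χ φ z0 z1 z1 (hG'.trans hGH) ha hch
  exact hφ L hLm hLc hLB

/-- (2) the colour `z1`: the number of the fibres -/
theorem Mono3_three (h4 : St_starset) (U : UT V D m) (χ : Finset D → κ) (φ : Finset ℕ → κ)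
    (z0 z1 a : κ) {k0 : ℕ} {H : Finset V}
    (ha : ∀ g ⊆ H, g.card = 3 + 1 → col U χ φ z0 z1 g = a) (hχ : NoMono 3 χ k0)
    {l : ℕ} (hlm : l < m) (hmin : ∀ x ∈ H, ∀ y ∈ H, x ≠ y → l ≤ U.dl x y) :
    (H.image (fun x => U.dg x l)).card < k0 := by
  by_contra hcon
  obtain ⟨P, hP, hPk⟩ := Finset.exists_subset_card_eq (not_lt.1 hcon)
  have hex : ∀ u : D, ∃ x : V, u ∈ P → x ∈ H ∧ U.dg x l = u := by
    intro u
    by_cases hu : u ∈ P
    · obtain ⟨x, hx, hxu⟩ := Finset.mem_image.1 (hP hu)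
      exact ⟨x, fun _ => ⟨hx, hxu⟩⟩
    · have hne : H.Nonempty := by
        by_contra hH
        rw [Finset.not_nonempty_iff_eq_empty] at hH
        subst hH
        have h5 := hχ ∅
        rw [Finset.image_empty, Finset.subset_empty] at hP
        rw [hP, Finset.card_empty] at hPk
        refine h5 (by rw [Finset.card_empty]; exact hPk) ⟨z1, fun g hg hgc => ?_⟩
        rw [Finset.subset_empty] at hg
        rw [hg, Finset.card_empty] at hgc
        omega
      obtain ⟨x, -⟩ := hne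
      exact ⟨x, fun h => absurd h hu⟩
  choose f hf using hex
  have hinj : Set.InjOn f (P : Set D) := by
    intro u hu v hv huv
    rw [← (hf u hu).2, ← (hf v hv).2, huv]
  refine Mono3_nostar h4 U χ φ z0 z1 a (T := P.image f) ?_ ?_ ha hχ ⟨l, ?_⟩
  · intro x hx
    obtain ⟨u, hu, rfl⟩ := Finset.mem_image.1 hx
    exact (hf u hu).1
  · rw [Finset.card_image_of_injOn hinj, hPk]
  · intro x hx y hy hxy
    obtain ⟨u, hu, rfl⟩ := Finset.mem_image.1 hx
    obtain ⟨v, hv, rfl⟩ := Finset.mem_image.1 hy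
    have h5 := hmin _ (hf u hu).1 _ (hf v hv).1 hxy
    have h6 := (U.dg_iff (f u) (f v) l hlm h5).not.1 (by
      rw [(hf u hu).2, (hf v hv).2]
      rintro rfl
      exact hxy rfl)
    omega

end Mono3

/-- **MONO3** -/
theorem mono3 (h1 : St_chainlev) (h3 : St_topex3) (h4 : St_starset) (h5 : St_bin) :
    St_mono3 := by
  intro V D κ _ _ _ _ _ m U χ φ z0 z1 k0 n hz hχ hφ hφ4 H hH
  rintro ⟨a, ha⟩
  have hHb : (k0 + 1) * (n + 4) ≤ H.card := by
    rw [hH]
    exact Nat.le_mul_of_pos_left _ (by norm_num)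
  by_cases haz : a = z1
  · subst haz
    have hH2 : 1 < H.card := by
      nlinarith [Nat.zero_le k0, Nat.zero_le n, Nat.zero_le (k0 * n)]
    obtain ⟨x1, hx1, y1, hy1, hxy1⟩ := Finset.one_lt_card.1 hH2
    have hne : (levels U H).Nonempty :=
      ⟨U.dl x1 y1, Finset.mem_image.2 ⟨(x1, y1), Finset.mem_offDiag.2 ⟨hx1, hy1, hxy1⟩, rfl⟩⟩
    obtain ⟨l, hlmem, hlmin⟩ : ∃ l ∈ levels U H, ∀ j ∈ levels U H, l ≤ j :=
      ⟨(levels U H).min' hne, Finset.min'_mem _ _, fun j hj => Finset.min'_le _ _ hj⟩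
    obtain ⟨⟨x0, y0⟩, hp, hl⟩ := Finset.mem_image.1 hlmem
    obtain ⟨hx0, hy0, hxy⟩ := Finset.mem_offDiag.1 hp
    simp only at hx0 hy0 hxy hl
    have hmin : ∀ x ∈ H, ∀ y ∈ H, x ≠ y → l ≤ U.dl x y := fun x hx y hy hxy =>
      hlmin _ (Finset.mem_image.2 ⟨(x, y), Finset.mem_offDiag.2 ⟨hx, hy, hxy⟩, rfl⟩)
    have hlm : l < m := by
      rw [← hl]
      exact Mono3_lt U hxy
    have h6 := Mono3_three h4 U χ φ z0 a a ha hχ hlm hmin
    have h7 : H.card ≤ 15 * (H.image (fun x => U.dg x l)).card :=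
      Finset.card_le_mul_card_image H 15
        (fun u _ => Mono3_two h1 h5 U χ φ z0 a hz ha hφ4 hx0 hy0 hxy hl hmin u)
    have h8 : 16 * (k0 + 1) ≤ 16 * ((k0 + 1) * (n + 4)) :=
      Nat.mul_le_mul_left _ (Nat.le_mul_of_pos_right _ (by omega))
    omega
  · obtain ⟨L, hLm, hLc, hLB⟩ := Mono3_chain h1 U χ φ z0 z1 a (Finset.Subset.refl H) ha
      (Mono3_one h3 h4 U χ φ z0 z1 a ha hχ haz n H (Finset.Subset.refl H) (by
        nlinarith [Nat.zero_le k0, Nat.zero_le n, Nat.zero_le (k0 * n)]))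
    exact hφ L hLm hLc ⟨a, hLB⟩

end Pool.Agent.H40.HT
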