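import Pool.Agent.H40.HT.Stm4

/-!
# SL1: a set which is not a star at a node (project HT of helper40; proof by helper384)
-/

namespace Pool.Agent.H40.HT

open Finset Pool.Agent.H40.HL

section SL13

variable {V D κ : Type} [DecidableEq V] [DecidableEq D] [DecidableEq κ] {m : ℕ}

theorem SL13_u1 (U : UT V D m) {l : ℕ} {x y z : V} (h1 : l ≤ U.dl x y) (h2 : l ≤ U.dl y z) :
    l ≤ U.dl x z :=
  le_trans (le_min h1 h2) (U.ultra x y z)

theorem SL13_u2 (U : UT V D m) {x y z : V} (h : U.dl x z < U.dl y z) : U.dl x y = U.dl x z := by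
  have h1 := U.ultra x y z
  have h2 := U.ultra x z y
  rw [U.comm z y] at h2
  rw [min_le_iff] at h1 h2
  omega

/-- constant colour -/
theorem SL13_const (U : UT V D m) (χ : Finset D → κ) (φ : Finset ℕ → κ) (z0 z1 : κ) (e : Finset V)
    (z : V) (l : ℕ)
    (h : ∀ v v', l ≤ U.dl v z → v ∉ e → l ≤ U.dl v' z → v' ∉ e →
      col U χ φ z0 z1 (insert v e) = col U χ φ z0 z1 (insert v' e)) :
    ∃ (c : κ) (a b : D), ∀ v, l ≤ U.dl v z → v ∉ e → col U χ φ z0 z1 (insert v e) ≠ c →
      U.dg v l = a ∨ U.dg v l = b := by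
  by_cases h0 : ∃ v0, l ≤ U.dl v0 z ∧ v0 ∉ e
  · obtain ⟨v0, h1, h2⟩ := h0
    refine ⟨col U χ φ z0 z1 (insert v0 e), U.dg z l, U.dg z l, fun v hv hve hc => ?_⟩
    exact absurd (h v v0 hv hve h1 h2) hc
  · refine ⟨z0, U.dg z l, U.dg z l, fun v hv hve hc => ?_⟩
    exact absurd ⟨v, hv, hve⟩ h0

/-- `dl` of an element of the node and an element outside -/
theorem SL13_out (U : UT V D m) {l : ℕ} {v x z : V} (hv : l ≤ U.dl v z) (hx : U.dl x z < l) :
    U.dl v x = U.dl x z := by
  rw [U.comm v x]
  exact SL13_u2 U (lt_of_lt_of_le hx hv)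

/-- `dl` of two elements of the node -/
theorem SL13_in (U : UT V D m) {l : ℕ} {v x z : V} (hv : l ≤ U.dl v z) (hx : l ≤ U.dl x z) :
    l ≤ U.dl v x := by
  rw [U.comm x z] at hx
  exact SL13_u1 U hv hx

/-- `dl` of two elements of the node with different digits -/
theorem SL13_dig (U : UT V D m) {l : ℕ} {v x z : V} (hl : l < m) (hv : l ≤ U.dl v z)
    (hx : l ≤ U.dl x z) (hd : U.dg v l ≠ U.dg x l) : U.dl v x = l := by
  have h1 := SL13_in U hv hx
  have h2 := (U.dg_iff v x l hl h1).not.1 hd
  omega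

end SL13

theorem sl13 (hnear : St_near) (hsame : St_same) (hK : St_constK) : St_sl13 := by
  intro V D κ _ _ _ m U χ φ z0 z1 s e z l hs hes hl hst
  have hne : e.Nonempty := by
    rw [← Finset.card_pos]
    omega
  by_cases hIn : ∀ x ∈ e, U.dl x z < l
  · -- Case 0
    apply SL13_const
    intro v v' hv hve hv' hve'
    apply hnear V D κ m U χ φ z0 z1 e v v' hne hve hve'
    · intro x hx
      rw [SL13_out U hv (hIn x hx), SL13_out U hv' (hIn x hx)]
    · intro x hx
      rw [SL13_out U hv (hIn x hx)]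
      exact lt_of_lt_of_le (hIn x hx) (SL13_in U hv hv')
  · push Not at hIn
    obtain ⟨x0, hx0, hx0l⟩ := hIn
    by_cases h3 : ∃ x1 ∈ e, ∃ x2 ∈ e, ∃ x3 ∈ e, l ≤ U.dl x1 z ∧ l ≤ U.dl x2 z ∧ l ≤ U.dl x3 z ∧
        U.dg x1 l ≠ U.dg x2 l ∧ U.dg x2 l ≠ U.dg x3 l ∧ U.dg x1 l ≠ U.dg x3 l
    · obtain ⟨x1, h1e, x2, h2e, x3, h3e, h1z, h2z, h3z, h12, h23, h13⟩ := h3
      have d12 := SL13_dig U hl h1z h2z h12
      have d23 := SL13_dig U hl h2z h3z h23
      have d13 := SL13_dig U hl h1z h3z h13
      have n12 : x1 ≠ x2 := fun h => h12 (by rw [h])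
      have n23 : x2 ≠ x3 := fun h => h23 (by rw [h])
      have n13 : x1 ≠ x3 := fun h => h13 (by rw [h])
      by_cases hw : ∃ w ∈ e, U.dl w z < l
      · obtain ⟨w, hwe, hwl⟩ := hw
        apply SL13_const
        intro v v' hv hve hv' hve'
        refine hK V D κ m U χ φ z0 z1 e z x1 w l h1e h1z hwe hwl ?_ v v' hv hve hv' hve'
        intro u _ _
        left
        refine ⟨x1, Finset.mem_insert_of_mem h1e, x2, Finset.mem_insert_of_mem h2e, x3,
          Finset.mem_insert_of_mem h3e, n12, n23, n13, ?_, ?_⟩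
        · rw [d12, d23]
        · rw [d12, d13]
      · push Not at hw
        have hcol : ∀ v, l ≤ U.dl v z → v ∉ e → col U χ φ z0 z1 (insert v e) = z1 := by
          intro v hv hve
          have hsub : ∀ t ∈ insert v e, l ≤ U.dl t z := by
            intro t ht
            rcases Finset.mem_insert.1 ht with rfl | ht
            · exact hv
            · exact hw t ht
          have hns : ¬ Star U (insert v e) := by
            rintro ⟨j, hj⟩
            have hjl : l = j := by
              rw [← d12]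
              exact hj x1 (Finset.mem_insert_of_mem h1e) x2 (Finset.mem_insert_of_mem h2e) n12
            apply hst
            refine ⟨hw, fun x hx y hy hxy => ?_⟩
            rw [hjl]
            exact hj x (Finset.mem_insert_of_mem hx) y (Finset.mem_insert_of_mem hy) hxy
          have hnt : ¬ Top U (insert v e) := by
            rintro ⟨t, ht, htop⟩
            have key : ∀ y ∈ e, ∀ y' ∈ e, y ≠ t → y' ≠ t → y ≠ y' → U.dl y y' = l → False := by
              intro y hy y' hy' hyt hyt' hyy' hd
              have h1 := htop y (Finset.mem_insert_of_mem hy) y' (Finset.mem_insert_of_mem hy')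
                hyt hyt' hyy'
              have h2 := SL13_in U (hsub t ht) (hw y hy)
              omega
            by_cases ht1 : x1 = t
            · exact key x2 h2e x3 h3e (fun h => n12 (ht1.trans h.symm))
                (fun h => n13 (ht1.trans h.symm)) n23 d23
            · by_cases ht2 : x2 = t
              · exact key x1 h1e x3 h3e ht1 (fun h => n23 (ht2.trans h.symm)) n13 d13
              · exact key x1 h1e x2 h2e ht1 ht2 n12 d12
          unfold col
          rw [if_neg hns, if_neg hnt]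
        refine ⟨z1, U.dg z l, U.dg z l, fun v hv hve hc => ?_⟩
        exact absurd (hcol v hv hve) hc
    · -- at most two digits
      have hQ : ∃ a b : D, ∀ x ∈ e, l ≤ U.dl x z → U.dg x l = a ∨ U.dg x l = b := by
        by_cases h2 : ∃ x1 ∈ e, l ≤ U.dl x1 z ∧ U.dg x1 l ≠ U.dg x0 l
        · obtain ⟨x1, h1e, h1z, h1d⟩ := h2
          refine ⟨U.dg x0 l, U.dg x1 l, fun x hx hxz => ?_⟩
          by_contra hcon
          push Not at hcon
          exact h3 ⟨x, hx, x0, hx0, x1, h1e, hxz, hx0l, h1z, hcon.1, fun h => h1d h.symm, hcon.2⟩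
        · push Not at h2
          exact ⟨U.dg x0 l, U.dg x0 l, fun x hx hxz => Or.inl (h2 x hx hxz)⟩
      obtain ⟨a, b, hab⟩ := hQ
      have hsm : ∀ v v', l ≤ U.dl v z → v ∉ e → (U.dg v l ≠ a ∧ U.dg v l ≠ b) →
          l ≤ U.dl v' z → v' ∉ e → (U.dg v' l ≠ a ∧ U.dg v' l ≠ b) →
          col U χ φ z0 z1 (insert v e) = col U χ φ z0 z1 (insert v' e) := by
        intro v v' hv hve hvd hv' hve' hvd'
        have hdl : ∀ u, l ≤ U.dl u z → (U.dg u l ≠ a ∧ U.dg u l ≠ b) → ∀ x ∈ e,
            l ≤ U.dl x z → U.dl u x = l := by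
          intro u hu hud x hx hxz
          apply SL13_dig U hl hu hxz
          intro h
          rcases hab x hx hxz with h1 | h1
          · exact hud.1 (h.trans h1)
          · exact hud.2 (h.trans h1)
        apply hsame V D κ m U χ φ z0 z1 e v v' hve hve'
        · intro x hx
          by_cases hxz : l ≤ U.dl x z
          · rw [hdl v hv hvd x hx hxz, hdl v' hv' hvd' x hx hxz]
          · rw [SL13_out U hv (not_le.1 hxz), SL13_out U hv' (not_le.1 hxz)]
        · rintro ⟨j, hj⟩
          have hvx : ∀ x ∈ e, U.dl v x = j := by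
            intro x hx
            refine hj v (Finset.mem_insert_self _ _) x (Finset.mem_insert_of_mem hx) ?_
            rintro rfl
            exact hve hx
          have hjl : j = l := by
            rw [← hvx x0 hx0]
            exact hdl v hv hvd x0 hx0 hx0l
          apply hst
          refine ⟨fun x hx => ?_, fun x hx y hy hxy => ?_⟩
          · have h1 : l ≤ U.dl x v := by
              rw [U.comm, hvx x hx, hjl]
            exact SL13_u1 U h1 hv
          · rw [← hjl]
            exact hj x (Finset.mem_insert_of_mem hx) y (Finset.mem_insert_of_mem hy) hxy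
      by_cases h0 : ∃ v0, l ≤ U.dl v0 z ∧ v0 ∉ e ∧ (U.dg v0 l ≠ a ∧ U.dg v0 l ≠ b)
      · obtain ⟨v0, h1, h2, h4⟩ := h0
        refine ⟨col U χ φ z0 z1 (insert v0 e), a, b, fun v hv hve hc => ?_⟩
        by_contra hcon
        push Not at hcon
        exact hc (hsm v v0 hv hve hcon h1 h2 h4)
      · refine ⟨z0, a, b, fun v hv hve hc => ?_⟩
        by_contra hcon
        push Not at hcon
        exact h0 ⟨v, hv, hve, hcon⟩

end Pool.Agent.H40.HT
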