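import Pool.Agent.H40.HT.Stm3

set_option autoImplicit false

/-! TPHI: the colouring of triples by cyclic triangles (helper539). -/

namespace Pool.Agent.H40.HT

open Finset Pool.Agent.H40.HL

theorem TPhi_lin {α : Type} [Fintype α] (R : α → α → Prop) (tot : ∀ a b, a ≠ b → R a b ∨ R b a)
    (asym : ∀ a b, R a b → ¬ R b a) (trans : ∀ a b c, R a b → R b c → R a c) (n : ℕ)
    (hn : Fintype.card α = n) : ∃ f : Fin n → α, Function.Injective f ∧ ∀ i j, i < j → R (f i) (f j) := by
  classical
  let lo : LinearOrder α :=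
    { le := fun a b => a = b ∨ R a b
      le_refl := fun a => Or.inl rfl
      le_trans := by
        rintro a b c (rfl | h1) (rfl | h2)
        · exact Or.inl rfl
        · exact Or.inr h2
        · exact Or.inr h1
        · exact Or.inr (trans a b c h1 h2)
      le_antisymm := by
        rintro a b (h1 | h1) (h2 | h2)
        · exact h1
        · exact h1
        · exact h2.symm
        · exact absurd h2 (asym a b h1)
      le_total := by
        intro a b
        by_cases h : a = b
        · exact Or.inl (Or.inl h)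
        · rcases tot a b h with h1 | h1
          · exact Or.inl (Or.inr h1)
          · exact Or.inr (Or.inr h1)
      toDecidableLE := Classical.decRel _ }
  let e := Fintype.orderIsoFinOfCardEq α hn
  refine ⟨fun i => e i, fun i j h => e.injective h, fun i j hij => ?_⟩
  have h1 : e i < e j := e.lt_iff_lt.2 hij
  rcases h1.le with h2 | h2
  · exact absurd h2 h1.ne
  · exact h2

theorem TPhi_no {N : ℕ} (T : Fin N → Fin N → Bool) (hT0 : ∀ a, T a a = false)
    (hT1 : ∀ a b, a ≠ b → T a b = !(T b a)) (x y z : Fin N) (hxy : x ≠ y) (hxz : x ≠ z) (hyz : y ≠ z)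
    (h : T x y = T x z) :
    ¬ ∃ a ∈ ({x, y, z} : Finset (Fin N)), ∃ b ∈ ({x, y, z} : Finset (Fin N)), ∃ c ∈ ({x, y, z} : Finset (Fin N)),
      T a b = true ∧ T b c = true ∧ T c a = true := by
  rintro ⟨a, ha, b, hb, c, hc, h1, h2, h3⟩
  rw [mem_insert, mem_insert, mem_singleton] at ha hb hc
  have e1 := hT0 x
  have e2 := hT0 y
  have e3 := hT0 z
  have e4 := hT1 y x hxy.symm
  have e5 := hT1 z x hxz.symm
  have e6 := hT1 z y hyz.symm
  rw [← h] at e5
  have key : ∀ p q : Bool, T x y = p → T y z = q → False := by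
    intro p q hp hq
    have f1 : T x z = p := by rw [← h, hp]
    have f2 : T y x = !p := by rw [e4, hp]
    have f3 : T z x = !p := by rw [e5, hp]
    have f4 : T z y = !q := by rw [e6, hq]
    clear h e4 e5 e6 hT0 hT1
    rcases ha with rfl | rfl | rfl <;> rcases hb with rfl | rfl | rfl <;> rcases hc with rfl | rfl | rfl <;>
      simp only [e1, e2, e3, hp, hq, f1, f2, f3, f4] at h1 h2 h3 <;> subst_vars <;> simp_all
  exact key _ _ rfl rfl

theorem tphi (h : St_tourn) : St_tphi := by
  intro κ _ z0 z1 n N hz hN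
  obtain ⟨T, hT0, hT1, hT2⟩ := h n N hN
  classical
  refine ⟨fun B => if ∃ a ∈ B, ∃ b ∈ B, ∃ c ∈ B, T a b = true ∧ T b c = true ∧ T c a = true then z1 else z0, ?_, ?_, ?_⟩
  · intro B
    by_cases hB : ∃ a ∈ B, ∃ b ∈ B, ∃ c ∈ B, T a b = true ∧ T b c = true ∧ T c a = true
    · exact Or.inr (if_pos hB)
    · exact Or.inl (if_neg hB)
  · intro L hL hmono
    have hno : ∀ a ∈ L, ∀ b ∈ L, ∀ c ∈ L, T a b = true → T b c = true → T a c = true := by
      intro a ha b hb c hc h1 h2
      have hab : a ≠ b := by
        rintro rfl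
        rw [hT0] at h1
        exact Bool.false_ne_true h1
      have hbc : b ≠ c := by
        rintro rfl
        rw [hT0] at h2
        exact Bool.false_ne_true h2
      have hac : a ≠ c := by
        rintro rfl
        rw [hT1 a b hab, h2] at h1
        exact Bool.false_ne_true h1
      have h3 := hmono {a, b, c} (by
        intro x hx
        rw [mem_insert, mem_insert, mem_singleton] at hx
        rcases hx with rfl | rfl | rfl
        · exact ha
        · exact hb
        · exact hc) (Finset.card_eq_three.2 ⟨a, b, c, hab, hac, hbc, rfl⟩)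
      by_contra h4
      rw [Bool.not_eq_true] at h4
      have h5 : T c a = true := by
        rw [hT1 c a hac.symm, h4]
        rfl
      have h6 : ∃ a' ∈ ({a, b, c} : Finset (Fin N)), ∃ b' ∈ ({a, b, c} : Finset (Fin N)),
          ∃ c' ∈ ({a, b, c} : Finset (Fin N)), T a' b' = true ∧ T b' c' = true ∧ T c' a' = true :=
        ⟨a, by rw [mem_insert]; exact Or.inl rfl, b, by rw [mem_insert, mem_insert]; exact Or.inr (Or.inl rfl),
          c, by rw [mem_insert, mem_insert, mem_singleton]; exact Or.inr (Or.inr rfl), h1, h2, h5⟩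
      have h7 : (if ∃ a' ∈ ({a, b, c} : Finset (Fin N)), ∃ b' ∈ ({a, b, c} : Finset (Fin N)),
          ∃ c' ∈ ({a, b, c} : Finset (Fin N)), T a' b' = true ∧ T b' c' = true ∧ T c' a' = true then z1 else z0) = z1 :=
        if_pos h6
      exact hz ((h3.symm.trans h7))
    obtain ⟨f, hf1, hf2⟩ := TPhi_lin (α := {x // x ∈ L}) (fun a b => T a b = true)
      (fun a b hab => by
        have hab' : (a : Fin N) ≠ b := fun h => hab (Subtype.ext h)
        rw [hT1 b a hab'.symm]
        cases T a b
        · exact Or.inr rfl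
        · exact Or.inl rfl)
      (fun a b h1 h2 => by
        have hab' : (a : Fin N) ≠ b := by
          intro h
          rw [h, hT0] at h1
          exact Bool.false_ne_true h1
        rw [hT1 a b hab', h2] at h1
        exact Bool.false_ne_true h1)
      (fun a b c h1 h2 => hno a a.2 b b.2 c c.2 h1 h2) n (by rw [Fintype.card_coe]; exact hL)
    obtain ⟨i, j, hij, h8⟩ := hT2 (fun i => (f i : Fin N)) fun i j h => hf1 (Subtype.ext h)
    have h9 := hf2 i j hij
    rw [h8] at h9
    exact Bool.false_ne_true h9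
  · intro L hL hmono
    have hne : L.Nonempty := by
      rw [← Finset.card_pos, hL]
      norm_num
    obtain ⟨x, hx⟩ := hne
    have hc3 : (L.erase x).card = 3 := by
      rw [Finset.card_erase_of_mem hx, hL]
    obtain ⟨y1, y2, y3, h12, h13, h23, hE⟩ := Finset.card_eq_three.1 hc3
    have hy : ∀ y ∈ ({y1, y2, y3} : Finset (Fin N)), y ≠ x ∧ y ∈ L := by
      intro y hy
      rw [← hE, mem_erase] at hy
      exact hy
    have m1 := hy y1 (by rw [mem_insert]; exact Or.inl rfl)
    have m2 := hy y2 (by rw [mem_insert, mem_insert]; exact Or.inr (Or.inl rfl))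
    have m3 := hy y3 (by rw [mem_insert, mem_insert, mem_singleton]; exact Or.inr (Or.inr rfl))
    have key : ∀ y z : Fin N, y ≠ x → z ≠ x → y ≠ z → y ∈ L → z ∈ L → T x y = T x z → False := by
      intro y z hyx hzx hyz hyL hzL hT
      have h3 := hmono {x, y, z} (by
        intro w hw
        rw [mem_insert, mem_insert, mem_singleton] at hw
        rcases hw with rfl | rfl | rfl
        · exact hx
        · exact hyL
        · exact hzL) (Finset.card_eq_three.2 ⟨x, y, z, hyx.symm, hzx.symm, hyz, rfl⟩)
      have h4 := TPhi_no T hT0 hT1 x y z hyx.symm hzx.symm hyz hT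
      have h7 : (if ∃ a' ∈ ({x, y, z} : Finset (Fin N)), ∃ b' ∈ ({x, y, z} : Finset (Fin N)),
          ∃ c' ∈ ({x, y, z} : Finset (Fin N)), T a' b' = true ∧ T b' c' = true ∧ T c' a' = true then z1 else z0) = z0 :=
        if_neg h4
      exact hz (h7.symm.trans h3)
    by_cases g1 : T x y1 = T x y2
    · exact key y1 y2 m1.1 m2.1 h12 m1.2 m2.2 g1
    by_cases g2 : T x y1 = T x y3
    · exact key y1 y3 m1.1 m3.1 h13 m1.2 m3.2 g2
    · refine key y2 y3 m2.1 m3.1 h23 m2.2 m3.2 ?_
      revert g1 g2
      cases T x y1 <;> cases T x y2 <;> cases T x y3 <;> simp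

end Pool.Agent.H40.HT
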