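import Pool.Agent.H40.HT.Stm3

/-!
# Random tournaments by counting (helper231)
-/

namespace Pool.Agent.H40.HT

open Finset Pool.Agent.H40.HL

/-- functions which agree on `P` -/
theorem Tourn_count {S : Type} [Fintype S] [DecidableEq S] (P : Finset S) (B : Finset (S → Bool))
    (h : ∀ g ∈ B, ∀ g' ∈ B, ∀ s ∈ P, g s = g' s) : B.card * 2 ^ P.card ≤ 2 ^ Fintype.card S := by
  let F : B × (P → Bool) → (S → Bool) := fun q s => if hs : s ∈ P then q.2 ⟨s, hs⟩ else q.1.1 s
  have hF : Function.Injective F := by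
    rintro ⟨⟨g, hg⟩, u⟩ ⟨⟨g', hg'⟩, u'⟩ he
    have h1 : g = g' := by
      funext s
      by_cases hs : s ∈ P
      · exact h g hg g' hg' s hs
      · have h2 := congrFun he s
        simp only [F, dif_neg hs] at h2
        exact h2
    have h3 : u = u' := by
      funext s
      have h2 := congrFun he s
      simp only [F, dif_pos s.2] at h2
      exact h2
    subst h1
    subst h3
    rfl
  have h4 := Fintype.card_le_of_injective F hF
  rw [Fintype.card_prod, Fintype.card_coe, Fintype.card_fun, Fintype.card_fun, Fintype.card_coe,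
    Fintype.card_bool] at h4
  exact h4

/-- the tournament of a function -/
def Tourn_T {N : ℕ} (g : Sym2 (Fin N) → Bool) (a b : Fin N) : Bool :=
  if a < b then g s(a, b) else if b < a then !(g s(a, b)) else false

theorem Tourn_val {N : ℕ} {g : Sym2 (Fin N) → Bool} {a b : Fin N} (hab : a ≠ b)
    (h : Tourn_T g a b = true) : g s(a, b) = decide (a < b) := by
  unfold Tourn_T at h
  rcases lt_or_gt_of_ne hab with h1 | h1
  · rw [if_pos h1] at h
    rw [h, decide_eq_true h1]
  · rw [if_neg (not_lt.2 h1.le), if_pos h1, Bool.not_eq_true'] at h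
    rw [h, decide_eq_false (not_lt.2 h1.le)]

/-- TOURN -/
theorem tourn : St_tourn := by
  intro n N hnN
  by_contra hcon
  have hbad : ∀ g : Sym2 (Fin N) → Bool, ∃ f : Fin n → Fin N, Function.Injective f ∧
      ∀ i j, i < j → Tourn_T g (f i) (f j) = true := by
    intro g
    by_contra h
    apply hcon
    refine ⟨Tourn_T g, fun a => ?_, fun a b hab => ?_, fun f hf => ?_⟩
    · unfold Tourn_T
      rw [if_neg (lt_irrefl a), if_neg (lt_irrefl a)]
    · unfold Tourn_T
      rcases lt_or_gt_of_ne hab with h1 | h1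
      · rw [if_pos h1, if_neg (not_lt.2 h1.le), if_pos h1, Bool.not_not, Sym2.eq_swap]
      · rw [if_neg (not_lt.2 h1.le), if_pos h1, if_pos h1, Sym2.eq_swap]
    · by_contra h2
      apply h
      refine ⟨f, hf, fun i j hij => ?_⟩
      by_contra h3
      rw [Bool.not_eq_true] at h3
      exact h2 ⟨i, j, hij, h3⟩
  let Q : Finset (Sym2 (Fin n)) := univ.offDiag.image (fun p => s(p.1, p.2))
  have hQ : Q.card = n.choose 2 := by
    have h1 := Sym2.card_image_offDiag (univ : Finset (Fin n))
    rw [card_univ, Fintype.card_fin] at h1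
    exact h1
  let Bd : (Fin n → Fin N) → Finset (Sym2 (Fin N) → Bool) := fun f =>
    univ.filter (fun g => ∀ i j, i < j → Tourn_T g (f i) (f j) = true)
  have hB : ∀ f : Fin n → Fin N, Function.Injective f →
      (Bd f).card * 2 ^ (n.choose 2) ≤ 2 ^ Fintype.card (Sym2 (Fin N)) := by
    intro f hf
    have h1 := Tourn_count (Q.image (Sym2.map f)) (Bd f) (by
      intro g hg g' hg' s hs
      obtain ⟨q, hq, rfl⟩ := mem_image.1 hs
      obtain ⟨⟨i, j⟩, hij, rfl⟩ := mem_image.1 hq
      rw [mem_offDiag] at hij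
      have hne : i ≠ j := hij.2.2
      rw [mem_filter] at hg hg'
      change g s(f i, f j) = g' s(f i, f j)
      rcases lt_or_gt_of_ne hne with h2 | h2
      · have hfij : f i ≠ f j := fun e => hne (hf e)
        rw [Tourn_val hfij (hg.2 i j h2), Tourn_val hfij (hg'.2 i j h2)]
      · have hfij : f j ≠ f i := fun e => hne (hf e).symm
        rw [Sym2.eq_swap, Tourn_val hfij (hg.2 j i h2), Tourn_val hfij (hg'.2 j i h2)])
    rw [card_image_of_injective _ (Sym2.map.injective hf), hQ] at h1
    exact h1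
  have hcov : (univ : Finset (Sym2 (Fin N) → Bool)) ⊆
      (univ.filter (fun f : Fin n → Fin N => Function.Injective f)).biUnion Bd := by
    intro g _
    obtain ⟨f, hf, h1⟩ := hbad g
    rw [mem_biUnion]
    exact ⟨f, mem_filter.2 ⟨mem_univ _, hf⟩, mem_filter.2 ⟨mem_univ _, h1⟩⟩
  have h1 := (card_le_card hcov).trans card_biUnion_le
  rw [card_univ, Fintype.card_fun, Fintype.card_bool] at h1
  have h2 : 2 ^ Fintype.card (Sym2 (Fin N)) * 2 ^ (n.choose 2) ≤
      N ^ n * 2 ^ Fintype.card (Sym2 (Fin N)) := by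
    calc 2 ^ Fintype.card (Sym2 (Fin N)) * 2 ^ (n.choose 2)
        ≤ (∑ f ∈ univ.filter (fun f : Fin n → Fin N => Function.Injective f), (Bd f).card) *
            2 ^ (n.choose 2) := Nat.mul_le_mul_right _ h1
      _ = ∑ f ∈ univ.filter (fun f : Fin n → Fin N => Function.Injective f),
            (Bd f).card * 2 ^ (n.choose 2) := sum_mul _ _ _
      _ ≤ ∑ f ∈ univ.filter (fun f : Fin n → Fin N => Function.Injective f),
            2 ^ Fintype.card (Sym2 (Fin N)) :=
          sum_le_sum fun f hf => hB f (mem_filter.1 hf).2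
      _ ≤ N ^ n * 2 ^ Fintype.card (Sym2 (Fin N)) := by
          rw [sum_const, smul_eq_mul]
          refine Nat.mul_le_mul_right _ ((card_le_univ _).trans ?_)
          rw [Fintype.card_fun, Fintype.card_fin, Fintype.card_fin]
  have h3 : 0 < 2 ^ Fintype.card (Sym2 (Fin N)) := by positivity
  have h4 : N ^ n * 2 ^ Fintype.card (Sym2 (Fin N)) <
      2 ^ (n.choose 2) * 2 ^ Fintype.card (Sym2 (Fin N)) := Nat.mul_lt_mul_of_pos_right hnN h3
  rw [mul_comm (2 ^ Fintype.card (Sym2 (Fin N)))] at h2
  omega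

end Pool.Agent.H40.HT
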