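import Pool.Agent.H40.HT.Stm3

/-!
# The statements on the Littlestone dimension of `col` for `s ≥ 3`
-/

namespace Pool.Agent.H40.HT

open Finset Pool.Agent.H40.HL

/-- SL1 for `s ≥ 3`. -/
def St_sl13 : Prop := ∀ (V D κ : Type) [DecidableEq V] [DecidableEq D] [DecidableEq κ] (m : ℕ)
  (U : UT V D m) (χ : Finset D → κ) (φ : Finset ℕ → κ) (z0 z1 : κ) (s : ℕ) (e : Finset V) (z : V)
  (l : ℕ), 3 ≤ s → e.card = s → l < m →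
  ¬ ((∀ x ∈ e, l ≤ U.dl x z) ∧ ∀ x ∈ e, ∀ y ∈ e, x ≠ y → U.dl x y = l) →
  ∃ (c : κ) (a b : D), ∀ v, l ≤ U.dl v z → v ∉ e → col U χ φ z0 z1 (insert v e) ≠ c →
    U.dg v l = a ∨ U.dg v l = b

/-- SL1S for `s ≥ 3`. -/
def St_sl1s3 : Prop := ∀ (V D κ : Type) [DecidableEq V] [DecidableEq D] [DecidableEq κ] (m : ℕ)
  (U : UT V D m) (χ : Finset D → κ) (φ : Finset ℕ → κ) (z0 z1 : κ) (s : ℕ) (e : Finset V) (z : V)
  (l : ℕ), 3 ≤ s → e.card = s → l < m → (∀ x ∈ e, l ≤ U.dl x z) →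
  (∀ x ∈ e, ∀ y ∈ e, x ≠ y → U.dl x y = l) →
  (e.image (fun x => U.dg x l)).card = s ∧ ∀ v, l ≤ U.dl v z → v ∉ e →
    (U.dg v l ∉ e.image (fun x => U.dg x l) →
      col U χ φ z0 z1 (insert v e) = χ (insert (U.dg v l) (e.image (fun x => U.dg x l)))) ∧
    (U.dg v l ∈ e.image (fun x => U.dg x l) → col U χ φ z0 z1 (insert v e) = z1)

/-- LDIM for `s ≥ 3`. -/
def St_ldim3 : Prop := ∀ (V D κ : Type) [Fintype V] [DecidableEq V] [Fintype D] [DecidableEq D]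
  [DecidableEq κ] (m : ℕ) (U : UT V D m) (χ : Finset D → κ) (φ : Finset ℕ → κ) (z0 z1 : κ)
  (s d0 : ℕ), 3 ≤ s → z0 ≠ z1 → (∀ g, χ g = z1 ∨ χ g = z0) →
  ¬ TreeE s χ z1 z0 (d0 + 1) (Finset.univ : Finset D) →
  ¬ Tree s (col U χ φ z0 z1) (m * (d0 + 2) + 1) (Finset.univ : Finset V)

end Pool.Agent.H40.HT
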