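import Pool.Agent.H40.HT.Comp
import Pool.Agent.H40.HT.Stm4

/-!
# The composition for `s = 3`
-/

namespace Pool.Agent.H40.HT

open Finset Pool.Agent.H40.HL

/-- **The composition of a base colouring and a colouring of the triples of levels.** -/
theorem comp3 (hld : St_ldim3) (hmono : St_mono3) (hwords : St_words) {q d0 k0 K n M m : ℕ}
    (hK : 1 ≤ K) (hbase : GoodE 3 d0 k0 K) (hm : m ≤ M) (hq : 2 ≤ q)
    (hφ : ∃ φ : Finset (Fin M) → Fin q, NoMono 2 φ n ∧
      ∃ z : Fin q, ∀ L : Finset (Fin M), L.card = 4 → ¬ ∀ B ⊆ L, B.card = 3 → φ B = z) :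
    Good 3 q (m * (d0 + 2)) (16 * ((k0 + 1) * (n + 4))) (K ^ m) := by
  classical
  obtain ⟨φ, hφ, z1, hφ4⟩ := hφ
  obtain ⟨z0, hz⟩ : ∃ z0 : Fin q, z0 ≠ z1 := by
    haveI : Nontrivial (Fin q) := Fin.nontrivial_iff_two_le.2 hq
    exact exists_ne z1
  obtain ⟨χ, hχ1, hχ2, hχ3⟩ := hbase (Fin q) z1 z0 hz.symm
  haveI : Inhabited (Fin K) := ⟨⟨0, hK⟩⟩
  obtain ⟨U⟩ := hwords (Fin K) m
  -- the colouring of sets of levels
  set φ' : Finset ℕ → Fin q := fun B => φ (Finset.univ.filter (fun i : Fin M => (i : ℕ) ∈ B))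
    with hφ'
  have hcardL : ∀ L ⊆ Finset.range m,
      (Finset.univ.filter (fun i : Fin M => (i : ℕ) ∈ L)).card = L.card := by
    intro L hL
    rw [← Finset.card_map Fin.valEmbedding]
    congr 1
    ext x
    simp only [Finset.mem_map, Finset.mem_filter, Finset.mem_univ, true_and,
      Fin.valEmbedding_apply]
    constructor
    · rintro ⟨i, hi, rfl⟩; exact hi
    · intro hx
      have := Finset.mem_range.1 (hL hx)
      exact ⟨⟨x, by omega⟩, hx, rfl⟩
  have htrans : ∀ L ⊆ Finset.range m, ∀ a : Fin q, (∀ B ⊆ L, B.card = 3 → φ' B = a) →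
      ∀ g ⊆ Finset.univ.filter (fun i : Fin M => (i : ℕ) ∈ L), g.card = 3 → φ g = a := by
    intro L hL a ha g hg hgc
    have h1 : g.map Fin.valEmbedding ⊆ L := by
      intro x hx
      rw [Finset.mem_map] at hx
      obtain ⟨i, hi, rfl⟩ := hx
      have := hg hi
      simpa using this
    have h2 := ha (g.map Fin.valEmbedding) h1 (by rw [Finset.card_map]; omega)
    have h3 : Finset.univ.filter (fun i : Fin M => (i : ℕ) ∈ g.map Fin.valEmbedding) = g := by
      ext i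
      simp only [Finset.mem_filter, Finset.mem_univ, true_and, Finset.mem_map,
        Fin.valEmbedding_apply]
      constructor
      · rintro ⟨j, hj, hji⟩
        rwa [Fin.ext hji] at hj
      · intro hi; exact ⟨i, hi, rfl⟩
    rw [hφ'] at h2
    simp only [h3] at h2
    exact h2
  have hφ2 : ∀ L ⊆ Finset.range m, L.card = n →
      ¬ ∃ a : Fin q, ∀ B ⊆ L, B.card = 3 → φ' B = a := by
    rintro L hL hLc ⟨a, ha⟩
    exact hφ _ ((hcardL L hL).trans hLc) ⟨a, fun g hg hgc => htrans L hL a ha g hg hgc⟩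
  have hφ3 : ∀ L ⊆ Finset.range m, L.card = 4 → ¬ ∀ B ⊆ L, B.card = 3 → φ' B = z1 := by
    intro L hL hLc ha
    exact hφ4 _ ((hcardL L hL).trans hLc) (htrans L hL z1 ha)
  have hN : Fintype.card (Fin m → Fin K) = K ^ m := by simp
  set f : Fin (K ^ m) ≃ (Fin m → Fin K) := (finCongr hN.symm).trans (Fintype.equivFin _).symm
    with hf
  refine ⟨fun R => col U χ φ' z0 z1 (R.map f.toEmbedding), ?_, ?_⟩
  · intro hT
    have h1 := Comp_tree_map f (col U χ φ' z0 z1) 3 _ _ hT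
    exact hld (Fin m → Fin K) (Fin K) (Fin q) m U χ φ' z0 z1 3 d0 le_rfl hz hχ1 hχ3
      (h1.mono (Finset.subset_univ _))
  · exact Comp_noMono_map f _ 3 _
      (hmono (Fin m → Fin K) (Fin K) (Fin q) m U χ φ' z0 z1 k0 n hz hχ2 hφ2 hφ3)

end Pool.Agent.H40.HT
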