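import Pool.Agent.H40.HT.Gen
import Pool.Agent.H40.HT.Comp3

/-!
# Explicit range for `s = 3`
-/

namespace Pool.Agent.H40.HT

open Finset Filter Pool.Agent.H40.HL Pool.Agent.TH138.NF Pool.Agent.Q216.TI

theorem TowC3_noMono {q d n : ℕ} (hn : 4 ≤ n) (z0 z1 : Fin q) (φ : Finset (Fin d) → Fin q)
    (h1 : ∀ B, φ B = z0 ∨ φ B = z1)
    (h2 : ∀ L : Finset (Fin d), L.card = n → ¬ ∀ B ⊆ L, B.card = 3 → φ B = z0)
    (h3 : ∀ L : Finset (Fin d), L.card = 4 → ¬ ∀ B ⊆ L, B.card = 3 → φ B = z1) :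
    NoMono 2 φ n := by
  rintro L hL ⟨a, ha⟩
  obtain ⟨B, hB, hBc⟩ := Finset.exists_subset_card_eq (s := L) (n := 3) (by omega)
  rcases h1 B with h | h
  · refine h2 L hL (fun g hg hgc => ?_)
    rw [ha g hg (by omega), ← h, ha B hB (by omega)]
  · obtain ⟨L', hL', hLc⟩ := Finset.exists_subset_card_eq (s := L) (n := 4) (by omega)
    refine h3 L' hLc (fun g hg hgc => ?_)
    rw [ha g (hg.trans hL') (by omega), ← h, ha B hB (by omega)]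

theorem TowC3_range (htphi : St_tphi) (q : ℕ) (hq : 2 ≤ q) (a b : ℝ) (hb : 0 < b)
    (hab : b < a) : ∃ k₀ : ℕ, ∀ k : ℕ, k₀ ≤ k → ∀ d : ℕ, (d : ℝ) ≤ tow 1 ((k : ℝ) ^ b) →
      ∃ φ : Finset (Fin d) → Fin q, NoMono 2 φ ⌊(k : ℝ) ^ a⌋₊ ∧
        ∃ z : Fin q, ∀ L : Finset (Fin d), L.card = 4 → ¬ ∀ B ⊆ L, B.card = 3 → φ B = z := by
  obtain ⟨k1, hk1⟩ := Asym_floor a ((a + b) / 2) (by linarith) (by linarith)
  have ev : ∀ᶠ k : ℕ in atTop, (6 : ℝ) ≤ (k : ℝ) ^ ((a - b) / 2) :=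
    ((tendsto_rpow_atTop (by linarith : 0 < (a - b) / 2)).comp
      tendsto_natCast_atTop_atTop).eventually_ge_atTop _
  obtain ⟨k2, hk2⟩ := Filter.eventually_atTop.1 ev
  refine ⟨max (max k1 k2) 1, fun k hk d hd => ?_⟩
  obtain ⟨_, h2, _⟩ := hk1 k (le_trans (le_trans (le_max_left _ _) (le_max_left _ _)) hk)
  have h3 := hk2 k (le_trans (le_trans (le_max_right _ _) (le_max_left _ _)) hk)
  have hk1' : 1 ≤ k := le_trans (le_max_right _ _) hk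
  have hkp : (0 : ℝ) < k := by exact_mod_cast hk1'
  have hk1r : (1 : ℝ) ≤ k := by exact_mod_cast hk1'
  set n : ℕ := ⌊(k : ℝ) ^ a⌋₊ with hn
  have hkb : (1 : ℝ) ≤ (k : ℝ) ^ b := Real.one_le_rpow hk1r hb.le
  have h4 : (k : ℝ) ^ ((a + b) / 2) = (k : ℝ) ^ ((a - b) / 2) * (k : ℝ) ^ b := by
    rw [← Real.rpow_add hkp]; congr 1; ring
  have h5 : 6 * (k : ℝ) ^ b ≤ n := by
    refine le_trans ?_ h2
    rw [h4]
    exact mul_le_mul_of_nonneg_right h3 (by linarith)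
  have hn4 : 4 ≤ n := by
    have : (4 : ℝ) ≤ n := by linarith
    exact_mod_cast this
  have hpow : d ^ n < 2 ^ (n.choose 2) := by
    have e1 : (d : ℝ) ≤ (2 : ℝ) ^ ((k : ℝ) ^ b) := by
      have : tow 1 ((k : ℝ) ^ b) = (2 : ℝ) ^ ((k : ℝ) ^ b) := by simp [tow]
      rwa [this] at hd
    have e2 : (d : ℝ) ^ n ≤ (2 : ℝ) ^ ((k : ℝ) ^ b * n) := by
      rw [Real.rpow_mul (by norm_num), Real.rpow_natCast]
      exact pow_le_pow_left₀ (by positivity) e1 n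
    have e3 : (k : ℝ) ^ b * n < (n.choose 2 : ℕ) := by
      rw [Nat.cast_choose_two]
      have hnp : (4 : ℝ) ≤ n := by exact_mod_cast hn4
      nlinarith
    have e4 : (2 : ℝ) ^ ((k : ℝ) ^ b * n) < (2 : ℝ) ^ (((n.choose 2 : ℕ) : ℝ)) :=
      Real.rpow_lt_rpow_of_exponent_lt (by norm_num) e3
    rw [Real.rpow_natCast] at e4
    have e5 : (d : ℝ) ^ n < 2 ^ (n.choose 2) := lt_of_le_of_lt e2 e4
    exact_mod_cast e5
  set z0 : Fin q := ⟨0, by omega⟩ with hz0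
  set z1 : Fin q := ⟨1, by omega⟩ with hz1
  have hz : z0 ≠ z1 := by
    intro h
    have := congrArg Fin.val h
    simp [hz0, hz1] at this
  obtain ⟨φ, hφ1, hφ2, hφ3⟩ := htphi (Fin q) z0 z1 n d hz hpow
  exact ⟨φ, TowC3_noMono hn4 z0 z1 φ hφ1 hφ2 hφ3, z1, hφ3⟩

end Pool.Agent.H40.HT
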