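import Pool.Agent.H40.HT.All
import Pool.Agent.H40.HT.TowC3
import Pool.Agent.H40.HT.TopEx3
import Pool.Agent.H40.HT.SL13
import Pool.Agent.H40.HT.SL1S3
import Pool.Agent.H40.HT.LDim3
import Pool.Agent.H40.HT.Bin
import Pool.Agent.H40.HT.Mono3
import Pool.Agent.H40.HT.Tourn
import Pool.Agent.H40.HT.TPhi

/-!
# The two theorems on large Littlestone dimension, all uniformities
-/

namespace Pool.Agent.H40.HT

open Finset Filter Pool.Agent.H40.HL Pool.Agent.TH138.NF Pool.Agent.Q216.TI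

/-- `s ≥ 3` and some colouring `φ` of the `s`-subsets of a set with `d` elements with `q` colours has no
one-coloured `n`-set; for `s = 3` moreover for some colour `z` no four elements have all their
triples of colour `z`.  So for `s ≥ 4` this says that `d` is smaller than the Ramsey number
`R_s(n; q) = R_s(n, …, n)`, and for `s = 3` that `d` is smaller than `R_3(4, n, …, n)` (`n ≥ 4`). -/
def BelowRamsey (s q d n : ℕ) : Prop :=
  3 ≤ s ∧ ∃ φ : Finset (Fin d) → Fin q, NoMono (s - 1) φ n ∧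
    (s = 3 → ∃ z : Fin q, ∀ L : Finset (Fin d), L.card = 4 → ¬ ∀ B ⊆ L, B.card = 3 → φ B = z)

theorem All3_ldim : St_ldim3 :=
  ldim3 (sl13 (near iso) (same iso) constK) sl1s3 (sl2 iso (near iso) (same iso) constK)

theorem All3_mono : St_mono3 := mono3 chainlev topex3 starset bin_chain

theorem All3_comp {q : ℕ} (hq : 2 ≤ q) : ∀ d0 k0 K n M m : ℕ, 1 ≤ K → GoodE 3 d0 k0 K → m ≤ M →
    (∃ φ : Finset (Fin M) → Fin q, NoMono 2 φ n ∧
      ∃ z : Fin q, ∀ L : Finset (Fin M), L.card = 4 → ¬ ∀ B ⊆ L, B.card = 3 → φ B = z) →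
    Good 3 q (m * (d0 + 2)) (16 * ((k0 + 1) * (n + 3 + 1))) (K ^ m) := by
  intro d0 k0 K n M m hK hE hm hφ
  exact comp3 All3_ldim All3_mono words hK hE hm hq hφ

theorem All3_pow_le {k : ℕ} (hk : 1 ≤ k) {x y : ℝ} (h : x ≤ y) :
    ⌊(k : ℝ) ^ x⌋₊ ≤ ⌊(k : ℝ) ^ y⌋₊ :=
  Nat.floor_le_floor (Real.rpow_le_rpow_of_exponent_le (by exact_mod_cast hk) h)

/-- **Sharp asymptotics in every uniformity `s + 1 ≥ 3`.** -/
theorem All3_sharp (s q : ℕ) (hs : 2 ≤ s) (hq : 2 ≤ q) (δ : ℝ) (hδ : 0 < δ) (hδ1 : δ ≤ 1) :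
    ∃ η : ℝ, 0 < η ∧ ∃ D k₀ : ℕ, ∀ d k : ℕ, D ≤ d → k₀ ≤ k →
      ((d : ℝ) ≤ tow (s - 2) ((k : ℝ) ^ η) ∨ BelowRamsey s q d ⌊(k : ℝ) ^ η⌋₊) →
      (s - δ) * d * Real.log k ≤ Real.log (largest s q d k) ∧
      largest s q d k ≤ largestI s q d k ∧
      Real.log (largestI s q d k) ≤ (s + δ) * d * Real.log k := by
  rcases Nat.lt_or_ge s 3 with h3 | h3
  · obtain rfl : s = 2 := by omega
    obtain ⟨η, hη, D, h⟩ := sharp 2 q (by omega) hq δ hδ hδ1
    refine ⟨η, hη, D, 1, fun d k hd hk hor => ?_⟩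
    have hdk : (d : ℝ) ≤ (k : ℝ) ^ η := by
      rcases hor with h1 | h1
      · simpa [tow] using h1
      · exact absurd h1.1 (by omega)
    obtain ⟨h1, h2⟩ := h d k hd hdk
    exact ⟨h1, largest_le_largestI (by omega) hk, h2⟩
  · rcases Nat.lt_or_ge s 4 with h4 | h4
    · obtain rfl : s = 3 := by omega
      obtain ⟨η, hη, D, k₀, h⟩ := Gen_sharp (goodE rande) 3 q 16 (by omega) hq _ (All3_comp hq)
        δ hδ hδ1
      obtain ⟨k1, hk1⟩ := TowC3_range (tphi tourn) q hq η (η / 2) (by positivity) (by linarith)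
      refine ⟨η / 2, by positivity, D, max k₀ (max k1 1), fun d k hd hk hor => ?_⟩
      have hk0 : k₀ ≤ k := le_trans (le_max_left _ _) hk
      have hkk1 : k1 ≤ k := le_trans (le_trans (le_max_left _ _) (le_max_right _ _)) hk
      have hk1' : 1 ≤ k := le_trans (le_trans (le_max_right _ _) (le_max_right _ _)) hk
      obtain ⟨h1, h2⟩ := h d k hd hk0 (by
        rcases hor with ht | ⟨_, φ, hφ, hz⟩
        · exact hk1 k hkk1 d ht
        · exact ⟨φ, Comp_noMono_mono hφ (All3_pow_le hk1' (by linarith)), hz rfl⟩)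
      exact ⟨h1, largest_le_largestI (by omega) hk1', h2⟩
    · obtain ⟨η, hη, D, k₀, h⟩ := All_sharp s q h4 hq δ hδ hδ1
      refine ⟨η, hη, D, k₀, fun d k hd hk hor => h d k hd hk ?_⟩
      rcases hor with ht | ⟨_, φ, hφ, _⟩
      · exact Or.inr ht
      · exact Or.inl ⟨φ, hφ⟩

/-- The lower bound half of the order of magnitude. -/
theorem All3_lower (s q : ℕ) (hs : 2 ≤ s) (hq : 2 ≤ q) (δ : ℝ) (hδ : 0 < δ) (hδ1 : δ ≤ 1) :
    ∃ a : ℝ, 0 < a ∧ ∃ k₀ : ℕ, ∀ d k : ℕ, k₀ ≤ k → 1 ≤ d →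
      ((d : ℝ) ≤ tow (s - 2) ((k : ℝ) ^ (1 - δ)) ∨ BelowRamsey s q d ⌊(k : ℝ) ^ (1 - δ)⌋₊) →
      a * d * Real.log k ≤ Real.log (largest s q d k) := by
  rcases Nat.lt_or_ge s 3 with h3 | h3
  · obtain rfl : s = 2 := by omega
    obtain ⟨a, ha, k₀, h⟩ := order 2 q (by omega) hq δ hδ hδ1
    refine ⟨a, ha, max k₀ 1, fun d k hk hd hor => h d k (le_trans (le_max_left _ _) hk) hd ?_⟩
    have hk1r : (1 : ℝ) ≤ k := by exact_mod_cast le_trans (le_max_right _ _) hk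
    have hdk : (d : ℝ) ≤ (k : ℝ) ^ (1 - δ) := by
      rcases hor with h1 | h1
      · simpa [tow] using h1
      · exact absurd h1.1 (by omega)
    refine hdk.trans (Real.rpow_le_rpow_of_exponent_le hk1r ?_)
    push_cast
    linarith
  · rcases Nat.lt_or_ge s 4 with h4 | h4
    · obtain rfl : s = 3 := by omega
      obtain ⟨a, ha, k₀, h⟩ := Gen_order (goodE rande) 3 q 16 (by omega) hq _ (All3_comp hq)
        (δ / 2) (by positivity) (by linarith)
      obtain ⟨k1, hk1⟩ := TowC3_range (tphi tourn) q hq (1 - δ / 2) (max (1 - δ) (1 / 4))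
        (lt_of_lt_of_le (by norm_num) (le_max_right _ _)) (max_lt (by linarith) (by linarith))
      refine ⟨a, ha, max k₀ (max k1 1), fun d k hk hd hor => ?_⟩
      have hk0 : k₀ ≤ k := le_trans (le_max_left _ _) hk
      have hkk1 : k1 ≤ k := le_trans (le_trans (le_max_left _ _) (le_max_right _ _)) hk
      have hk1' : 1 ≤ k := le_trans (le_trans (le_max_right _ _) (le_max_right _ _)) hk
      have hk1r : (1 : ℝ) ≤ k := by exact_mod_cast hk1'
      refine h d k hk0 hd ?_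
      rcases hor with ht | ⟨_, φ, hφ, hz⟩
      · refine hk1 k hkk1 d (ht.trans (tow_mono _ ?_))
        exact Real.rpow_le_rpow_of_exponent_le hk1r (le_max_left _ _)
      · exact ⟨φ, Comp_noMono_mono hφ (All3_pow_le hk1' (by linarith)), hz rfl⟩
    · obtain ⟨a, ha, b, hb, k₀, h⟩ := All_order s q h4 hq δ hδ hδ1
      refine ⟨a, ha, k₀, fun d k hk hd hor => (h d k hk hd ?_).1⟩
      rcases hor with ht | ⟨_, φ, hφ, _⟩
      · exact Or.inr ht
      · exact Or.inl ⟨φ, hφ⟩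

/-- **Order of magnitude in every uniformity `s + 1 ≥ 3`.** -/
theorem All3_order (s q : ℕ) (hs : 2 ≤ s) (hq : 2 ≤ q) (δ : ℝ) (hδ : 0 < δ) (hδ1 : δ ≤ 1) :
    ∃ a : ℝ, 0 < a ∧ ∃ b : ℝ, 0 < b ∧ ∃ k₀ : ℕ, ∀ d k : ℕ, k₀ ≤ k → 1 ≤ d →
      ((d : ℝ) ≤ (k : ℝ) ^ ((s : ℝ) - δ) ∨ (d : ℝ) ≤ tow (s - 2) ((k : ℝ) ^ (1 - δ)) ∨
        BelowRamsey s q d ⌊(k : ℝ) ^ (1 - δ)⌋₊) →
      a * d * Real.log k ≤ Real.log (largest s q d k) ∧
      largest s q d k ≤ largestI s q d k ∧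
      Real.log (largestI s q d k) ≤ b * d * Real.log k := by
  obtain ⟨a1, ha1, k1, h1⟩ := order s q (by omega) hq δ hδ hδ1
  obtain ⟨a2, ha2, k2, h2⟩ := All3_lower s q hs hq δ hδ hδ1
  refine ⟨min a1 a2, lt_min ha1 ha2, 2 * s + 3, by positivity, max (max k1 k2) (2 * q + 2),
    fun d k hk hd hor => ?_⟩
  have hkk1 : k1 ≤ k := le_trans (le_trans (le_max_left _ _) (le_max_left _ _)) hk
  have hkk2 : k2 ≤ k := le_trans (le_trans (le_max_right _ _) (le_max_left _ _)) hk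
  have hkq : 2 * q + 2 ≤ k := le_trans (le_max_right _ _) hk
  have hlk : 0 ≤ Real.log k := Real.log_natCast_nonneg k
  refine ⟨?_, largest_le_largestI (by omega) (by omega), Ord_upper s q hq d k hkq hd⟩
  rcases hor with h | h
  · refine le_trans ?_ (h1 d k hkk1 hd h)
    exact mul_le_mul_of_nonneg_right
      (mul_le_mul_of_nonneg_right (min_le_left _ _) (by positivity)) hlk
  · refine le_trans ?_ (h2 d k hkk2 hd h)
    exact mul_le_mul_of_nonneg_right
      (mul_le_mul_of_nonneg_right (min_le_right _ _) (by positivity)) hlk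

end Pool.Agent.H40.HT
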