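import Pool.Agent.H40.HT.Comp

/-!
# Asymptotics
-/

namespace Pool.Agent.H40.HT

open Finset Filter Pool.Agent.H40.HL Pool.Agent.TH138.NF Pool.Agent.Q216.TI

theorem Asym_good_mono {s q d k d' k' N : ℕ} (h : Good s q d k N) (hd : d ≤ d') (hk : k ≤ k') :
    Good s q d' k' N := by
  obtain ⟨c, h1, h2⟩ := h
  exact ⟨c, fun h3 => h1 (h3.anti (by omega)), Comp_noMono_mono h2 hk⟩

/-- Upper bound, for all large `d` and `k`. -/
theorem Asym_upper (s q : ℕ) (hq : 2 ≤ q) (δ : ℝ) (hδ : 0 < δ) :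
    ∃ D k₀ : ℕ, ∀ d k : ℕ, D ≤ d → k₀ ≤ k →
      Real.log (largestI s q d k) ≤ (s + δ) * d * Real.log k := by
  have hqp : (2 : ℝ) ≤ q := by exact_mod_cast hq
  have hlogk : Tendsto (fun k : ℕ => Real.log k) atTop atTop :=
    Real.tendsto_log_atTop.comp tendsto_natCast_atTop_atTop
  have ev2 : ∀ᶠ k : ℕ in atTop, 16 / δ + 6 * Real.log (2 * q) / δ + 6 * s / δ ≤ Real.log k :=
    hlogk.eventually_ge_atTop _
  obtain ⟨k1, hk1⟩ := Filter.eventually_atTop.1 ev2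
  refine ⟨⌈6 / δ⌉₊ + 1, max k1 3, ?_⟩
  intro d k hd hk
  have hk3 : 3 ≤ k := le_trans (le_max_right _ _) hk
  have hev2 := hk1 k (le_trans (le_max_left _ _) hk)
  have hk1' : 1 ≤ k := by omega
  have hkp : (0 : ℝ) < k := by exact_mod_cast hk1'
  have hlq : 0 ≤ Real.log (2 * q) := Real.log_nonneg (by linarith)
  have hlk16 : 16 / δ ≤ Real.log k := by
    have h1 : 0 ≤ 6 * Real.log (2 * q) / δ := by positivity
    have h2 : 0 ≤ 6 * (s : ℝ) / δ := by positivity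
    linarith
  have hlkpos : 0 < Real.log k := lt_of_lt_of_le (by positivity) hlk16
  refine (log_largestI_le (by omega) hk1').trans ?_
  have h1 : Real.log (2 * k) ≤ 2 * Real.log k := by
    have h2 : (2 * (k : ℝ)) ≤ k ^ 2 := by
      have : (3 : ℝ) ≤ k := by exact_mod_cast hk3
      nlinarith
    have h3 := Real.log_le_log (by positivity) h2
    rwa [Real.log_pow] at h3
  have h2 : Real.log ((k : ℝ) + 2) ≤ Real.log k + 1 := by
    have h3 : Real.log (((k : ℝ) + 2) / k) ≤ ((k : ℝ) + 2) / k - 1 :=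
      Real.log_le_sub_one_of_pos (by positivity)
    rw [Real.log_div (by positivity) (by positivity)] at h3
    have h4 : ((k : ℝ) + 2) / k - 1 ≤ 1 := by
      rw [sub_le_iff_le_add, div_le_iff₀ hkp]
      have : (3 : ℝ) ≤ k := by exact_mod_cast hk3
      linarith
    linarith
  have h3 : 6 / δ ≤ d := by
    have h4 : 6 / δ ≤ ⌈6 / δ⌉₊ := Nat.le_ceil _
    have h5 : ((⌈6 / δ⌉₊ : ℕ) : ℝ) ≤ d := by exact_mod_cast (by omega : ⌈6 / δ⌉₊ ≤ d)
    linarith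
  rw [div_le_iff₀ hδ] at h3
  have h4 : 6 * Real.log (2 * q) + 6 * s ≤ δ * Real.log k := by
    have h5 : (16 / δ + 6 * Real.log (2 * q) / δ + 6 * s / δ) * δ ≤ Real.log k * δ :=
      mul_le_mul_of_nonneg_right hev2 hδ.le
    have h6 : (16 / δ + 6 * Real.log (2 * q) / δ + 6 * s / δ) * δ =
        16 + 6 * Real.log (2 * q) + 6 * s := by field_simp
    rw [h6] at h5
    linarith
  have h5 : (d : ℝ) * (Real.log (2 * q) + s * Real.log (k + 2)) ≤
      d * (Real.log (2 * q) + s * (Real.log k + 1)) := by gcongr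
  have h6 : 2 * Real.log k ≤ δ / 3 * d * Real.log k := by nlinarith
  have h7 : (d : ℝ) * (Real.log (2 * q) + s) ≤ d * (δ / 6 * Real.log k) := by
    refine mul_le_mul_of_nonneg_left ?_ (by positivity)
    linarith
  have h8 : 0 ≤ δ * d * Real.log k := by positivity
  nlinarith

/-- The floor of a power. -/
theorem Asym_floor (a b : ℝ) (hb : 0 < b) (hab : b < a) : ∃ k₀ : ℕ, ∀ k : ℕ, k₀ ≤ k →
    b * Real.log k ≤ Real.log (⌊(k : ℝ) ^ a⌋₊ : ℕ) ∧ (k : ℝ) ^ b ≤ (⌊(k : ℝ) ^ a⌋₊ : ℕ) ∧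
    1 ≤ ⌊(k : ℝ) ^ a⌋₊ := by
  have ev : ∀ᶠ k : ℕ in atTop, (2 : ℝ) ≤ (k : ℝ) ^ (a - b) :=
    ((tendsto_rpow_atTop (by linarith : 0 < a - b)).comp
      tendsto_natCast_atTop_atTop).eventually_ge_atTop _
  obtain ⟨k₀, hk₀⟩ := Filter.eventually_atTop.1 ev
  refine ⟨max k₀ 1, fun k hk => ?_⟩
  have h1 := hk₀ k (le_trans (le_max_left _ _) hk)
  have hk1 : 1 ≤ k := le_trans (le_max_right _ _) hk
  have hkp : (0 : ℝ) < k := by exact_mod_cast hk1
  have hk1r : (1 : ℝ) ≤ k := by exact_mod_cast hk1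
  have h2 : (k : ℝ) ^ a = (k : ℝ) ^ b * (k : ℝ) ^ (a - b) := by
    rw [← Real.rpow_add hkp]; congr 1; ring
  have h3 : (1 : ℝ) ≤ (k : ℝ) ^ b := Real.one_le_rpow hk1r hb.le
  have h4 : (k : ℝ) ^ b + 1 ≤ (k : ℝ) ^ a := by rw [h2]; nlinarith
  have h5 : (k : ℝ) ^ b ≤ (⌊(k : ℝ) ^ a⌋₊ : ℕ) := by
    have := Nat.lt_floor_add_one ((k : ℝ) ^ a)
    linarith
  refine ⟨?_, h5, ?_⟩
  · rw [← Real.log_rpow hkp]
    exact Real.log_le_log (by positivity) h5
  · have : (1 : ℝ) ≤ (⌊(k : ℝ) ^ a⌋₊ : ℕ) := le_trans h3 h5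
    exact_mod_cast this

/-- **Sharp asymptotics up to the Ramsey number of the sets of levels.** -/
theorem Asym_sharp (hld : St_ldim) (hmono : St_mono) (hwords : St_words) (hge : St_goodE)
    (s q : ℕ) (hs : 4 ≤ s) (hq : 2 ≤ q) (δ : ℝ) (hδ : 0 < δ) (hδ1 : δ ≤ 1) :
    ∃ η : ℝ, 0 < η ∧ ∃ D k₀ : ℕ, ∀ d k : ℕ, D ≤ d → k₀ ≤ k →
      (∃ φ : Finset (Fin d) → Fin q, NoMono (s - 1) φ ⌊(k : ℝ) ^ η⌋₊) →
      (s - δ) * d * Real.log k ≤ Real.log (largest s q d k) ∧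
      Real.log (largestI s q d k) ≤ (s + δ) * d * Real.log k := by
  have hsp : (4 : ℝ) ≤ s := by exact_mod_cast hs
  obtain ⟨Du, ku, hup⟩ := Asym_upper s q hq δ hδ
  obtain ⟨D0, hD0⟩ := hge s (by omega) (δ / 4) (by positivity) (by linarith)
  set d0 : ℕ := max D0 ⌈8 * s / δ⌉₊ + 1 with hd0
  obtain ⟨kE, hkE⟩ := hD0 d0 (by rw [hd0]; exact le_trans (le_max_left _ _) (Nat.le_succ _))
  have hd0r : 8 * s / δ ≤ d0 := by
    have h1 : 8 * s / δ ≤ ⌈8 * s / δ⌉₊ := Nat.le_ceil _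
    have h2 : ⌈8 * s / δ⌉₊ ≤ d0 := by
      rw [hd0]; exact le_trans (le_max_right _ _) (Nat.le_succ _)
    have h3 : ((⌈8 * s / δ⌉₊ : ℕ) : ℝ) ≤ d0 := by exact_mod_cast h2
    linarith
  have hd0p : (0 : ℝ) < d0 := lt_of_lt_of_le (by positivity) hd0r
  set η : ℝ := δ / (16 * s) with hη
  have hηp : 0 < η := by positivity
  have hη64 : η ≤ 1 / 64 := by
    rw [hη, div_le_iff₀ (by positivity)]; linarith
  have hηs : η * s = δ / 16 := by rw [hη]; field_simp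
  obtain ⟨k1, hk1⟩ := Asym_floor (1 - 2 * η) (1 - 3 * η) (by linarith) (by linarith)
  have evA : ∀ᶠ k : ℕ in atTop, ((s : ℝ) + 4) ≤ (k : ℝ) ^ η :=
    ((tendsto_rpow_atTop hηp).comp tendsto_natCast_atTop_atTop).eventually_ge_atTop _
  have evB : ∀ᶠ k : ℕ in atTop, (kE : ℝ) ≤ (k : ℝ) ^ (1 - 3 * η) :=
    ((tendsto_rpow_atTop (by linarith : 0 < 1 - 3 * η)).comp
      tendsto_natCast_atTop_atTop).eventually_ge_atTop _
  obtain ⟨k2, hk2⟩ := Filter.eventually_atTop.1 (evA.and evB)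
  refine ⟨η, hηp, max Du ⌈(d0 + 2) * (8 * s / δ)⌉₊, max (max ku k1) (max k2 2), ?_⟩
  intro d k hd hk hφ
  have hdu : Du ≤ d := le_trans (le_max_left _ _) hd
  have hdr : (d0 + 2) * (8 * s / δ) ≤ (d : ℝ) := by
    have h1 : (d0 + 2) * (8 * s / δ) ≤ (⌈(d0 + 2) * (8 * s / δ)⌉₊ : ℕ) := Nat.le_ceil _
    have h2 : ⌈(d0 + 2) * (8 * s / δ)⌉₊ ≤ d := le_trans (le_max_right _ _) hd
    have h3 : ((⌈(d0 + 2) * (8 * s / δ)⌉₊ : ℕ) : ℝ) ≤ d := by exact_mod_cast h2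
    linarith
  have hku : ku ≤ k := le_trans (le_trans (le_max_left _ _) (le_max_left _ _)) hk
  have hkk1 : k1 ≤ k := le_trans (le_trans (le_max_right _ _) (le_max_left _ _)) hk
  have hkk2 : k2 ≤ k := le_trans (le_trans (le_max_left _ _) (le_max_right _ _)) hk
  have hk2' : 2 ≤ k := le_trans (le_trans (le_max_right _ _) (le_max_right _ _)) hk
  refine ⟨?_, hup d k hdu hku⟩
  have hkp : (0 : ℝ) < k := by exact_mod_cast (by omega : 0 < k)
  have hk1r : (1 : ℝ) < k := by exact_mod_cast (by omega : 1 < k)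
  have hlk : 0 < Real.log k := Real.log_pos hk1r
  obtain ⟨hA, hB⟩ := hk2 k hkk2
  obtain ⟨hf1, hf2, hf3⟩ := hk1 k hkk1
  set kb : ℕ := ⌊(k : ℝ) ^ (1 - 2 * η)⌋₊ with hkb
  set n : ℕ := ⌊(k : ℝ) ^ η⌋₊ with hn
  have hkEb : kE ≤ kb := by
    have : (kE : ℝ) ≤ kb := le_trans hB hf2
    exact_mod_cast this
  obtain ⟨K, hK1, hK2, hK3⟩ := hkE kb hkEb
  have hsize : (kb + 1) * (n + s + 1) ≤ k := by
    have h1 : (kb : ℝ) ≤ (k : ℝ) ^ (1 - 2 * η) := Nat.floor_le (by positivity)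
    have h2 : (n : ℝ) ≤ (k : ℝ) ^ η := Nat.floor_le (by positivity)
    have h3 : (1 : ℝ) ≤ (k : ℝ) ^ (1 - 2 * η) := Real.one_le_rpow hk1r.le (by linarith)
    have h4 : ((kb : ℝ) + 1) * (n + s + 1) ≤ (2 * (k : ℝ) ^ (1 - 2 * η)) * (2 * (k : ℝ) ^ η) := by
      refine mul_le_mul (by linarith) (by linarith) (by positivity) (by positivity)
    have h5 : (2 * (k : ℝ) ^ (1 - 2 * η)) * (2 * (k : ℝ) ^ η) = 4 * (k : ℝ) ^ (1 - η) := by
      have : (k : ℝ) ^ (1 - 2 * η) * (k : ℝ) ^ η = (k : ℝ) ^ (1 - η) := by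
        rw [← Real.rpow_add hkp]; congr 1; ring
      linear_combination 4 * this
    have h6 : (4 : ℝ) * (k : ℝ) ^ (1 - η) ≤ k := by
      have h7 : (k : ℝ) ^ η * (k : ℝ) ^ (1 - η) = k := by
        rw [← Real.rpow_add hkp]
        rw [show η + (1 - η) = 1 by ring, Real.rpow_one]
      have h8 : (4 : ℝ) ≤ (k : ℝ) ^ η := by linarith
      have h9 : (0 : ℝ) < (k : ℝ) ^ (1 - η) := by positivity
      nlinarith
    have h10 : (((kb + 1) * (n + s + 1) : ℕ) : ℝ) ≤ k := by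
      push_cast
      linarith
    exact_mod_cast h10
  set m : ℕ := d / (d0 + 2) with hm
  have hmd : m * (d0 + 2) ≤ d := Nat.div_mul_le_self _ _
  have hmd2 : d < (m + 1) * (d0 + 2) := by
    rw [hm]
    have h := Nat.lt_mul_div_succ d (show 0 < d0 + 2 by omega)
    rw [mul_comm]
    exact h
  have hmle : m ≤ d := Nat.div_le_self _ _
  have hgood : Good s q d k (K ^ m) :=
    Asym_good_mono (comp hld hmono hwords hs hq hK1 hK3 hmle hφ) hmd hsize
  have hKp : (0 : ℝ) < K := by exact_mod_cast hK1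
  have h1 : ((K ^ m : ℕ) : ℝ) ≤ largest s q d k := by exact_mod_cast le_largest hgood
  have h2 := Real.log_le_log (by positivity) h1
  push_cast at h2
  rw [Real.log_pow] at h2
  refine le_trans ?_ h2
  -- the computation
  have e1 : (1 - 3 * η) * Real.log k ≤ Real.log kb := hf1
  have hsd : (0 : ℝ) < s - δ / 4 := by linarith
  have e2 : (s - δ / 4) * d0 * ((1 - 3 * η) * Real.log k) ≤ Real.log K :=
    le_trans (mul_le_mul_of_nonneg_left e1 (by positivity)) hK2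
  have hdp : (0 : ℝ) < d := lt_of_lt_of_le (by positivity) hdr
  have e3 : (1 - δ / (8 * s)) * d ≤ m * (d0 + 2) := by
    have h3 : (d : ℝ) < (m + 1) * (d0 + 2) := by exact_mod_cast hmd2
    have h4 : ((d0 : ℝ) + 2) ≤ δ / (8 * s) * d := by
      have h5 : δ / (8 * s) * ((d0 + 2) * (8 * s / δ)) = d0 + 2 := by
        field_simp
      have h6 : δ / (8 * s) * ((d0 + 2) * (8 * s / δ)) ≤ δ / (8 * s) * d :=
        mul_le_mul_of_nonneg_left hdr (by positivity)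
      linarith
    nlinarith
  have e4 : (1 - δ / (4 * s)) * (d0 + 2) ≤ (d0 : ℝ) := by
    have h5 : 2 ≤ δ / (4 * s) * d0 := by
      have h6 : δ / (4 * s) * (8 * s / δ) = 2 := by field_simp; norm_num
      have h7 : δ / (4 * s) * (8 * s / δ) ≤ δ / (4 * s) * d0 :=
        mul_le_mul_of_nonneg_left hd0r (by positivity)
      linarith
    have h8 : (0 : ℝ) ≤ δ / (4 * s) := by positivity
    nlinarith
  have hx1 : δ / (8 * s) ≤ 1 / 32 := by
    rw [div_le_iff₀ (by positivity)]; linarith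
  have hx2 : δ / (4 * s) ≤ 1 / 16 := by
    rw [div_le_iff₀ (by positivity)]; linarith
  have e5 : (1 - δ / (8 * s)) * (1 - δ / (4 * s)) * d ≤ m * d0 := by
    have h3 : (1 - δ / (4 * s)) * ((1 - δ / (8 * s)) * d) ≤ (1 - δ / (4 * s)) * (m * (d0 + 2)) :=
      mul_le_mul_of_nonneg_left e3 (by linarith)
    have h4 : (m : ℝ) * ((1 - δ / (4 * s)) * (d0 + 2)) ≤ m * d0 :=
      mul_le_mul_of_nonneg_left e4 (by positivity)
    nlinarith
  have e6 : (s - δ) ≤ (1 - δ / (8 * s)) * (1 - δ / (4 * s)) * ((s - δ / 4) * (1 - 3 * η)) := by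
    set y : ℝ := δ / (16 * s) with hy
    have y1 : δ / (8 * s) = 2 * y := by rw [hy]; field_simp; norm_num
    have y2 : δ / (4 * s) = 4 * y := by rw [hy]; field_simp; norm_num
    have y3 : δ = 16 * (y * s) := by rw [hy]; field_simp
    have y0 : 0 < y := hηp
    rw [y1, y2]
    have y4 : (s : ℝ) - δ = s * (1 - 16 * y) := by rw [y3]; ring
    have y5 : (s : ℝ) - δ / 4 = s * (1 - 4 * y) := by rw [y3]; ring
    rw [y4, y5, hη]
    have y6 : (1 - 16 * y) ≤ (1 - 2 * y) * (1 - 4 * y) * ((1 - 4 * y) * (1 - 3 * y)) := by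
      have hy64 : y ≤ 1 / 64 := hη64
      nlinarith [mul_pos y0 y0, mul_pos (mul_pos y0 y0) y0, mul_pos (mul_pos y0 y0) (mul_pos y0 y0)]
    calc (s : ℝ) * (1 - 16 * y) ≤ s * ((1 - 2 * y) * (1 - 4 * y) * ((1 - 4 * y) * (1 - 3 * y))) :=
          mul_le_mul_of_nonneg_left y6 (by positivity)
      _ = _ := by ring
  calc (s - δ) * d * Real.log k
      ≤ ((1 - δ / (8 * s)) * (1 - δ / (4 * s)) * ((s - δ / 4) * (1 - 3 * η))) * d * Real.log k := by
        refine mul_le_mul_of_nonneg_right (mul_le_mul_of_nonneg_right e6 hdp.le) hlk.le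
    _ = ((1 - δ / (8 * s)) * (1 - δ / (4 * s)) * d) * ((s - δ / 4) * ((1 - 3 * η) * Real.log k)) := by
        ring
    _ ≤ (m * d0) * ((s - δ / 4) * ((1 - 3 * η) * Real.log k)) := by
        refine mul_le_mul_of_nonneg_right e5 ?_
        have : 0 < 1 - 3 * η := by linarith
        positivity
    _ = m * ((s - δ / 4) * d0 * ((1 - 3 * η) * Real.log k)) := by ring
    _ ≤ m * Real.log K := mul_le_mul_of_nonneg_left e2 (by positivity)

end Pool.Agent.H40.HT
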