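import Pool.Agent.H40.HT.Defs

/-!
# Statements (project HT of helper40)

Every statement is a `Prop`; the proof is in the docstring.  Notation: `dl x y` = `U.dl x y`.
The two facts used all the time:
(U1) if `l ≤ dl x y` and `l ≤ dl y z` then `l ≤ dl x z`  (`ultra`; also with `<`);
(U2) if `dl x z < dl y z` then `dl x y = dl x z` (by (U1) twice).
`dl x y < m` for `x ≠ y` (`le_m`, `eq_m`).
-/

namespace Pool.Agent.H40.HT

open Finset Pool.Agent.H40.HL

/-- ISO.  The colour of a set which is not a star is invariant under maps which preserve `dl`.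
Proof: `g` is injective on `R`: if `x ≠ y` in `R` and `g x = g y` then `dl (g x) (g y) = m` but
`dl x y < m`.  Hence `levels (R.image g) = levels R`, `Star`, `Top`, `NC` of `R.image g` are
equivalent to those of `R` (transport the witnesses by `g` and back), so `col` agrees (unfold `col`,
the `Star` case is excluded). -/
def St_iso : Prop := ∀ (V D κ : Type) [DecidableEq V] [DecidableEq D] [DecidableEq κ] (m : ℕ)
  (U : UT V D m) (χ : Finset D → κ) (φ : Finset ℕ → κ) (z0 z1 : κ) (R : Finset V) (g : V → V),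
  (∀ x ∈ R, ∀ y ∈ R, x ≠ y → U.dl (g x) (g y) = U.dl x y) → ¬ Star U R →
  col U χ φ z0 z1 (R.image g) = col U χ φ z0 z1 R

/-- NEAR.  If `v, v'` are not in `e` and have the same `dl` to all elements of `e`, smaller than
`dl v v'`, then `e ∪ {v}` and `e ∪ {v'}` have the same colour.
Proof: `dl v x = dl v' x` for all `x ∈ e`.  If `insert v e` is not a star use ISO (statement above;
for this task you may take `hiso : St_iso` as a hypothesis) with `g x = if x = v then v' else x`.
If `e = ∅` both sets are singletons, `Star` holds for both, `levels = ∅`, `sup = 0`, and the images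
are `{dg v 0}` and `{dg v' 0}`: this is why `e.Nonempty` is assumed.  If `insert v e` is a star with
level `j` then `insert v' e` is a star, `levels = {j}` for both (`e` is nonempty, so there is a pair),
`j = dl v x < dl v v'`, so `dg v j = dg v' j` by `dg_iff` (`j < m`), and the two images are equal. -/
def St_near : Prop := ∀ (V D κ : Type) [DecidableEq V] [DecidableEq D] [DecidableEq κ] (m : ℕ)
  (U : UT V D m) (χ : Finset D → κ) (φ : Finset ℕ → κ) (z0 z1 : κ) (e : Finset V) (v v' : V),
  e.Nonempty → v ∉ e → v' ∉ e → (∀ x ∈ e, U.dl v x = U.dl v' x) → (∀ x ∈ e, U.dl v x < U.dl v v') →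
  col U χ φ z0 z1 (insert v e) = col U χ φ z0 z1 (insert v' e)

/-- SAME.  If `v, v'` are not in `e` and have the same `dl` to all elements of `e`, and
`insert v e` is not a star, then the colours of `e ∪ {v}` and `e ∪ {v'}` are equal.
Proof: ISO with `g x = if x = v then v' else x`. -/
def St_same : Prop := ∀ (V D κ : Type) [DecidableEq V] [DecidableEq D] [DecidableEq κ] (m : ℕ)
  (U : UT V D m) (χ : Finset D → κ) (φ : Finset ℕ → κ) (z0 z1 : κ) (e : Finset V) (v v' : V),
  v ∉ e → v' ∉ e → (∀ x ∈ e, U.dl v x = U.dl v' x) → ¬ Star U (insert v e) →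
  col U χ φ z0 z1 (insert v e) = col U χ φ z0 z1 (insert v' e)

/-- CONSTK.  Let `Sub = {v | l ≤ dl v z}` be a node, `x ∈ e` in `Sub`, `w ∈ e` not in `Sub`, and suppose
`NC (insert v e)` for all `v ∈ Sub`, `v ∉ e`.  Then `col (insert v e)` is the same for all these `v`.
Proof.  (a) `insert v e` is not a star: `dl v x ≥ l > dl x w` (`dl x w < l` since otherwise
`w ∈ Sub`).  So `col (insert v e) = z0` if `Top (insert v e)` and `z1` otherwise.
(b) `Top (insert v e)` iff (*) there is `t ∈ e`, `t ∉ Sub`, with `dl t y < dl y z'` for all `y ≠ z'` in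
`e`, both `≠ t`; (*) does not depend on `v`.  [→] Let `t ∈ insert v e` be the witness of `Top`.  If
`t ∈ Sub`, choose `y ∈ {x, v}`, `y ≠ t`; then `dl t y ≥ l > dl y w`, contradiction with the property
of `t` for the pair `(y, w)` (`w ≠ t, y` as `w ∉ Sub`).  So `t ∉ Sub`, in particular `t ≠ v`, `t ∈ e`,
and the property restricts to `e`.  [←] Let `t` be as in (*).  For a pair `(v, z')`, `z' ∈ e`,
`z' ≠ t`: `dl t v = dl t x < l` (`t ∉ Sub`, (U2)); if `z' ∈ Sub` then `dl v z' ≥ l`; if `z' ∉ Sub` then
`dl v z' = dl x z'` and (*) for `(x, z')` gives `dl t x < dl x z'`.  For a pair `(y, v)`: if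
`y ∈ Sub` then `dl y v ≥ l > dl t y`; otherwise `dl y v = dl y x` and (*) for `(y, x)`. -/
def St_constK : Prop := ∀ (V D κ : Type) [DecidableEq V] [DecidableEq D] [DecidableEq κ] (m : ℕ)
  (U : UT V D m) (χ : Finset D → κ) (φ : Finset ℕ → κ) (z0 z1 : κ) (e : Finset V) (z x w : V)
  (l : ℕ), x ∈ e → l ≤ U.dl x z → w ∈ e → U.dl w z < l →
  (∀ v, l ≤ U.dl v z → v ∉ e → NC U (insert v e)) →
  ∀ v v', l ≤ U.dl v z → v ∉ e → l ≤ U.dl v' z → v' ∉ e →
  col U χ φ z0 z1 (insert v e) = col U χ φ z0 z1 (insert v' e)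

/-- SL1.  Let `Sub = {v | l ≤ dl v z}`, `l < m`, and let `e` be an `s`-set, `s ≥ 4`, which is not a star at
this node.  Then for all but at most two children of the node the colour of `e ∪ {v}` is the same `c`.
Proof.  Write `In = e ∩ Sub`.  (You may use `St_near`, `St_same`, `St_constK` as hypotheses.)
Case 0, `In = ∅`: for `v, v' ∈ Sub`, not in `e`, and `x ∈ e`: `dl x z < l`, so `dl v x = dl z x = dl v' x`
by (U2), and `dl v x < l ≤ dl v v'`; NEAR: constant.
Case 1, `In ≠ ∅`, and `v ∈ Sub` with digit `dg v l` not among the digits `Q = {dg x l : x ∈ In}`: then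
`dl v x = l` for `x ∈ In` (`dg_iff`) and `dl v x = dl z x` for `x ∈ e`, `x ∉ Sub`; `insert v e` is not
a star (otherwise its level is `l`, so `e ⊆ Sub` and `e` is a star at the node, excluded); so by
SAME the colour is the same `c` for all such `v`.  (If there is no such `v` take any `c`.)  If `Q` has at
most two elements, we are done.  If `Q` has at least three elements we show that the colour is the same
for ALL `v ∈ Sub`, `v ∉ e`; let `x1, x2, x3 ∈ In` have different digits, so `dl xi xj = l`.
Case 1a, some `w ∈ e` is not in `Sub`: `NC (insert v e)` by the three elements `xi`, so CONSTK applies.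
Case 1b, `e ⊆ Sub`: `insert v e` is not a star (it would be a star of level `l = dl x1 x2`, and `e` a star
at the node) and not `Top`: if `t` is the witness, two of the `xi`, say `y, y'`, are different from
`t`, and `dl t y < dl y y' = l`, but `t, y ∈ Sub` gives `dl t y ≥ l`.  So the colour is `z1`. -/
def St_sl1 : Prop := ∀ (V D κ : Type) [DecidableEq V] [DecidableEq D] [DecidableEq κ] (m : ℕ)
  (U : UT V D m) (χ : Finset D → κ) (φ : Finset ℕ → κ) (z0 z1 : κ) (s : ℕ) (e : Finset V) (z : V)
  (l : ℕ), 4 ≤ s → e.card = s → l < m →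
  ¬ ((∀ x ∈ e, l ≤ U.dl x z) ∧ ∀ x ∈ e, ∀ y ∈ e, x ≠ y → U.dl x y = l) →
  ∃ (c : κ) (a b : D), ∀ v, l ≤ U.dl v z → v ∉ e → col U χ φ z0 z1 (insert v e) ≠ c →
    U.dg v l = a ∨ U.dg v l = b

/-- SL1S.  The star case.  Let `e` be an `s`-set, `s ≥ 4`, in `Sub = {v | l ≤ dl v z}`, `l < m`, which is a
star at this node.  Then its elements have `s` different digits `dg x l`; if `v ∈ Sub`, `v ∉ e`, has a
new digit then `insert v e` is a star with `levels = {l}` and the colour is
`χ (insert (dg v l) (digits of e))`; if the digit of `v` is a digit of `e` then the colour is `z1`: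
`insert v e` is not a star (`dl v x > l` for the `x` with the same digit and `dl x y = l`), and not `Top`
(take three elements of `e`, they have pairwise `dl = l`; as in Case 1b of SL1). -/
def St_sl1s : Prop := ∀ (V D κ : Type) [DecidableEq V] [DecidableEq D] [DecidableEq κ] (m : ℕ)
  (U : UT V D m) (χ : Finset D → κ) (φ : Finset ℕ → κ) (z0 z1 : κ) (s : ℕ) (e : Finset V) (z : V)
  (l : ℕ), 4 ≤ s → e.card = s → l < m → (∀ x ∈ e, l ≤ U.dl x z) →
  (∀ x ∈ e, ∀ y ∈ e, x ≠ y → U.dl x y = l) →
  (e.image (fun x => U.dg x l)).card = s ∧ ∀ v, l ≤ U.dl v z → v ∉ e →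
    (U.dg v l ∉ e.image (fun x => U.dg x l) →
      col U χ φ z0 z1 (insert v e) = χ (insert (U.dg v l) (e.image (fun x => U.dg x l)))) ∧
    (U.dg v l ∈ e.image (fun x => U.dg x l) → col U χ φ z0 z1 (insert v e) = z1)

/-- SL2.  Two nodes `P = {v | l ≤ dl v z}`, `P' = {v | l ≤ dl v z'}` of the same depth, `dl z z' < l`,
and a set `e` with at least two elements.  Either the colour of `e ∪ {v}` is constant on `P` or constant on `P'`
(`v ∉ e`), or there are `c`, `x ∈ P`, `x' ∈ P'` such that every `v ∈ P ∪ P'`, `v ∉ e`, with colour `≠ c` lies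
in the child of `P` containing `x` or in the child of `P'` containing `x'`.
Proof.  (You may use `St_iso`, `St_near`, `St_same`, `St_constK` as hypotheses.)  If `e ∩ P = ∅` the colour
is constant on `P` by NEAR (Case 0 of SL1).  Same for `P'`.  Let `x ∈ e ∩ P`, `x' ∈ e ∩ P'`;
`j := dl x x' = dl z z' < l`.  If `NC (insert v e)` for all `v ∈ P`, `v ∉ e`: constant on `P` by
CONSTK (with `w = x'`).  Same for `P'`.  So let `v1 ∈ P`, `v1' ∈ P'`, not in `e`, with
`¬ NC (insert v1 e)`, `¬ NC (insert v1' e)`.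
(a) `e ∩ P = {x}`: if `y ∈ e ∩ P`, `y ≠ x`, then the pairs `x, y` and `x', v1'` witness
`NC (insert v1' e)` (`dl x x' = j < l ≤ dl x y`, `j < l ≤ dl x' v1'`).  Same: `e ∩ P' = {x'}`.
(b) for `y ∈ e`, `y ≠ x, x'`: `dl y x = dl y x' < j`.  Otherwise `dl y x ≥ j` and `dl y x' ≥ j`.  If both
are `= j`, then `x, x', y` witness `NC` of `insert v1 e`.  If `dl y x > j`: the pairs `x, y` and
`x', v1'` witness `NC (insert v1' e)`.  If `dl y x' > j`: the pairs `x', y` and `x, v1` witness
`NC (insert v1 e)`.
(c) Let `v ∈ P`, `v ∉ e`, `dl v x = l`.  `insert v e` is not a star (`dl v x = l > j = dl x x'`).  All such `v`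
have the same `dl` to the elements of `e`, so the same colour by SAME.  Same for `v' ∈ P'`,
`dl v' x' = l`.  And `col (insert v e) = col (insert v' e)`: apply ISO to `R = insert v e` and the map
`g`: `v ↦ v'`, `x ↦ x'`, `x' ↦ x`, identity otherwise; the image is `insert v' e`, and `g` preserves
`dl`: `dl v x = l = dl v' x'`, `dl v x' = j = dl v' x`, `dl x x' = j`, and `dl v y = dl x y = dl x' y =
dl v' y` for the other `y` (all `< j`).  So there is a common colour `c` for all these `v`, `v'` (if there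
are none take `c = z1`).  For `v ∈ P`, `v ∉ e`: `l ≤ dl v x`, so colour `≠ c` implies `l < dl v x`. -/
def St_sl2 : Prop := ∀ (V D κ : Type) [DecidableEq V] [DecidableEq D] [DecidableEq κ] (m : ℕ)
  (U : UT V D m) (χ : Finset D → κ) (φ : Finset ℕ → κ) (z0 z1 : κ) (e : Finset V) (z z' : V)
  (l : ℕ), 2 ≤ e.card → U.dl z z' < l →
  (∀ v v', l ≤ U.dl v z → v ∉ e → l ≤ U.dl v' z → v' ∉ e →
    col U χ φ z0 z1 (insert v e) = col U χ φ z0 z1 (insert v' e)) ∨
  (∀ v v', l ≤ U.dl v z' → v ∉ e → l ≤ U.dl v' z' → v' ∉ e →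
    col U χ φ z0 z1 (insert v e) = col U χ φ z0 z1 (insert v' e)) ∨
  ∃ (c : κ) (x x' : V), l ≤ U.dl x z ∧ l ≤ U.dl x' z' ∧
    (∀ v, l ≤ U.dl v z → v ∉ e → col U χ φ z0 z1 (insert v e) ≠ c → l < U.dl v x) ∧
    (∀ v, l ≤ U.dl v z' → v ∉ e → col U χ φ z0 z1 (insert v e) ≠ c → l < U.dl v x')

/-- LDIM.  The Littlestone dimension of `col` is at most `m (d0 + 2)`.
(helper40 proves this one from SL1, SL1S, SL2.) -/
def St_ldim : Prop := ∀ (V D κ : Type) [Fintype V] [DecidableEq V] [Fintype D] [DecidableEq D]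
  [DecidableEq κ] (m : ℕ) (U : UT V D m) (χ : Finset D → κ) (φ : Finset ℕ → κ) (z0 z1 : κ)
  (s d0 : ℕ), 4 ≤ s → z0 ≠ z1 → (∀ g, χ g = z1 ∨ χ g = z0) →
  ¬ TreeE s χ z1 z0 (d0 + 1) (Finset.univ : Finset D) →
  ¬ Tree s (col U χ φ z0 z1) (m * (d0 + 2) + 1) (Finset.univ : Finset V)

/-- CHAINLEV.  If `Chain U t H` then there is a set `L` of `t` levels of `H` such that every subset `B` of
`L` is the set of levels of a caterpillar `R ⊆ H` with `|B| + 1` elements.
Proof by induction on `t`.  `t = 0`: `L = ∅`, `B = ∅`, `R = {y}`; `levels {y} = ∅`; `NC` fails for a set with one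
element (`x ≠ y`); the last clause is void.  Step: `x ∈ H`, `Off U H x l`, `Chain U t (H.erase x)`; take
`L'` for `H.erase x` and `L = insert l L'`; `l ∉ L'` because all `dl y z`, `y ≠ z` in `H.erase x`, are
`> l`; `l ∈ levels H` as `H` has another element.  `B ⊆ L`: if `l ∉ B` then `B ⊆ L'` and use the induction
hypothesis.  If `l ∈ B` let `B' = B.erase l`, `R'` from the induction hypothesis (nonempty, `x ∉ R'`), and
`R = insert x R'`: `dl x y = l` for all `y ∈ R'` and `l < dl y z` for `y ≠ z` in `R'`; so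
`levels R = insert l (levels R')`; `Top R` by `x`; `¬ NC R`: a triple or a pair of pairs in `R'` is excluded;
a triple containing `x` has two of the three values `= l` and the third `> l`; a pair of pairs
`x1, y1 | z1, w1` with `dl x1 z1 < dl x1 y1`, `dl x1 z1 < dl z1 w1`: `x` is one of the four (otherwise it is
in `R'`), and then one of the two right-hand sides is `l`, but all values are `≥ l`. -/
def St_chainlev : Prop := ∀ (V D : Type) [DecidableEq V] [DecidableEq D] (m : ℕ)
  (U : UT V D m) (t : ℕ) (H : Finset V), Chain U t H →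
  ∃ L : Finset ℕ, L ⊆ levels U H ∧ L.card = t ∧ ∀ B ⊆ L, ∃ R ⊆ H, R.card = B.card + 1 ∧
    levels U R = B ∧ ¬ NC U R ∧ (B.Nonempty → Top U R)

/-- CATCHAIN.  A nonempty caterpillar can be dismantled completely.
Proof by induction on `|G|`.  `|G| = 1`: `Chain 0`.  `|G| ≥ 2`: let `l = min` of `dl x y` over `x ≠ y` in `G`,
`l = dl a b`.  For `y ∈ G`, `y ≠ a, b`: `dl a y ≥ l`, `dl b y ≥ l`, not both `= l` (no triple), and not both `> l` (else
`dl a b > l`).  If some `y` has `dl a y > l` and some `y'` has `dl b y' > l` then `a, y | b, y'` is a pair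
of pairs (`dl a b = l`): excluded.  So (by symmetry) all `y ≠ a, b` have `dl b y > l`, `dl a y = l`: `Off U G a l` (for
`y ≠ z` in `G.erase a`, `dl y z ≥ min (dl y b) (dl b z) > l`).  `G.erase a` is again not `NC`. -/
def St_catchain : Prop := ∀ (V D : Type) [DecidableEq V] [DecidableEq D] (m : ℕ)
  (U : UT V D m) (G : Finset V), G.Nonempty → ¬ NC U G → Chain U (G.card - 1) G

/-- TOPEX.  If every `(s + 1)`-subset of `H` is a star or `Top`, `|H| ≥ s + 1 ≥ 5`, and `H` is not a star, then
one element of `H` branches off from all the others.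
Proof.  `l = min` of `dl` over the pairs of `H`, attained at `a, b`.  `H` is not a star, so some `x ≠ y` in `H`
have `dl x y > l`.  By (U1) `dl x a = l` or `dl x b = l`, so some `w` has `dl x w = l`, hence
`dl y w = l` (U2).  Claim: `w` is the only element of `H` with `dl x w = l`.  If `w' ≠ w` is another one, let
`R ⊆ H` be an `(s + 1)`-set containing `x, y, w, w'` (`s + 1 ≥ 4`; `Finset.exists_subsuperset_card_eq`).  `R` is not a star
(`dl x y > l = dl x w`).  So `R` is `Top`, with witness `t`.  If `t = x`: the pair `(y, w)`: `dl x y <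
dl y w = l`, no.  `t = y`: the pair `(x, w)`: `dl y x < dl x w = l`, no.  `t = w`: the pair `(x, w')`:
`dl w x = l < dl x w' = l`, no.  `t = w'`: the pair `(x, w)`: no.  Otherwise the pair `(x, w)`:
`dl t x < dl x w = l`, against the minimality of `l`.  So all `y' ∈ H`, `y' ≠ w, x` have `dl x y' > l`,
and `Off U H w l` follows by (U1), (U2). -/
def St_topex : Prop := ∀ (V D : Type) [DecidableEq V] [DecidableEq D] (m : ℕ)
  (U : UT V D m) (s : ℕ) (H : Finset V), 4 ≤ s → s + 1 ≤ H.card → ¬ Star U H →
  (∀ R ⊆ H, R.card = s + 1 → Star U R ∨ Top U R) → ∃ x ∈ H, ∃ l, Off U H x l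

/-- STARSET.  A star `H` all of whose `(s + 1)`-subsets have the same colour `a` gives a set `K` of `|H|`
digits all of whose `(s + 1)`-subsets have the `χ`-colour `a`.
Proof.  Let `l` be the common level of the pairs (if `|H| ≤ 1` take `l = 0`) and `K = H.image (dg · l)`.
If `|H| ≥ 2` then `l < m` and the digit map is injective on `H` by `dg_iff`; so always `|K| = |H|`.
For `g ⊆ K`, `|g| = s + 1 ≥ 2`, let `R = {x ∈ H | dg x l ∈ g}`: `R.image (dg · l) = g`, `|R| = s + 1`
(injectivity), `R` is a star and `levels R = {l}`, `sup = l`, so `a = col R = χ (R.image (dg · l)) = χ g`. -/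
def St_starset : Prop := ∀ (V D κ : Type) [DecidableEq V] [DecidableEq D] [DecidableEq κ] (m : ℕ)
  (U : UT V D m) (χ : Finset D → κ) (φ : Finset ℕ → κ) (z0 z1 : κ) (s : ℕ) (H : Finset V) (a : κ),
  1 ≤ s → Star U H → (∀ R ⊆ H, R.card = s + 1 → col U χ φ z0 z1 R = a) →
  ∃ K : Finset D, K.card = H.card ∧ ∀ g ⊆ K, g.card = s + 1 → χ g = a

/-- MONO.  One-coloured sets of `col` are small.  (You may use CHAINLEV, CATCHAIN, TOPEX, STARSET as hypotheses.)
Proof.  Let `|H| = (k0 + 1)(n + s + 1)` and all `(s + 1)`-subsets of colour `a`.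
(0) If `Chain U n H'` for some `H' ⊆ H`: contradiction.  By CHAINLEV there is `L ⊆ levels H'`, `|L| = n`, `L ⊆ range m`
(`dl x y < m` for `x ≠ y`); for `B ⊆ L`, `|B| = s`, the set `R` has `s + 1` elements, is `Top` and not `NC` and not
a star (a star with at least 3 elements is not `Top`, or: it would be `NC`), so `φ B = col R = a`; against the
hypothesis on `φ`.
(1) `a ≠ z1`.  Every `(s + 1)`-subset of `H` is a star or `Top` (else its colour is `z1`).  By induction on `t`: every
`H' ⊆ H` with `|H'| ≥ t + k0 + s + 1` has `Chain U t H'`: `t = 0` is clear.  Step: `H'` is not a star (otherwise take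
a subset of `H'` with `k0` elements: a star, STARSET and `NoMono s χ k0` contradict), so by TOPEX some `x`
branches off, and `H'.erase x` has the chain of length `t`.  With `t = n`, `H' = H`: contradiction to (0), as
`(k0 + 1)(n + s + 1) ≥ n + k0 + s + 1`.
(2) `a = z1`.  `H` has at least two elements; let `l = min` of `dl` over its pairs (attained at some pair).  For `u ∈ D` let
`H_u = {x ∈ H | dg x l = u}`.  Claim `|H_u| ≤ n + s`.  There is `x ∈ H`, `x ∉ H_u` (the minimum is attained at two
elements with different digits).  `dl x y = l` for `y ∈ H_u` and `dl y y' > l` for `y ≠ y'` in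
`H_u`.  Suppose `|H_u| ≥ n + s + 1`.  Every `s`-subset `Q` of `H_u` is not `NC`: otherwise
`R = insert x Q` is `NC` and `Top`, not a star, of colour `z0 ≠ z1`.  As `s ≥ 4`, `H_u` is not `NC` (a
triple or a pair of pairs lies in an `s`-subset).  By CATCHAIN `Chain U (|H_u| - 1) H_u`, and by CHAINLEV with
`t = |H_u| - 1 ≥ n` (take `n` of the levels) we get a contradiction as in (0).  [So state (0) for chains of length `≥ n`.]
The number `p` of `u` with `H_u ≠ ∅` is less than `k0`: choose one element from each; this is a star (level `l`), all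
its `(s + 1)`-subsets have colour `z1`; if `p ≥ k0` take `k0` of them: STARSET and `NoMono s χ k0`
contradict.  So `|H| ≤ (k0 - 1)(n + s) < |H|`. -/
def St_mono : Prop := ∀ (V D κ : Type) [Fintype V] [DecidableEq V] [Fintype D] [DecidableEq D]
  [DecidableEq κ] (m : ℕ) (U : UT V D m) (χ : Finset D → κ) (φ : Finset ℕ → κ) (z0 z1 : κ)
  (s k0 n : ℕ), 4 ≤ s → z0 ≠ z1 → NoMono s χ k0 →
  (∀ L ⊆ Finset.range m, L.card = n → ¬ ∃ a : κ, ∀ B ⊆ L, B.card = s → φ B = a) →
  NoMono s (col U χ φ z0 z1) ((k0 + 1) * (n + s + 1))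

/-- RANDE.  The random base colouring, with `TreeE` in place of `Tree`.
Proof: copy `fan` and `random` from `Pool/Agent/H40/HL/Lower.lean`.  Only `fan` changes: from
`TreeE s c c0 c1 (a + u) S` one gets `E` with `a` elements, each `e ∈ E` of size `s` with some `x ∈ S` such that
`x ∈ e ∨ c (insert x e) = c0`, and `X ⊆ S`, `2 ^ u ≤ |X|`, such that `x ∉ e` and `c (insert x e) = c1` for all
`e ∈ E`, `x ∈ X` (always go to the side `part c S e c1`; the other side is nonempty and contained in
`part c S e c0 ∪ (S ∩ e)`; `e` is not one of the later nodes: these have an `x ∈ part c S e c1` with `x ∈ e ∨ c (insert x e) = c0`;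
a `TreeE` of depth `u` in `S` gives `2 ^ u ≤ |S|` because the two sides are disjoint).
The rest of `random` is word for word the same. -/
def St_rande : Prop := ∀ (κ : Type) [DecidableEq κ] (N k m s a u : ℕ) (c0 c1 : κ), c0 ≠ c1 →
  s + 1 ≤ k → 3 * (N ^ k * m ^ k.choose (s + 1)) < (m + 1) ^ k.choose (s + 1) → 1 ≤ m →
  3 * N ^ (s * a + 2 ^ u) < (m + 1) ^ (a * 2 ^ u) →
  ∃ c : Finset (Fin N) → κ, (∀ g, c g = c0 ∨ c g = c1) ∧ NoMono s c k ∧
    ¬ TreeE s c c0 c1 (a + u) (Finset.univ : Finset (Fin N))

/-- WORDS.  The words of length `m` over `D` are the leaves of such a tree.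
Proof: `V = Fin m → D`, `dl x y = Nat.findGreatest (fun l => ∀ i : Fin m, (i : ℕ) < l → x i = y i) m`,
so that `l ≤ dl x y ↔ ∀ i, (i : ℕ) < l → x i = y i` for `l ≤ m`;
`dg x l = if h : l < m then x ⟨l, h⟩ else default`. -/
def St_words : Prop := ∀ (D : Type) [Inhabited D] [DecidableEq D] (m : ℕ),
  Nonempty (UT (Fin m → D) D m)

end Pool.Agent.H40.HT
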