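import Pool.Agent.H40.HT.Stm2
import Pool.Agent.H40.HT.Stm

/-!
# The composition
-/

namespace Pool.Agent.H40.HT

open Finset Pool.Agent.H40.HL

theorem Comp_tree_map {V W κ : Type} [DecidableEq V] [DecidableEq W] [DecidableEq κ] (f : V ≃ W)
    (c : Finset W → κ) (s : ℕ) (t : ℕ) : ∀ S : Finset V,
    Tree s (fun R : Finset V => c (R.map f.toEmbedding)) t S → Tree s c t (S.map f.toEmbedding) := by
  induction t with
  | zero => intro S hS; exact (Finset.map_nonempty).2 hS
  | succ t ih =>
    rintro S ⟨e, he, a, b, hab, h1, h2⟩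
    have hp : ∀ a : κ, (part (fun R : Finset V => c (R.map f.toEmbedding)) S e a).map f.toEmbedding ⊆
        part c (S.map f.toEmbedding) (e.map f.toEmbedding) a := by
      intro a x hx
      rw [Finset.mem_map] at hx
      obtain ⟨v, hv, rfl⟩ := hx
      simp only [part, Finset.mem_filter] at hv ⊢
      refine ⟨Finset.mem_map_of_mem _ hv.1, ?_, ?_⟩
      · intro h
        exact hv.2.1 ((Finset.mem_map' _).1 h)
      · rw [← Finset.map_insert]
        exact hv.2.2
    exact ⟨e.map f.toEmbedding, by rw [Finset.card_map, he], a, b, hab,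
      (ih _ h1).mono (hp a), (ih _ h2).mono (hp b)⟩

theorem Comp_noMono_map {V W κ : Type} [DecidableEq V] [DecidableEq W] [DecidableEq κ] (f : V ≃ W)
    (c : Finset W → κ) (s k : ℕ) (h : NoMono s c k) :
    NoMono s (fun R : Finset V => c (R.map f.toEmbedding)) k := by
  rintro K hK ⟨a, ha⟩
  refine h (K.map f.toEmbedding) (by rw [Finset.card_map, hK]) ⟨a, ?_⟩
  intro g hg hgc
  have e1 : (g.map f.symm.toEmbedding).map f.toEmbedding = g := by
    ext x; simp
  have := ha (g.map f.symm.toEmbedding) ?_ (by rw [Finset.card_map, hgc])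
  · simp only [e1] at this
    exact this
  · intro x hx
    rw [Finset.mem_map] at hx
    obtain ⟨y, hy, rfl⟩ := hx
    have := hg hy
    rw [Finset.mem_map] at this
    obtain ⟨z, hz, rfl⟩ := this
    simpa using hz

theorem Comp_noMono_mono {V κ : Type} [DecidableEq V] [DecidableEq κ] {c : Finset V → κ}
    {s k k' : ℕ} (h : NoMono s c k) (hk : k ≤ k') : NoMono s c k' := by
  rintro K hK ⟨a, ha⟩
  obtain ⟨K', hK', hKc⟩ := Finset.exists_subset_card_eq (s := K) (n := k) (by omega)
  exact h K' hKc ⟨a, fun g hg hgc => ha g (hg.trans hK') hgc⟩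

/-- **The composition of a base colouring and a colouring of the sets of levels.** -/
theorem comp (hld : St_ldim) (hmono : St_mono) (hwords : St_words) {s q d0 k0 K n M m : ℕ}
    (hs : 4 ≤ s) (hq : 2 ≤ q) (hK : 1 ≤ K) (hbase : GoodE s d0 k0 K) (hm : m ≤ M)
    (hφ : ∃ φ : Finset (Fin M) → Fin q, NoMono (s - 1) φ n) :
    Good s q (m * (d0 + 2)) ((k0 + 1) * (n + s + 1)) (K ^ m) := by
  classical
  obtain ⟨φ, hφ⟩ := hφ
  set z0 : Fin q := ⟨0, by omega⟩ with hz0
  set z1 : Fin q := ⟨1, by omega⟩ with hz1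
  have hz : z0 ≠ z1 := by
    intro h
    have := congrArg Fin.val h
    simp [hz0, hz1] at this
  obtain ⟨χ, hχ1, hχ2, hχ3⟩ := hbase (Fin q) z1 z0 hz.symm
  haveI : Inhabited (Fin K) := ⟨⟨0, hK⟩⟩
  obtain ⟨U⟩ := hwords (Fin K) m
  -- the colouring of sets of levels
  set φ' : Finset ℕ → Fin q := fun B => φ (Finset.univ.filter (fun i : Fin M => (i : ℕ) ∈ B))
    with hφ'
  have hφ2 : ∀ L ⊆ Finset.range m, L.card = n →
      ¬ ∃ a : Fin q, ∀ B ⊆ L, B.card = s → φ' B = a := by
    rintro L hL hLc ⟨a, ha⟩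
    refine hφ (Finset.univ.filter (fun i : Fin M => (i : ℕ) ∈ L)) ?_ ⟨a, ?_⟩
    · rw [← hLc]
      rw [← Finset.card_map Fin.valEmbedding]
      congr 1
      ext x
      simp only [Finset.mem_map, Finset.mem_filter, Finset.mem_univ, true_and,
        Fin.valEmbedding_apply]
      constructor
      · rintro ⟨i, hi, rfl⟩; exact hi
      · intro hx
        have := Finset.mem_range.1 (hL hx)
        exact ⟨⟨x, by omega⟩, hx, rfl⟩
    · intro g hg hgc
      have h1 : g.map Fin.valEmbedding ⊆ L := by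
        intro x hx
        rw [Finset.mem_map] at hx
        obtain ⟨i, hi, rfl⟩ := hx
        have := hg hi
        simpa using this
      have h2 := ha (g.map Fin.valEmbedding) h1 (by rw [Finset.card_map]; omega)
      have h3 : Finset.univ.filter (fun i : Fin M => (i : ℕ) ∈ g.map Fin.valEmbedding) = g := by
        ext i
        simp only [Finset.mem_filter, Finset.mem_univ, true_and, Finset.mem_map,
          Fin.valEmbedding_apply]
        constructor
        · rintro ⟨j, hj, hji⟩
          rwa [Fin.ext hji] at hj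
        · intro hi; exact ⟨i, hi, rfl⟩
      rw [hφ'] at h2
      simp only [h3] at h2
      exact h2
  have hN : Fintype.card (Fin m → Fin K) = K ^ m := by simp
  set f : Fin (K ^ m) ≃ (Fin m → Fin K) := (finCongr hN.symm).trans (Fintype.equivFin _).symm
    with hf
  refine ⟨fun R => col U χ φ' z0 z1 (R.map f.toEmbedding), ?_, ?_⟩
  · intro hT
    have h1 := Comp_tree_map f (col U χ φ' z0 z1) s _ _ hT
    exact hld (Fin m → Fin K) (Fin K) (Fin q) m U χ φ' z0 z1 s d0 hs hz hχ1 hχ3
      (h1.mono (Finset.subset_univ _))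
  · exact Comp_noMono_map f _ s _
      (hmono (Fin m → Fin K) (Fin K) (Fin q) m U χ φ' z0 z1 s k0 n hs hz hχ2 hφ2)

end Pool.Agent.H40.HT
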