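import Pool.Agent.H40.HL.Defs

/-!
# Colourings read off from trees with large branching

`UT V D m`: the elements of `V` are leaves of a rooted tree of height `m`; `dl x y` is the depth of
the meet of `x` and `y` (`m` if `x = y`), and `dg x l : D` is the name of the child of the node of
depth `l` above `x` which lies above `x`.
-/

namespace Pool.Agent.H40.HT

open Finset Pool.Agent.H40.HL

/-- Leaves of a tree of height `m`. -/
structure UT (V D : Type) (m : ℕ) where
  dl : V → V → ℕ
  le_m : ∀ x y, dl x y ≤ m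
  eq_m : ∀ x y, dl x y = m ↔ x = y
  comm : ∀ x y, dl x y = dl y x
  ultra : ∀ x y z, min (dl x y) (dl y z) ≤ dl x z
  dg : V → ℕ → D
  dg_iff : ∀ x y l, l < m → l ≤ dl x y → (dg x l = dg y l ↔ l < dl x y)

variable {V D κ : Type} [DecidableEq V] [DecidableEq D] [DecidableEq κ] {m : ℕ}

/-- The depths of the meets of the pairs in `R`. -/
def levels (U : UT V D m) (R : Finset V) : Finset ℕ := R.offDiag.image (fun p => U.dl p.1 p.2)

/-- All pairs meet at the same depth (hence in the same node). -/
def Star (U : UT V D m) (R : Finset V) : Prop := ∃ l, ∀ x ∈ R, ∀ y ∈ R, x ≠ y → U.dl x y = l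

/-- One element of `R` branches off before all the others. -/
def Top (U : UT V D m) (R : Finset V) : Prop :=
  ∃ x ∈ R, ∀ y ∈ R, ∀ z ∈ R, y ≠ x → z ≠ x → y ≠ z → U.dl x y < U.dl y z

/-- `R` is not a binary caterpillar: three elements of `R` meet in one node, or there are two
disjoint pairs `{x, y}`, `{z, w}` in different subtrees. -/
def NC (U : UT V D m) (R : Finset V) : Prop :=
  (∃ x ∈ R, ∃ y ∈ R, ∃ z ∈ R, x ≠ y ∧ y ≠ z ∧ x ≠ z ∧ U.dl x y = U.dl y z ∧ U.dl x y = U.dl x z) ∨
  (∃ x ∈ R, ∃ y ∈ R, ∃ z ∈ R, ∃ w ∈ R, x ≠ y ∧ z ≠ w ∧ U.dl x z < U.dl x y ∧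
    U.dl x z < U.dl z w)

open Classical in
/-- The colouring. -/
noncomputable def col (U : UT V D m) (χ : Finset D → κ) (φ : Finset ℕ → κ) (z0 z1 : κ)
    (R : Finset V) : κ :=
  if Star U R then χ (R.image (fun x => U.dg x ((levels U R).sup id)))
  else if Top U R then (if NC U R then z0 else φ (levels U R)) else z1

/-- Mistake trees for the base colouring, where the elements of the node `e` itself may go to the
side of the colour `c0`. -/
def TreeE (s : ℕ) (χ : Finset D → κ) (c0 c1 : κ) : ℕ → Finset D → Prop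
  | 0, S => S.Nonempty
  | t + 1, S => ∃ e : Finset D, e.card = s ∧ TreeE s χ c0 c1 t (part χ S e c1) ∧
      TreeE s χ c0 c1 t (part χ S e c0 ∪ (S ∩ e))

/-- `x` branches off from the other elements of `H` at the depth `l`. -/
def Off (U : UT V D m) (H : Finset V) (x : V) (l : ℕ) : Prop :=
  (∀ y ∈ H, y ≠ x → U.dl x y = l) ∧ ∀ y ∈ H, ∀ z ∈ H, y ≠ x → z ≠ x → y ≠ z → l < U.dl y z

/-- One can remove `t` elements of `H` one by one, each branching off from the remaining ones, and
something remains. -/
def Chain (U : UT V D m) : ℕ → Finset V → Prop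
  | 0, H => H.Nonempty
  | t + 1, H => ∃ x ∈ H, ∃ l, Off U H x l ∧ 2 ≤ H.card ∧ Chain U t (H.erase x)

end Pool.Agent.H40.HT
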