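import Pool.Agent.H40.HT.Ord

/-!
# The asymptotics for a general composition, `s ≥ 3`
-/

namespace Pool.Agent.H40.HT

open Finset Filter Pool.Agent.H40.HL Pool.Agent.TH138.NF Pool.Agent.Q216.TI

/-- **Sharp asymptotics**, for a general composition. -/
theorem Gen_sharp (hge : St_goodE) (s q C : ℕ) (hs : 3 ≤ s) (hq : 2 ≤ q) (Φ : ℕ → ℕ → Prop)
    (hcomp : ∀ d0 k0 K n M m : ℕ, 1 ≤ K → GoodE s d0 k0 K → m ≤ M → Φ M n →
      Good s q (m * (d0 + 2)) (C * ((k0 + 1) * (n + s + 1))) (K ^ m))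
    (δ : ℝ) (hδ : 0 < δ) (hδ1 : δ ≤ 1) :
    ∃ η : ℝ, 0 < η ∧ ∃ D k₀ : ℕ, ∀ d k : ℕ, D ≤ d → k₀ ≤ k → Φ d ⌊(k : ℝ) ^ η⌋₊ →
      (s - δ) * d * Real.log k ≤ Real.log (largest s q d k) ∧
      Real.log (largestI s q d k) ≤ (s + δ) * d * Real.log k := by
  have hsp : (3 : ℝ) ≤ s := by exact_mod_cast hs
  obtain ⟨Du, ku, hup⟩ := Asym_upper s q hq δ hδ
  obtain ⟨D0, hD0⟩ := hge s (by omega) (δ / 4) (by positivity) (by linarith)
  set d0 : ℕ := max D0 ⌈8 * s / δ⌉₊ + 1 with hd0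
  obtain ⟨kE, hkE⟩ := hD0 d0 (by rw [hd0]; exact le_trans (le_max_left _ _) (Nat.le_succ _))
  have hd0r : 8 * s / δ ≤ d0 := by
    have h1 : 8 * s / δ ≤ ⌈8 * s / δ⌉₊ := Nat.le_ceil _
    have h2 : ⌈8 * s / δ⌉₊ ≤ d0 := by
      rw [hd0]; exact le_trans (le_max_right _ _) (Nat.le_succ _)
    have h3 : ((⌈8 * s / δ⌉₊ : ℕ) : ℝ) ≤ d0 := by exact_mod_cast h2
    linarith
  have hd0p : (0 : ℝ) < d0 := lt_of_lt_of_le (by positivity) hd0r
  set η : ℝ := δ / (16 * s) with hη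
  have hηp : 0 < η := by positivity
  have hη64 : η ≤ 1 / 48 := by
    rw [hη, div_le_iff₀ (by positivity)]; linarith
  have hηs : η * s = δ / 16 := by rw [hη]; field_simp
  obtain ⟨k1, hk1⟩ := Asym_floor (1 - 2 * η) (1 - 3 * η) (by linarith) (by linarith)
  have evA : ∀ᶠ k : ℕ in atTop, ((s : ℝ) + 4) + 4 * C ≤ (k : ℝ) ^ η :=
    ((tendsto_rpow_atTop hηp).comp tendsto_natCast_atTop_atTop).eventually_ge_atTop _
  have evB : ∀ᶠ k : ℕ in atTop, (kE : ℝ) ≤ (k : ℝ) ^ (1 - 3 * η) :=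
    ((tendsto_rpow_atTop (by linarith : 0 < 1 - 3 * η)).comp
      tendsto_natCast_atTop_atTop).eventually_ge_atTop _
  obtain ⟨k2, hk2⟩ := Filter.eventually_atTop.1 (evA.and evB)
  refine ⟨η, hηp, max Du ⌈(d0 + 2) * (8 * s / δ)⌉₊, max (max ku k1) (max k2 2), ?_⟩
  intro d k hd hk hφ
  have hdu : Du ≤ d := le_trans (le_max_left _ _) hd
  have hdr : (d0 + 2) * (8 * s / δ) ≤ (d : ℝ) := by
    have h1 : (d0 + 2) * (8 * s / δ) ≤ (⌈(d0 + 2) * (8 * s / δ)⌉₊ : ℕ) := Nat.le_ceil _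
    have h2 : ⌈(d0 + 2) * (8 * s / δ)⌉₊ ≤ d := le_trans (le_max_right _ _) hd
    have h3 : ((⌈(d0 + 2) * (8 * s / δ)⌉₊ : ℕ) : ℝ) ≤ d := by exact_mod_cast h2
    linarith
  have hku : ku ≤ k := le_trans (le_trans (le_max_left _ _) (le_max_left _ _)) hk
  have hkk1 : k1 ≤ k := le_trans (le_trans (le_max_right _ _) (le_max_left _ _)) hk
  have hkk2 : k2 ≤ k := le_trans (le_trans (le_max_left _ _) (le_max_right _ _)) hk
  have hk2' : 2 ≤ k := le_trans (le_trans (le_max_right _ _) (le_max_right _ _)) hk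
  refine ⟨?_, hup d k hdu hku⟩
  have hkp : (0 : ℝ) < k := by exact_mod_cast (by omega : 0 < k)
  have hk1r : (1 : ℝ) < k := by exact_mod_cast (by omega : 1 < k)
  have hlk : 0 < Real.log k := Real.log_pos hk1r
  obtain ⟨hA, hB⟩ := hk2 k hkk2
  obtain ⟨hf1, hf2, hf3⟩ := hk1 k hkk1
  set kb : ℕ := ⌊(k : ℝ) ^ (1 - 2 * η)⌋₊ with hkb
  set n : ℕ := ⌊(k : ℝ) ^ η⌋₊ with hn
  have hkEb : kE ≤ kb := by
    have : (kE : ℝ) ≤ kb := le_trans hB hf2
    exact_mod_cast this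
  obtain ⟨K, hK1, hK2, hK3⟩ := hkE kb hkEb
  have hC0 : (0 : ℝ) ≤ C := by positivity
  have hsize : C * ((kb + 1) * (n + s + 1)) ≤ k := by
    have h1 : (kb : ℝ) ≤ (k : ℝ) ^ (1 - 2 * η) := Nat.floor_le (by positivity)
    have h2 : (n : ℝ) ≤ (k : ℝ) ^ η := Nat.floor_le (by positivity)
    have h3 : (1 : ℝ) ≤ (k : ℝ) ^ (1 - 2 * η) := Real.one_le_rpow hk1r.le (by linarith)
    have h4 : ((kb : ℝ) + 1) * (n + s + 1) ≤ (2 * (k : ℝ) ^ (1 - 2 * η)) * (2 * (k : ℝ) ^ η) := by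
      refine mul_le_mul (by linarith) (by linarith) (by positivity) (by positivity)
    have h5 : (2 * (k : ℝ) ^ (1 - 2 * η)) * (2 * (k : ℝ) ^ η) = 4 * (k : ℝ) ^ (1 - η) := by
      have : (k : ℝ) ^ (1 - 2 * η) * (k : ℝ) ^ η = (k : ℝ) ^ (1 - η) := by
        rw [← Real.rpow_add hkp]; congr 1; ring
      linear_combination 4 * this
    have h6 : (C : ℝ) * (4 * (k : ℝ) ^ (1 - η)) ≤ k := by
      have h7 : (k : ℝ) ^ η * (k : ℝ) ^ (1 - η) = k := by
        rw [← Real.rpow_add hkp]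
        rw [show η + (1 - η) = 1 by ring, Real.rpow_one]
      have h8 : 4 * (C : ℝ) ≤ (k : ℝ) ^ η := by linarith
      have h9 : (0 : ℝ) < (k : ℝ) ^ (1 - η) := by positivity
      calc (C : ℝ) * (4 * (k : ℝ) ^ (1 - η)) = (4 * C) * (k : ℝ) ^ (1 - η) := by ring
        _ ≤ (k : ℝ) ^ η * (k : ℝ) ^ (1 - η) := mul_le_mul_of_nonneg_right h8 h9.le
        _ = k := h7
    have h10 : ((C * ((kb + 1) * (n + s + 1)) : ℕ) : ℝ) ≤ k := by
      push_cast
      refine le_trans (mul_le_mul_of_nonneg_left ?_ hC0) h6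
      linarith
    exact_mod_cast h10
  set m : ℕ := d / (d0 + 2) with hm
  have hmd : m * (d0 + 2) ≤ d := Nat.div_mul_le_self _ _
  have hmd2 : d < (m + 1) * (d0 + 2) := by
    rw [hm]
    have h := Nat.lt_mul_div_succ d (show 0 < d0 + 2 by omega)
    rw [mul_comm]
    exact h
  have hmle : m ≤ d := Nat.div_le_self _ _
  have hgood : Good s q d k (K ^ m) :=
    Asym_good_mono (hcomp d0 kb K n d m hK1 hK3 hmle hφ) hmd hsize
  have hKp : (0 : ℝ) < K := by exact_mod_cast hK1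
  have h1 : ((K ^ m : ℕ) : ℝ) ≤ largest s q d k := by exact_mod_cast le_largest hgood
  have h2 := Real.log_le_log (by positivity) h1
  push_cast at h2
  rw [Real.log_pow] at h2
  refine le_trans ?_ h2
  -- the computation
  have e1 : (1 - 3 * η) * Real.log k ≤ Real.log kb := hf1
  have hsd : (0 : ℝ) < s - δ / 4 := by linarith
  have e2 : (s - δ / 4) * d0 * ((1 - 3 * η) * Real.log k) ≤ Real.log K :=
    le_trans (mul_le_mul_of_nonneg_left e1 (by positivity)) hK2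
  have hdp : (0 : ℝ) < d := lt_of_lt_of_le (by positivity) hdr
  have e3 : (1 - δ / (8 * s)) * d ≤ m * (d0 + 2) := by
    have h3 : (d : ℝ) < (m + 1) * (d0 + 2) := by exact_mod_cast hmd2
    have h4 : ((d0 : ℝ) + 2) ≤ δ / (8 * s) * d := by
      have h5 : δ / (8 * s) * ((d0 + 2) * (8 * s / δ)) = d0 + 2 := by
        field_simp
      have h6 : δ / (8 * s) * ((d0 + 2) * (8 * s / δ)) ≤ δ / (8 * s) * d :=
        mul_le_mul_of_nonneg_left hdr (by positivity)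
      linarith
    nlinarith
  have e4 : (1 - δ / (4 * s)) * (d0 + 2) ≤ (d0 : ℝ) := by
    have h5 : 2 ≤ δ / (4 * s) * d0 := by
      have h6 : δ / (4 * s) * (8 * s / δ) = 2 := by field_simp; norm_num
      have h7 : δ / (4 * s) * (8 * s / δ) ≤ δ / (4 * s) * d0 :=
        mul_le_mul_of_nonneg_left hd0r (by positivity)
      linarith
    have h8 : (0 : ℝ) ≤ δ / (4 * s) := by positivity
    nlinarith
  have hx1 : δ / (8 * s) ≤ 1 / 24 := by
    rw [div_le_iff₀ (by positivity)]; linarith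
  have hx2 : δ / (4 * s) ≤ 1 / 12 := by
    rw [div_le_iff₀ (by positivity)]; linarith
  have e5 : (1 - δ / (8 * s)) * (1 - δ / (4 * s)) * d ≤ m * d0 := by
    have h3 : (1 - δ / (4 * s)) * ((1 - δ / (8 * s)) * d) ≤ (1 - δ / (4 * s)) * (m * (d0 + 2)) :=
      mul_le_mul_of_nonneg_left e3 (by linarith)
    have h4 : (m : ℝ) * ((1 - δ / (4 * s)) * (d0 + 2)) ≤ m * d0 :=
      mul_le_mul_of_nonneg_left e4 (by positivity)
    nlinarith
  have e6 : (s - δ) ≤ (1 - δ / (8 * s)) * (1 - δ / (4 * s)) * ((s - δ / 4) * (1 - 3 * η)) := by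
    set y : ℝ := δ / (16 * s) with hy
    have y1 : δ / (8 * s) = 2 * y := by rw [hy]; field_simp; norm_num
    have y2 : δ / (4 * s) = 4 * y := by rw [hy]; field_simp; norm_num
    have y3 : δ = 16 * (y * s) := by rw [hy]; field_simp
    have y0 : 0 < y := hηp
    rw [y1, y2]
    have y4 : (s : ℝ) - δ = s * (1 - 16 * y) := by rw [y3]; ring
    have y5 : (s : ℝ) - δ / 4 = s * (1 - 4 * y) := by rw [y3]; ring
    rw [y4, y5, hη]
    have y6 : (1 - 16 * y) ≤ (1 - 2 * y) * (1 - 4 * y) * ((1 - 4 * y) * (1 - 3 * y)) := by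
      have hy64 : y ≤ 1 / 48 := hη64
      nlinarith [mul_pos y0 y0, mul_pos (mul_pos y0 y0) y0, mul_pos (mul_pos y0 y0) (mul_pos y0 y0)]
    calc (s : ℝ) * (1 - 16 * y) ≤ s * ((1 - 2 * y) * (1 - 4 * y) * ((1 - 4 * y) * (1 - 3 * y))) :=
          mul_le_mul_of_nonneg_left y6 (by positivity)
      _ = _ := by ring
  calc (s - δ) * d * Real.log k
      ≤ ((1 - δ / (8 * s)) * (1 - δ / (4 * s)) * ((s - δ / 4) * (1 - 3 * η))) * d * Real.log k := by
        refine mul_le_mul_of_nonneg_right (mul_le_mul_of_nonneg_right e6 hdp.le) hlk.le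
    _ = ((1 - δ / (8 * s)) * (1 - δ / (4 * s)) * d) * ((s - δ / 4) * ((1 - 3 * η) * Real.log k)) := by
        ring
    _ ≤ (m * d0) * ((s - δ / 4) * ((1 - 3 * η) * Real.log k)) := by
        refine mul_le_mul_of_nonneg_right e5 ?_
        have : 0 < 1 - 3 * η := by linarith
        positivity
    _ = m * ((s - δ / 4) * d0 * ((1 - 3 * η) * Real.log k)) := by ring
    _ ≤ m * Real.log K := mul_le_mul_of_nonneg_left e2 (by positivity)



/-- **Order of magnitude**, for a general composition. -/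
theorem Gen_order (hge : St_goodE) (s q C : ℕ) (hs : 3 ≤ s) (hq : 2 ≤ q) (Φ : ℕ → ℕ → Prop)
    (hcomp : ∀ d0 k0 K n M m : ℕ, 1 ≤ K → GoodE s d0 k0 K → m ≤ M → Φ M n →
      Good s q (m * (d0 + 2)) (C * ((k0 + 1) * (n + s + 1))) (K ^ m))
    (δ : ℝ) (hδ : 0 < δ) (hδ1 : δ ≤ 1) :
    ∃ a : ℝ, 0 < a ∧ ∃ k₀ : ℕ, ∀ d k : ℕ, k₀ ≤ k → 1 ≤ d → Φ d ⌊(k : ℝ) ^ (1 - δ)⌋₊ →
      a * d * Real.log k ≤ Real.log (largest s q d k) := by
  have hsp : (3 : ℝ) ≤ s := by exact_mod_cast hs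
  obtain ⟨c, hc, ko, hko⟩ := order s q (by omega) hq 1 one_pos le_rfl
  obtain ⟨D0, hD0⟩ := hge s (by omega) 1 one_pos le_rfl
  set d0 : ℕ := D0 + 2 with hd0
  obtain ⟨kE, hkE⟩ := hD0 d0 (by omega)
  obtain ⟨k1, hk1⟩ := Asym_floor (δ / 2) (δ / 4) (by positivity) (by linarith)
  have evA : ∀ᶠ k : ℕ in atTop, C * (2 * ((s : ℝ) + 2)) ≤ (k : ℝ) ^ (δ / 2) :=
    ((tendsto_rpow_atTop (by positivity : 0 < δ / 2)).comp
      tendsto_natCast_atTop_atTop).eventually_ge_atTop _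
  have evB : ∀ᶠ k : ℕ in atTop, (kE : ℝ) ≤ (k : ℝ) ^ (δ / 4) :=
    ((tendsto_rpow_atTop (by positivity : 0 < δ / 4)).comp
      tendsto_natCast_atTop_atTop).eventually_ge_atTop _
  obtain ⟨k2, hk2⟩ := Filter.eventually_atTop.1 (evA.and evB)
  refine ⟨min c (δ / 8), lt_min hc (by positivity), max (max ko k1) (max k2 (d0 + 2)), ?_⟩
  intro d k hk hd hφ
  have hkko : ko ≤ k := le_trans (le_trans (le_max_left _ _) (le_max_left _ _)) hk
  have hkk1 : k1 ≤ k := le_trans (le_trans (le_max_right _ _) (le_max_left _ _)) hk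
  have hkk2 : k2 ≤ k := le_trans (le_trans (le_max_left _ _) (le_max_right _ _)) hk
  have hkd0 : d0 + 2 ≤ k := le_trans (le_trans (le_max_right _ _) (le_max_right _ _)) hk
  have hkp : (0 : ℝ) < k := by exact_mod_cast (by omega : 0 < k)
  have hk1r : (1 : ℝ) < k := by exact_mod_cast (by omega : 1 < k)
  have hlk : 0 < Real.log k := Real.log_pos hk1r
  have hdp : (0 : ℝ) < d := by exact_mod_cast hd
  rcases Nat.lt_or_ge d (d0 + 2) with hdlt | hdge
  · have h1 : (d : ℝ) ≤ (k : ℝ) ^ ((s : ℝ) - 1) := by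
      have h2 : (d : ℝ) ≤ k := by exact_mod_cast (by omega : d ≤ k)
      refine h2.trans ?_
      calc (k : ℝ) = (k : ℝ) ^ (1 : ℝ) := (Real.rpow_one _).symm
        _ ≤ (k : ℝ) ^ ((s : ℝ) - 1) :=
            Real.rpow_le_rpow_of_exponent_le hk1r.le (by linarith)
    refine le_trans ?_ (hko d k hkko hd h1)
    exact mul_le_mul_of_nonneg_right (mul_le_mul_of_nonneg_right (min_le_left _ _) hdp.le) hlk.le
  · obtain ⟨hA, hB⟩ := hk2 k hkk2
    obtain ⟨hf1, hf2, hf3⟩ := hk1 k hkk1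
    set kb : ℕ := ⌊(k : ℝ) ^ (δ / 2)⌋₊ with hkb
    set n : ℕ := ⌊(k : ℝ) ^ (1 - δ)⌋₊ with hn
    have hkEb : kE ≤ kb := by
      have : (kE : ℝ) ≤ kb := le_trans hB hf2
      exact_mod_cast this
    obtain ⟨K, hK1, hK2, hK3⟩ := hkE kb hkEb
    have hC0 : (0 : ℝ) ≤ C := by positivity
    have hsize : C * ((kb + 1) * (n + s + 1)) ≤ k := by
      have h1 : (kb : ℝ) ≤ (k : ℝ) ^ (δ / 2) := Nat.floor_le (by positivity)
      have h2 : (n : ℝ) ≤ (k : ℝ) ^ (1 - δ) := Nat.floor_le (by positivity)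
      have h3 : (1 : ℝ) ≤ (k : ℝ) ^ (δ / 2) := Real.one_le_rpow hk1r.le (by linarith)
      have h3' : (1 : ℝ) ≤ (k : ℝ) ^ (1 - δ) := Real.one_le_rpow hk1r.le (by linarith)
      have h4 : ((kb : ℝ) + 1) * (n + s + 1) ≤
          (2 * (k : ℝ) ^ (δ / 2)) * ((s + 2) * (k : ℝ) ^ (1 - δ)) := by
        refine mul_le_mul (by linarith) (by nlinarith) (by positivity) (by positivity)
      have h5 : (2 * (k : ℝ) ^ (δ / 2)) * ((s + 2) * (k : ℝ) ^ (1 - δ)) =
          (2 * (s + 2)) * (k : ℝ) ^ (1 - δ / 2) := by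
        have : (k : ℝ) ^ (δ / 2) * (k : ℝ) ^ (1 - δ) = (k : ℝ) ^ (1 - δ / 2) := by
          rw [← Real.rpow_add hkp]; congr 1; ring
        linear_combination (2 * ((s : ℝ) + 2)) * this
      have h6 : (C : ℝ) * ((2 * ((s : ℝ) + 2)) * (k : ℝ) ^ (1 - δ / 2)) ≤ k := by
        have h7 : (k : ℝ) ^ (δ / 2) * (k : ℝ) ^ (1 - δ / 2) = k := by
          rw [← Real.rpow_add hkp]
          rw [show δ / 2 + (1 - δ / 2) = 1 by ring, Real.rpow_one]
        have h9 : (0 : ℝ) < (k : ℝ) ^ (1 - δ / 2) := by positivity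
        calc (C : ℝ) * ((2 * ((s : ℝ) + 2)) * (k : ℝ) ^ (1 - δ / 2))
            = (C * (2 * ((s : ℝ) + 2))) * (k : ℝ) ^ (1 - δ / 2) := by ring
          _ ≤ (k : ℝ) ^ (δ / 2) * (k : ℝ) ^ (1 - δ / 2) :=
              mul_le_mul_of_nonneg_right hA h9.le
          _ = k := h7
      have h10 : ((C * ((kb + 1) * (n + s + 1)) : ℕ) : ℝ) ≤ k := by
        push_cast
        refine le_trans (mul_le_mul_of_nonneg_left ?_ hC0) h6
        linarith
      exact_mod_cast h10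
    set m : ℕ := d / (d0 + 2) with hm
    have hmd : m * (d0 + 2) ≤ d := Nat.div_mul_le_self _ _
    have hmd2 : d < (m + 1) * (d0 + 2) := by
      rw [hm]
      have h := Nat.lt_mul_div_succ d (show 0 < d0 + 2 by omega)
      rw [mul_comm]
      exact h
    have hm1 : 1 ≤ m := (Nat.one_le_div_iff (by omega)).2 hdge
    have hmle : m ≤ d := Nat.div_le_self _ _
    have hgood : Good s q d k (K ^ m) :=
      Asym_good_mono (hcomp d0 kb K n d m hK1 hK3 hmle hφ) hmd hsize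
    have hKp : (0 : ℝ) < K := by exact_mod_cast hK1
    have h1 : ((K ^ m : ℕ) : ℝ) ≤ largest s q d k := by exact_mod_cast le_largest hgood
    have h2 := Real.log_le_log (by positivity) h1
    push_cast at h2
    rw [Real.log_pow] at h2
    refine le_trans ?_ h2
    have hd0r : (2 : ℝ) ≤ d0 := by exact_mod_cast (by omega : 2 ≤ d0)
    have e1 : δ / 4 * Real.log k ≤ Real.log kb := hf1
    have e2 : ((s : ℝ) - 1) * d0 * (δ / 4 * Real.log k) ≤ Real.log K :=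
      le_trans (mul_le_mul_of_nonneg_left e1 (mul_nonneg (by linarith) (by linarith))) hK2
    have hmr : (1 : ℝ) ≤ m := by exact_mod_cast hm1
    have e3 : (d : ℝ) ≤ 2 * m * (d0 + 2) := by
      have h3 : (d : ℝ) < (m + 1) * (d0 + 2) := by exact_mod_cast hmd2
      nlinarith
    have e4 : (d : ℝ) ≤ 2 * m * ((s - 1) * d0) := by
      refine e3.trans ?_
      have : (d0 : ℝ) + 2 ≤ (s - 1) * d0 := by nlinarith
      exact mul_le_mul_of_nonneg_left this (by positivity)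
    have e5 : 0 ≤ δ / 8 * Real.log k := by positivity
    calc min c (δ / 8) * d * Real.log k ≤ δ / 8 * d * Real.log k :=
          mul_le_mul_of_nonneg_right (mul_le_mul_of_nonneg_right (min_le_right _ _) hdp.le) hlk.le
      _ = d * (δ / 8 * Real.log k) := by ring
      _ ≤ (2 * m * ((s - 1) * d0)) * (δ / 8 * Real.log k) := mul_le_mul_of_nonneg_right e4 e5
      _ = m * (((s : ℝ) - 1) * d0 * (δ / 4 * Real.log k)) := by ring
      _ ≤ m * Real.log K := mul_le_mul_of_nonneg_left e2 (by positivity)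


end Pool.Agent.H40.HT
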