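import Pool.Agent.H40.HT.Asym

/-!
# The order of magnitude, up to the Ramsey number of the sets of levels
-/

namespace Pool.Agent.H40.HT

open Finset Filter Pool.Agent.H40.HL Pool.Agent.TH138.NF Pool.Agent.Q216.TI

/-- **Order of magnitude up to the Ramsey number of the sets of levels.** -/
theorem Ord_order (hld : St_ldim) (hmono : St_mono) (hwords : St_words) (hge : St_goodE)
    (s q : ℕ) (hs : 4 ≤ s) (hq : 2 ≤ q) (δ : ℝ) (hδ : 0 < δ) (hδ1 : δ ≤ 1) :
    ∃ a : ℝ, 0 < a ∧ ∃ k₀ : ℕ, ∀ d k : ℕ, k₀ ≤ k → 1 ≤ d →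
      (∃ φ : Finset (Fin d) → Fin q, NoMono (s - 1) φ ⌊(k : ℝ) ^ (1 - δ)⌋₊) →
      a * d * Real.log k ≤ Real.log (largest s q d k) := by
  have hsp : (4 : ℝ) ≤ s := by exact_mod_cast hs
  obtain ⟨c, hc, ko, hko⟩ := order s q (by omega) hq 1 one_pos le_rfl
  obtain ⟨D0, hD0⟩ := hge s (by omega) 1 one_pos le_rfl
  set d0 : ℕ := D0 + 1 with hd0
  obtain ⟨kE, hkE⟩ := hD0 d0 (by omega)
  obtain ⟨k1, hk1⟩ := Asym_floor (δ / 2) (δ / 4) (by positivity) (by linarith)
  have evA : ∀ᶠ k : ℕ in atTop, 2 * ((s : ℝ) + 2) ≤ (k : ℝ) ^ (δ / 2) :=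
    ((tendsto_rpow_atTop (by positivity : 0 < δ / 2)).comp
      tendsto_natCast_atTop_atTop).eventually_ge_atTop _
  have evB : ∀ᶠ k : ℕ in atTop, (kE : ℝ) ≤ (k : ℝ) ^ (δ / 4) :=
    ((tendsto_rpow_atTop (by positivity : 0 < δ / 4)).comp
      tendsto_natCast_atTop_atTop).eventually_ge_atTop _
  obtain ⟨k2, hk2⟩ := Filter.eventually_atTop.1 (evA.and evB)
  refine ⟨min c (δ / 8), lt_min hc (by positivity), max (max ko k1) (max k2 (d0 + 2)), ?_⟩
  intro d k hk hd hφ
  have hkko : ko ≤ k := le_trans (le_trans (le_max_left _ _) (le_max_left _ _)) hk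
  have hkk1 : k1 ≤ k := le_trans (le_trans (le_max_right _ _) (le_max_left _ _)) hk
  have hkk2 : k2 ≤ k := le_trans (le_trans (le_max_left _ _) (le_max_right _ _)) hk
  have hkd0 : d0 + 2 ≤ k := le_trans (le_trans (le_max_right _ _) (le_max_right _ _)) hk
  have hkp : (0 : ℝ) < k := by exact_mod_cast (by omega : 0 < k)
  have hk1r : (1 : ℝ) < k := by exact_mod_cast (by omega : 1 < k)
  have hlk : 0 < Real.log k := Real.log_pos hk1r
  have hdp : (0 : ℝ) < d := by exact_mod_cast hd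
  rcases Nat.lt_or_ge d (d0 + 2) with hdlt | hdge
  · have h1 : (d : ℝ) ≤ (k : ℝ) ^ ((s : ℝ) - 1) := by
      have h2 : (d : ℝ) ≤ k := by exact_mod_cast (by omega : d ≤ k)
      refine h2.trans ?_
      calc (k : ℝ) = (k : ℝ) ^ (1 : ℝ) := (Real.rpow_one _).symm
        _ ≤ (k : ℝ) ^ ((s : ℝ) - 1) :=
            Real.rpow_le_rpow_of_exponent_le hk1r.le (by linarith)
    refine le_trans ?_ (hko d k hkko hd h1)
    exact mul_le_mul_of_nonneg_right (mul_le_mul_of_nonneg_right (min_le_left _ _) hdp.le) hlk.le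
  · obtain ⟨hA, hB⟩ := hk2 k hkk2
    obtain ⟨hf1, hf2, hf3⟩ := hk1 k hkk1
    set kb : ℕ := ⌊(k : ℝ) ^ (δ / 2)⌋₊ with hkb
    set n : ℕ := ⌊(k : ℝ) ^ (1 - δ)⌋₊ with hn
    have hkEb : kE ≤ kb := by
      have : (kE : ℝ) ≤ kb := le_trans hB hf2
      exact_mod_cast this
    obtain ⟨K, hK1, hK2, hK3⟩ := hkE kb hkEb
    have hsize : (kb + 1) * (n + s + 1) ≤ k := by
      have h1 : (kb : ℝ) ≤ (k : ℝ) ^ (δ / 2) := Nat.floor_le (by positivity)
      have h2 : (n : ℝ) ≤ (k : ℝ) ^ (1 - δ) := Nat.floor_le (by positivity)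
      have h3 : (1 : ℝ) ≤ (k : ℝ) ^ (δ / 2) := Real.one_le_rpow hk1r.le (by linarith)
      have h3' : (1 : ℝ) ≤ (k : ℝ) ^ (1 - δ) := Real.one_le_rpow hk1r.le (by linarith)
      have h4 : ((kb : ℝ) + 1) * (n + s + 1) ≤
          (2 * (k : ℝ) ^ (δ / 2)) * ((s + 2) * (k : ℝ) ^ (1 - δ)) := by
        refine mul_le_mul (by linarith) (by nlinarith) (by positivity) (by positivity)
      have h5 : (2 * (k : ℝ) ^ (δ / 2)) * ((s + 2) * (k : ℝ) ^ (1 - δ)) =
          (2 * (s + 2)) * (k : ℝ) ^ (1 - δ / 2) := by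
        have : (k : ℝ) ^ (δ / 2) * (k : ℝ) ^ (1 - δ) = (k : ℝ) ^ (1 - δ / 2) := by
          rw [← Real.rpow_add hkp]; congr 1; ring
        linear_combination (2 * ((s : ℝ) + 2)) * this
      have h6 : (2 * ((s : ℝ) + 2)) * (k : ℝ) ^ (1 - δ / 2) ≤ k := by
        have h7 : (k : ℝ) ^ (δ / 2) * (k : ℝ) ^ (1 - δ / 2) = k := by
          rw [← Real.rpow_add hkp]
          rw [show δ / 2 + (1 - δ / 2) = 1 by ring, Real.rpow_one]
        have h9 : (0 : ℝ) < (k : ℝ) ^ (1 - δ / 2) := by positivity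
        calc (2 * ((s : ℝ) + 2)) * (k : ℝ) ^ (1 - δ / 2)
            ≤ (k : ℝ) ^ (δ / 2) * (k : ℝ) ^ (1 - δ / 2) :=
              mul_le_mul_of_nonneg_right hA h9.le
          _ = k := h7
      have h10 : (((kb + 1) * (n + s + 1) : ℕ) : ℝ) ≤ k := by
        push_cast
        linarith
      exact_mod_cast h10
    set m : ℕ := d / (d0 + 2) with hm
    have hmd : m * (d0 + 2) ≤ d := Nat.div_mul_le_self _ _
    have hmd2 : d < (m + 1) * (d0 + 2) := by
      rw [hm]
      have h := Nat.lt_mul_div_succ d (show 0 < d0 + 2 by omega)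
      rw [mul_comm]
      exact h
    have hm1 : 1 ≤ m := (Nat.one_le_div_iff (by omega)).2 hdge
    have hmle : m ≤ d := Nat.div_le_self _ _
    have hgood : Good s q d k (K ^ m) :=
      Asym_good_mono (comp hld hmono hwords hs hq hK1 hK3 hmle hφ) hmd hsize
    have hKp : (0 : ℝ) < K := by exact_mod_cast hK1
    have h1 : ((K ^ m : ℕ) : ℝ) ≤ largest s q d k := by exact_mod_cast le_largest hgood
    have h2 := Real.log_le_log (by positivity) h1
    push_cast at h2
    rw [Real.log_pow] at h2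
    refine le_trans ?_ h2
    have hd0r : (1 : ℝ) ≤ d0 := by exact_mod_cast (by omega : 1 ≤ d0)
    have e1 : δ / 4 * Real.log k ≤ Real.log kb := hf1
    have e2 : ((s : ℝ) - 1) * d0 * (δ / 4 * Real.log k) ≤ Real.log K :=
      le_trans (mul_le_mul_of_nonneg_left e1 (mul_nonneg (by linarith) (by linarith))) hK2
    have hmr : (1 : ℝ) ≤ m := by exact_mod_cast hm1
    have e3 : (d : ℝ) ≤ 2 * m * (d0 + 2) := by
      have h3 : (d : ℝ) < (m + 1) * (d0 + 2) := by exact_mod_cast hmd2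
      nlinarith
    have e4 : (d : ℝ) ≤ 2 * m * ((s - 1) * d0) := by
      refine e3.trans ?_
      have : (d0 : ℝ) + 2 ≤ (s - 1) * d0 := by nlinarith
      exact mul_le_mul_of_nonneg_left this (by positivity)
    have e5 : 0 ≤ δ / 8 * Real.log k := by positivity
    calc min c (δ / 8) * d * Real.log k ≤ δ / 8 * d * Real.log k :=
          mul_le_mul_of_nonneg_right (mul_le_mul_of_nonneg_right (min_le_right _ _) hdp.le) hlk.le
      _ = d * (δ / 8 * Real.log k) := by ring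
      _ ≤ (2 * m * ((s - 1) * d0)) * (δ / 8 * Real.log k) := mul_le_mul_of_nonneg_right e4 e5
      _ = m * (((s : ℝ) - 1) * d0 * (δ / 4 * Real.log k)) := by ring
      _ ≤ m * Real.log K := mul_le_mul_of_nonneg_left e2 (by positivity)

/-- Upper bound for all `d ≥ 1` and large `k`. -/
theorem Ord_upper (s q : ℕ) (hq : 2 ≤ q) (d k : ℕ) (hk : 2 * q + 2 ≤ k) (hd : 1 ≤ d) :
    Real.log (largestI s q d k) ≤ (2 * s + 3) * d * Real.log k := by
  have hq0 : (0 : ℝ) < q := by exact_mod_cast (by omega : 0 < q)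
  have hk3 : 2 * (q : ℝ) ≤ k := by exact_mod_cast (by omega : 2 * q ≤ k)
  have hk4 : (2 : ℝ) ≤ k := by exact_mod_cast (by omega : 2 ≤ k)
  have hlk : 0 < Real.log k := Real.log_pos (by linarith)
  have h1 : Real.log (2 * k) ≤ 2 * Real.log k := by
    have h2 : Real.log (2 * (k : ℝ)) ≤ Real.log ((k : ℝ) ^ 2) :=
      Real.log_le_log (by linarith) (by nlinarith)
    rwa [Real.log_pow] at h2
  have h2 : Real.log ((k : ℝ) + 2) ≤ 2 * Real.log k := by
    have h3 : Real.log ((k : ℝ) + 2) ≤ Real.log ((k : ℝ) ^ 2) :=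
      Real.log_le_log (by linarith) (by nlinarith)
    rwa [Real.log_pow] at h3
  have h3 : Real.log (2 * (q : ℝ)) ≤ Real.log k := Real.log_le_log (by linarith) hk3
  have h4 := log_largestI_le (s := s) (q := q) (d := d) (k := k) (by omega) (by omega)
  have hd1 : (1 : ℝ) ≤ d := by exact_mod_cast hd
  have hs0 : (0 : ℝ) ≤ s := by positivity
  have h5 : (s : ℝ) * Real.log ((k : ℝ) + 2) ≤ s * (2 * Real.log k) :=
    mul_le_mul_of_nonneg_left h2 hs0
  have h6 : (d : ℝ) * (Real.log (2 * q) + s * Real.log (k + 2)) ≤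
      d * (Real.log k + s * (2 * Real.log k)) :=
    mul_le_mul_of_nonneg_left (by linarith) (by linarith)
  have h7 : 2 * Real.log k ≤ d * (2 * Real.log k) := by nlinarith
  calc Real.log (largestI s q d k)
      ≤ Real.log (2 * k) + d * (Real.log (2 * q) + s * Real.log (k + 2)) := h4
    _ ≤ d * (2 * Real.log k) + d * (Real.log k + s * (2 * Real.log k)) := by linarith
    _ = (2 * s + 3) * d * Real.log k := by ring

end Pool.Agent.H40.HT
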