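import Pool.Agent.H40.HT.Stm
import Pool.Agent.H40.HL.Lower

/-!
# RANDE: the random base colouring, with `TreeE` in place of `Tree` (helper662 for helper40)
-/

set_option autoImplicit false

namespace Pool.Agent.H40.HT

open Finset Pool.Agent.H40.HL

variable {D κ : Type} [DecidableEq D] [DecidableEq κ]

theorem RandE_disj (c : Finset D → κ) (S e : Finset D) {c0 c1 : κ} (hne : c0 ≠ c1) :
    Disjoint (part c S e c1) (part c S e c0 ∪ (S ∩ e)) := by
  rw [Finset.disjoint_left]
  intro x hx hy
  simp only [part, Finset.mem_filter] at hx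
  rw [Finset.mem_union] at hy
  rcases hy with hy | hy
  · simp only [part, Finset.mem_filter] at hy
    exact hne (hy.2.2.symm.trans hx.2.2)
  · exact hx.2.1 (Finset.mem_inter.1 hy).2

theorem RandE_two_pow {s : ℕ} {c : Finset D → κ} {c0 c1 : κ} (hne : c0 ≠ c1) {t : ℕ} :
    ∀ {S : Finset D}, TreeE s c c0 c1 t S → 2 ^ t ≤ S.card := by
  induction t with
  | zero =>
    intro S hS
    exact Finset.card_pos.mpr hS
  | succ t ih =>
    intro S hS
    obtain ⟨e, he, h1, h2⟩ := hS
    have h3 := ih h1
    have h4 := ih h2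
    have h5 : (part c S e c1).card + (part c S e c0 ∪ (S ∩ e)).card ≤ S.card := by
      rw [← Finset.card_union_of_disjoint (RandE_disj c S e hne)]
      exact Finset.card_le_card (Finset.union_subset (part_subset c S e c1)
        (Finset.union_subset (part_subset c S e c0) Finset.inter_subset_left))
    rw [pow_succ]; omega

theorem RandE_nonempty {s : ℕ} {c : Finset D → κ} {c0 c1 : κ} (hne : c0 ≠ c1) {t : ℕ}
    {S : Finset D} (hS : TreeE s c c0 c1 t S) : S.Nonempty :=
  Finset.card_pos.mp (lt_of_lt_of_le (by positivity) (RandE_two_pow hne hS))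

/-- The fan below the first `a` inner nodes of a tree on the path of colour `c1`. -/
theorem RandE_fan {s : ℕ} {c : Finset D → κ} {c0 c1 : κ} (hne : c0 ≠ c1)
    (u : ℕ) : ∀ (a : ℕ) (S : Finset D), TreeE s c c0 c1 (a + u) S →
    ∃ E : Finset (Finset D), E.card = a ∧ (∀ e ∈ E, e.card = s ∧ ∃ x ∈ S, x ∈ e ∨
      c (insert x e) = c0) ∧ ∃ X ⊆ S, 2 ^ u ≤ X.card ∧ ∀ e ∈ E, ∀ x ∈ X, x ∉ e ∧
      c (insert x e) = c1 := by
  classical
  intro a
  induction a with
  | zero =>
    intro S hS
    rw [zero_add] at hS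
    exact ⟨∅, by simp, by simp, S, Finset.Subset.refl _, RandE_two_pow hne hS, by simp⟩
  | succ a ih =>
    intro S hS
    rw [show a + 1 + u = a + u + 1 by ring] at hS
    obtain ⟨e, he, hk1, h2⟩ := hS
    obtain ⟨x0, hx0⟩ := RandE_nonempty hne h2
    have hx0S : x0 ∈ S ∧ (x0 ∈ e ∨ c (insert x0 e) = c0) := by
      rw [Finset.mem_union] at hx0
      rcases hx0 with hx0 | hx0
      · simp only [part, Finset.mem_filter] at hx0
        exact ⟨hx0.1, Or.inr hx0.2.2⟩
      · exact ⟨(Finset.mem_inter.1 hx0).1, Or.inl (Finset.mem_inter.1 hx0).2⟩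
    obtain ⟨E, hE1, hE2, X, hX1, hX2, hX3⟩ := ih _ hk1
    have hnot : e ∉ E := by
      intro hcon
      obtain ⟨_, x, hx, hxc⟩ := hE2 e hcon
      simp only [part, Finset.mem_filter] at hx
      rcases hxc with hxc | hxc
      · exact hx.2.1 hxc
      · exact hne (hxc.symm.trans hx.2.2)
    refine ⟨insert e E, by rw [Finset.card_insert_of_notMem hnot, hE1], ?_, X,
      hX1.trans (part_subset c S e c1), hX2, ?_⟩
    · intro e' he'
      rw [Finset.mem_insert] at he'
      rcases he' with rfl | he'
      · exact ⟨he, x0, hx0S.1, hx0S.2⟩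
      · obtain ⟨h3, x, hx, h4⟩ := hE2 e' he'
        exact ⟨h3, x, part_subset c S e c1 hx, h4⟩
    · intro e' he' x hx
      rw [Finset.mem_insert] at he'
      rcases he' with rfl | he'
      · have := hX1 hx
        simp only [part, Finset.mem_filter] at this
        exact this.2
      · exact hX3 e' he' x hx

theorem rande : St_rande := by
  intro κ _ N k m s a u c0 c1 hne hsk h1 hm h3
  classical
  set Ω : Finset (Finset (Fin N) → Fin (m + 1)) := Finset.univ with hΩ
  have hT : 0 < Fintype.card (Finset (Fin N) → Fin (m + 1)) := Fintype.card_pos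
  set C : ℕ := Fintype.card (Finset (Fin N) → Fin (m + 1)) with hC
  set Mk : ℕ := k.choose (s + 1) with hMk
  set B1 : Finset (Finset (Fin N) → Fin (m + 1)) :=
    (Finset.powersetCard k (Finset.univ : Finset (Fin N))).biUnion (fun K =>
      Ω.filter (fun w => ∀ g ∈ Finset.powersetCard (s + 1) K, w g ∈ ({0}ᶜ : Finset (Fin (m + 1)))))
    with hB1
  set B2 : Finset (Finset (Fin N) → Fin (m + 1)) :=
    (Finset.powersetCard k (Finset.univ : Finset (Fin N))).biUnion (fun K =>
      Ω.filter (fun w => ∀ g ∈ Finset.powersetCard (s + 1) K, w g ∈ ({0} : Finset (Fin (m + 1)))))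
    with hB2
  set P : Finset (Finset (Finset (Fin N)) × Finset (Fin N)) :=
    ((Finset.powersetCard a (Finset.powersetCard s (Finset.univ : Finset (Fin N)))) ×ˢ
      (Finset.powersetCard (2 ^ u) (Finset.univ : Finset (Fin N)))).filter
        (fun p => ∀ e ∈ p.1, ∀ x ∈ p.2, x ∉ e) with hP
  set B3 : Finset (Finset (Fin N) → Fin (m + 1)) :=
    P.biUnion (fun p => Ω.filter (fun w => ∀ g ∈ Finset.image
      (fun p : Finset (Fin N) × Fin N => insert p.2 p.1) (p.1 ×ˢ p.2),
        w g ∈ ({0} : Finset (Fin (m + 1))))) with hB3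
  have hcK : (Finset.powersetCard k (Finset.univ : Finset (Fin N))).card ≤ N ^ k := by
    rw [Finset.card_powersetCard, Finset.card_univ, Fintype.card_fin]
    exact Nat.choose_le_pow N k
  have hm1 : ({0}ᶜ : Finset (Fin (m + 1))).card = m := by
    rw [Finset.card_compl]; simp
  have b1 : 3 * B1.card < C := by
    have hle : B1.card * (m + 1) ^ Mk ≤ N ^ k * (m ^ Mk * C) := by
      calc B1.card * (m + 1) ^ Mk ≤ (∑ K ∈ Finset.powersetCard k (Finset.univ : Finset (Fin N)),
            (Ω.filter (fun w => ∀ g ∈ Finset.powersetCard (s + 1) K,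
              w g ∈ ({0}ᶜ : Finset (Fin (m + 1))))).card) * (m + 1) ^ Mk :=
            Nat.mul_le_mul_right _ Finset.card_biUnion_le
        _ = ∑ K ∈ Finset.powersetCard k (Finset.univ : Finset (Fin N)),
            (Ω.filter (fun w => ∀ g ∈ Finset.powersetCard (s + 1) K,
              w g ∈ ({0}ᶜ : Finset (Fin (m + 1))))).card * (m + 1) ^ Mk := Finset.sum_mul _ _ _
        _ = ∑ K ∈ Finset.powersetCard k (Finset.univ : Finset (Fin N)), m ^ Mk * C := by
            refine Finset.sum_congr rfl ?_
            intro K hK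
            rw [Finset.mem_powersetCard] at hK
            have := count_fun (m := m) (Finset.powersetCard (s + 1) K)
              ({0}ᶜ : Finset (Fin (m + 1)))
            rw [Finset.card_powersetCard, hK.2, hm1] at this
            exact this
        _ = (Finset.powersetCard k (Finset.univ : Finset (Fin N))).card * (m ^ Mk * C) := by
            rw [Finset.sum_const, smul_eq_mul]
        _ ≤ N ^ k * (m ^ Mk * C) := Nat.mul_le_mul_right _ hcK
    have h4 : 3 * B1.card * (m + 1) ^ Mk < C * (m + 1) ^ Mk := by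
      calc 3 * B1.card * (m + 1) ^ Mk = 3 * (B1.card * (m + 1) ^ Mk) := by ring
        _ ≤ 3 * (N ^ k * (m ^ Mk * C)) := Nat.mul_le_mul_left _ hle
        _ = 3 * (N ^ k * m ^ Mk) * C := by ring
        _ < (m + 1) ^ Mk * C := Nat.mul_lt_mul_of_pos_right h1 hT
        _ = C * (m + 1) ^ Mk := by ring
    exact lt_of_mul_lt_mul_right h4 (Nat.zero_le _)
  have b2 : 3 * B2.card < C := by
    have hle : B2.card * (m + 1) ^ Mk ≤ N ^ k * C := by
      calc B2.card * (m + 1) ^ Mk ≤ (∑ K ∈ Finset.powersetCard k (Finset.univ : Finset (Fin N)),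
            (Ω.filter (fun w => ∀ g ∈ Finset.powersetCard (s + 1) K,
              w g ∈ ({0} : Finset (Fin (m + 1))))).card) * (m + 1) ^ Mk :=
            Nat.mul_le_mul_right _ Finset.card_biUnion_le
        _ = ∑ K ∈ Finset.powersetCard k (Finset.univ : Finset (Fin N)),
            (Ω.filter (fun w => ∀ g ∈ Finset.powersetCard (s + 1) K,
              w g ∈ ({0} : Finset (Fin (m + 1))))).card * (m + 1) ^ Mk := Finset.sum_mul _ _ _
        _ = ∑ K ∈ Finset.powersetCard k (Finset.univ : Finset (Fin N)), C := by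
            refine Finset.sum_congr rfl ?_
            intro K hK
            rw [Finset.mem_powersetCard] at hK
            have := count_fun (m := m) (Finset.powersetCard (s + 1) K)
              ({0} : Finset (Fin (m + 1)))
            rw [Finset.card_powersetCard, hK.2, Finset.card_singleton, one_pow, one_mul] at this
            exact this
        _ = (Finset.powersetCard k (Finset.univ : Finset (Fin N))).card * C := by
            rw [Finset.sum_const, smul_eq_mul]
        _ ≤ N ^ k * C := Nat.mul_le_mul_right _ hcK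
    have h5 : 3 * N ^ k < (m + 1) ^ Mk := by
      refine lt_of_le_of_lt ?_ h1
      refine Nat.mul_le_mul_left _ (Nat.le_mul_of_pos_right _ (by positivity))
    have h4 : 3 * B2.card * (m + 1) ^ Mk < C * (m + 1) ^ Mk := by
      calc 3 * B2.card * (m + 1) ^ Mk = 3 * (B2.card * (m + 1) ^ Mk) := by ring
        _ ≤ 3 * (N ^ k * C) := Nat.mul_le_mul_left _ hle
        _ = 3 * N ^ k * C := by ring
        _ < (m + 1) ^ Mk * C := Nat.mul_lt_mul_of_pos_right h5 hT
        _ = C * (m + 1) ^ Mk := by ring
    exact lt_of_mul_lt_mul_right h4 (Nat.zero_le _)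
  have hcP : P.card ≤ N ^ (s * a + 2 ^ u) := by
    refine le_trans (Finset.card_filter_le _ _) ?_
    rw [Finset.card_product, Finset.card_powersetCard, Finset.card_powersetCard,
      Finset.card_powersetCard, Finset.card_univ, Fintype.card_fin, pow_add, pow_mul]
    refine Nat.mul_le_mul ?_ (Nat.choose_le_pow _ _)
    exact le_trans (Nat.choose_le_pow _ _) (Nat.pow_le_pow_left (Nat.choose_le_pow _ _) _)
  have b3 : 3 * B3.card < C := by
    have hle : B3.card * (m + 1) ^ (a * 2 ^ u) ≤ N ^ (s * a + 2 ^ u) * C := by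
      calc B3.card * (m + 1) ^ (a * 2 ^ u) ≤ (∑ p ∈ P, (Ω.filter (fun w => ∀ g ∈ Finset.image
            (fun p : Finset (Fin N) × Fin N => insert p.2 p.1) (p.1 ×ˢ p.2),
              w g ∈ ({0} : Finset (Fin (m + 1))))).card) * (m + 1) ^ (a * 2 ^ u) :=
            Nat.mul_le_mul_right _ Finset.card_biUnion_le
        _ = ∑ p ∈ P, (Ω.filter (fun w => ∀ g ∈ Finset.image
            (fun p : Finset (Fin N) × Fin N => insert p.2 p.1) (p.1 ×ˢ p.2),
              w g ∈ ({0} : Finset (Fin (m + 1))))).card * (m + 1) ^ (a * 2 ^ u) :=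
            Finset.sum_mul _ _ _
        _ = ∑ p ∈ P, C := by
            refine Finset.sum_congr rfl ?_
            intro p hp
            simp only [hP, Finset.mem_filter, Finset.mem_product, Finset.mem_powersetCard] at hp
            have h6 := count_fun (m := m) (Finset.image
              (fun p : Finset (Fin N) × Fin N => insert p.2 p.1) (p.1 ×ˢ p.2))
              ({0} : Finset (Fin (m + 1)))
            rw [pairs_card (s := s) hp.2, hp.1.1.2, hp.1.2.2, Finset.card_singleton, one_pow,
              one_mul] at h6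
            exact h6
        _ = P.card * C := by rw [Finset.sum_const, smul_eq_mul]
        _ ≤ _ := Nat.mul_le_mul_right _ hcP
    have h4 : 3 * B3.card * (m + 1) ^ (a * 2 ^ u) < C * (m + 1) ^ (a * 2 ^ u) := by
      calc 3 * B3.card * (m + 1) ^ (a * 2 ^ u) = 3 * (B3.card * (m + 1) ^ (a * 2 ^ u)) := by ring
        _ ≤ 3 * (N ^ (s * a + 2 ^ u) * C) := Nat.mul_le_mul_left _ hle
        _ = 3 * N ^ (s * a + 2 ^ u) * C := by ring
        _ < (m + 1) ^ (a * 2 ^ u) * C := Nat.mul_lt_mul_of_pos_right h3 hT
        _ = C * (m + 1) ^ (a * 2 ^ u) := by ring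
    exact lt_of_mul_lt_mul_right h4 (Nat.zero_le _)
  obtain ⟨w, hw⟩ : ∃ w : Finset (Fin N) → Fin (m + 1), w ∉ B1 ∪ B2 ∪ B3 := by
    by_contra hcon
    push Not at hcon
    have h4 : (Finset.univ : Finset (Finset (Fin N) → Fin (m + 1))) ⊆ B1 ∪ B2 ∪ B3 :=
      fun w _ => hcon w
    have h5 := Finset.card_le_card h4
    rw [Finset.card_univ] at h5
    have h6 : (B1 ∪ B2 ∪ B3).card ≤ B1.card + B2.card + B3.card :=
      (Finset.card_union_le _ _).trans (Nat.add_le_add_right (Finset.card_union_le _ _) _)
    have h7 : C ≤ B1.card + B2.card + B3.card := h5.trans h6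
    omega
  rw [Finset.mem_union, Finset.mem_union, not_or, not_or] at hw
  obtain ⟨⟨hw1, hw2⟩, hw3⟩ := hw
  have h01 : ∀ g, (fun g => if w g = 0 then c1 else c0) g = c0 ∨
      (fun g => if w g = 0 then c1 else c0) g = c1 := by
    intro g
    by_cases h : w g = 0
    · right; simp [h]
    · left; simp [h]
  refine ⟨fun g => if w g = 0 then c1 else c0, h01, ?_, ?_⟩
  · rintro K hK ⟨i, hi⟩
    have hKm : K ∈ Finset.powersetCard k (Finset.univ : Finset (Fin N)) :=
      Finset.mem_powersetCard.mpr ⟨Finset.subset_univ _, hK⟩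
    by_cases hi1 : i = c1
    · apply hw2
      rw [hB2, Finset.mem_biUnion]
      refine ⟨K, hKm, ?_⟩
      rw [Finset.mem_filter]
      refine ⟨Finset.mem_univ _, ?_⟩
      intro g hg
      rw [Finset.mem_powersetCard] at hg
      have h4 := hi g hg.1 hg.2
      rw [Finset.mem_singleton]
      by_contra hcon
      simp only [if_neg hcon] at h4
      exact hne (h4.trans hi1)
    · apply hw1
      rw [hB1, Finset.mem_biUnion]
      refine ⟨K, hKm, ?_⟩
      rw [Finset.mem_filter]
      refine ⟨Finset.mem_univ _, ?_⟩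
      intro g hg
      rw [Finset.mem_powersetCard] at hg
      have h4 := hi g hg.1 hg.2
      rw [Finset.mem_compl, Finset.mem_singleton]
      intro hcon
      simp only [if_pos hcon] at h4
      exact hi1 h4.symm
  · intro htree
    obtain ⟨E, hE1, hE2, X, _, hX2, hX3⟩ := RandE_fan hne u a _ htree
    obtain ⟨Y, hY1, hY2⟩ := Finset.exists_subset_card_eq hX2
    apply hw3
    rw [hB3, Finset.mem_biUnion]
    refine ⟨(E, Y), ?_, ?_⟩
    · simp only [hP, Finset.mem_filter, Finset.mem_product, Finset.mem_powersetCard]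
      refine ⟨⟨⟨?_, hE1⟩, Finset.subset_univ _, hY2⟩, ?_⟩
      · intro e he
        rw [Finset.mem_powersetCard]
        exact ⟨Finset.subset_univ _, (hE2 e he).1⟩
      · intro e he x hx
        exact (hX3 e he x (hY1 hx)).1
    · rw [Finset.mem_filter]
      refine ⟨Finset.mem_univ _, ?_⟩
      intro g hg
      rw [Finset.mem_image] at hg
      obtain ⟨⟨e, x⟩, hex, rfl⟩ := hg
      rw [Finset.mem_product] at hex
      have h4 := (hX3 e hex.1 x (hY1 hex.2)).2
      rw [Finset.mem_singleton]
      by_contra hcon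
      simp only [if_neg hcon] at h4
      exact hne h4

end Pool.Agent.H40.HT
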