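import Pool.Agent.H40.HT.Stm

/-!
# Statements for uniformity 4 (`s = 3`) (project HT of helper40, second part)

The colouring `col` of `Defs.lean` is unchanged.
-/

namespace Pool.Agent.H40.HT

open Finset Pool.Agent.H40.HL

/-- BIN.  A set without three elements meeting in one node, with at least `2 ^ t` elements, contains a
subset from which `t` elements can be removed one by one.
Proof by induction on `t`.  `t = 0`: `G' = G`.  Step: `|G| ≥ 2 ^ (t + 1) ≥ 2`; let `l` be the minimum of
`dl x y` over the pairs `x ≠ y` of `G`, attained at `a, b`.  Let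
`Ga = {y ∈ G | l < dl a y}` (it contains `a`, as `dl a a = m > l = dl a b`) and
`Gb = {y ∈ G | l < dl b y}`.  Every `y ∈ G` is in `Ga` or in `Gb`: otherwise `y ≠ a, b` and, by minimality,
`dl a y = l = dl b y = dl a b`, a triple meeting in one node.  So one of them, by symmetry `Ga`, has at
least `2 ^ t` elements; it has no triple meeting in one node; take `G'' ⊆ Ga` with `Chain U t G''` from the
induction hypothesis and `G' = insert b G''`.  `b ∉ G''` as `dl a b = l`.  `Off U G' b l`: for `y ∈ G''`,
`dl a b = l < dl a y` gives `dl b y = l` (U2); for `y ≠ z` in `G''`, `dl y z ≥ min (dl y a) (dl a z) > l`.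
`|G'| ≥ 2` as `G''` is nonempty (a chain is nonempty), and `G'.erase b = G''`. -/
def St_bin : Prop := ∀ (V D : Type) [DecidableEq V] [DecidableEq D] (m : ℕ)
  (U : UT V D m) (t : ℕ) (G : Finset V),
  (∀ x ∈ G, ∀ y ∈ G, ∀ z ∈ G, x ≠ y → y ≠ z → x ≠ z →
    ¬ (U.dl x y = U.dl y z ∧ U.dl x y = U.dl x z)) →
  2 ^ t ≤ G.card → ∃ G' ⊆ G, Chain U t G'

/-- TOPEX for `s ≥ 3` (same proof as TOPEX). -/
def St_topex3 : Prop := ∀ (V D : Type) [DecidableEq V] [DecidableEq D] (m : ℕ)
  (U : UT V D m) (s : ℕ) (H : Finset V), 3 ≤ s → s + 1 ≤ H.card → ¬ Star U H →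
  (∀ R ⊆ H, R.card = s + 1 → Star U R ∨ Top U R) → ∃ x ∈ H, ∃ l, Off U H x l

/-- MONO3.  One-coloured sets of `col` for `s = 3` are small if no four levels have all their triples
of colour `z1`.  (Take CHAINLEV, TOPEX3, STARSET, BIN as hypotheses; `Mono.lean` is the model.)
Proof.  Let `|H| = 16 (k0 + 1) (n + 4)` and all `4`-subsets of colour `a`.
(0) There is no `H' ⊆ H` with `Chain U n H'`, and if `a = z1` there is no `H' ⊆ H` with `Chain U 4 H'`: by CHAINLEV
there is `L ⊆ levels H'`, `|L| = n` (or `4`), `L ⊆ range m`; for `B ⊆ L`, `|B| = 3`, the set `R` has four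
elements, is `Top`, not `NC` and not a star, so `φ B = col R = a`; against the hypotheses on `φ`.
(1) `a ≠ z1`: exactly as `Mono_one` of `Mono.lean`, with TOPEX3.
(2) `a = z1`.  Let `l` be the minimum of `dl` over the pairs of `H`, and for `u ∈ D` let `H_u = {x ∈ H | dg x l = u}`.
Claim: `|H_u| < 16`.  There is `x ∈ H`, `x ∉ H_u` (the minimum is attained at two elements with different
digits), `dl x y = l` for `y ∈ H_u` and `dl y y' > l` for `y ≠ y'` in `H_u`.  No three elements of `H_u` meet in
one node: if `Q` is such a triple then `insert x Q` has four elements, is `NC` and `Top` and not a star, so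
its colour is `z0 ≠ z1`.  So if `|H_u| ≥ 16 = 2 ^ 4`, then by BIN some `G' ⊆ H_u` has `Chain U 4 G'`, against (0).
The number `p` of `u` with `H_u ≠ ∅` is less than `k0`: as in `Mono_three` (choose one element from
each: a star).  So `|H| ≤ 15 (k0 - 1) < |H|`.  (As in `Mono_two`, `Mono_three` of `Mono.lean`.) -/
def St_mono3 : Prop := ∀ (V D κ : Type) [Fintype V] [DecidableEq V] [Fintype D] [DecidableEq D]
  [DecidableEq κ] (m : ℕ) (U : UT V D m) (χ : Finset D → κ) (φ : Finset ℕ → κ) (z0 z1 : κ)
  (k0 n : ℕ), z0 ≠ z1 → NoMono 3 χ k0 →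
  (∀ L ⊆ Finset.range m, L.card = n → ¬ ∃ a : κ, ∀ B ⊆ L, B.card = 3 → φ B = a) →
  (∀ L ⊆ Finset.range m, L.card = 4 → ¬ ∀ B ⊆ L, B.card = 3 → φ B = z1) →
  NoMono 3 (col U χ φ z0 z1) (16 * ((k0 + 1) * (n + 4)))

/-- TOURN.  Random tournaments: if `N ^ n < 2 ^ (n choose 2)` there is a tournament on `N` vertices
without transitive subtournament with `n` vertices.
Proof by counting the functions `g : Sym2 (Fin N) → Bool` (or `Finset (Fin N) → Bool`, only the values at pairs
matter): `T a b = g {a, b}` if `a < b` and `T a b = ! g {a, b}` if `b < a` (and `T a a = false`).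
For a fixed injective `f : Fin n → Fin N` the condition `∀ i < j, T (f i) (f j) = true` fixes the
value of `g` at `n choose 2` different pairs, so it holds for a fraction `2 ^ (-(n choose 2))` of the `g`.
There are at most `N ^ n` functions `f`. -/
def St_tourn : Prop := ∀ (n N : ℕ), N ^ n < 2 ^ (n.choose 2) →
  ∃ T : Fin N → Fin N → Bool, (∀ a, T a a = false) ∧ (∀ a b, a ≠ b → T a b = !(T b a)) ∧
    ∀ f : Fin n → Fin N, Function.Injective f → ∃ i j, i < j ∧ T (f i) (f j) = false

/-- TPHI.  The colouring of triples by cyclic triangles.  (Take TOURN as a hypothesis `h : St_tourn`.)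
Proof.  `φ B = z1` if there are `a, b, c ∈ B` with `T a b`, `T b c`, `T c a` all true, and `z0` otherwise.
(i) Let `|L| = n` and `φ B = z0` for all triples `B ⊆ L`.  Then `T` is transitive on `L`: if `T a b`, `T b c` for
`a, b, c ∈ L`, then `a, b, c` are different (`T a a`: not both `T a b` and `T b a`), and `T c a` is false as `{a, b, c}`
is not cyclic, so `T a c`.  So `r a b := (a = b ∨ T a b)` is a linear order on `L`, and
listing `L` in increasing order gives an injective `f : Fin n → Fin N` with `T (f i) (f j)` for `i < j`: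
contradiction to TOURN.  (For instance `n = |L|` by induction on `|L|`: a transitive tournament has a vertex
beating all others; or `Finset.orderIsoOfFin` for the linear order on the subtype.)
(ii) Let `|L| = 4` and all four triples be cyclic.  For `x ∈ L` and the three others `y1, y2, y3`:
two of them, say `y1, y2`, are on the same side of `x` (`T x y1`, `T x y2` or `T y1 x`, `T y2 x`).  Then `{x, y1, y2}` is not
cyclic, a contradiction. -/
def St_tphi : Prop := ∀ (κ : Type) [DecidableEq κ] (z0 z1 : κ) (n N : ℕ), z0 ≠ z1 →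
  N ^ n < 2 ^ (n.choose 2) → ∃ φ : Finset (Fin N) → κ, (∀ B, φ B = z0 ∨ φ B = z1) ∧
    (∀ L : Finset (Fin N), L.card = n → ¬ ∀ B ⊆ L, B.card = 3 → φ B = z0) ∧
    (∀ L : Finset (Fin N), L.card = 4 → ¬ ∀ B ⊆ L, B.card = 3 → φ B = z1)

end Pool.Agent.H40.HT
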