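import Pool.Agent.H40.HT.Ord

/-!
# Explicit ranges: towers
-/

namespace Pool.Agent.H40.HT

open Finset Filter Pool.Agent.H40.HL Pool.Agent.TH138.NF Pool.Agent.Q216.TI

theorem TowC_restrict {N d q n s : ℕ} (hq : 2 ≤ q) (hd : d ≤ N) (φ : Finset (Fin N) → Bool)
    (h : NoMono s φ n) : ∃ ψ : Finset (Fin d) → Fin q, NoMono s ψ n := by
  classical
  set f : Fin d ↪ Fin N := (Fin.castLEEmb hd) with hf
  let z1 : Fin q := ⟨1, by omega⟩
  let z0 : Fin q := ⟨0, by omega⟩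
  have hz : z1 ≠ z0 := by
    intro h
    have := congrArg Fin.val h
    simp [z1, z0] at this
  refine ⟨fun S => if φ (S.map f) = true then z1 else z0, ?_⟩
  rintro K hK ⟨a, ha⟩
  refine h (K.map f) (by rw [card_map, hK]) ⟨decide (a = z1), ?_⟩
  intro g hg hgc
  obtain ⟨g', hg', rfl⟩ := Finset.subset_map_iff.1 hg
  rw [card_map] at hgc
  have h1 := ha g' hg' hgc
  simp only at h1
  by_cases h2 : φ (g'.map f) = true
  · rw [if_pos h2] at h1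
    rw [h2, ← h1]
    simp
  · rw [if_neg h2] at h1
    have h3 : φ (g'.map f) = false := by simpa using h2
    rw [h3, ← h1]
    simp [hz.symm]

theorem TowC_range (htow : St_tow) (s q : ℕ) (hs : 3 ≤ s) (hq : 2 ≤ q) (a b : ℝ) (hb : 0 < b)
    (hab : b < a) : ∃ k₀ : ℕ, ∀ k : ℕ, k₀ ≤ k → ∀ d : ℕ, (d : ℝ) ≤ tow (s - 2) ((k : ℝ) ^ b) →
      ∃ φ : Finset (Fin d) → Fin q, NoMono (s - 1) φ ⌊(k : ℝ) ^ a⌋₊ := by
  obtain ⟨n0, hn0⟩ := htow s hs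
  obtain ⟨k1, hk1⟩ := Asym_floor a b hb hab
  have ev : ∀ᶠ k : ℕ in atTop, (n0 : ℝ) ≤ (k : ℝ) ^ b :=
    ((tendsto_rpow_atTop hb).comp tendsto_natCast_atTop_atTop).eventually_ge_atTop _
  obtain ⟨k2, hk2⟩ := Filter.eventually_atTop.1 ev
  refine ⟨max k1 k2, fun k hk d hd => ?_⟩
  obtain ⟨_, h2, _⟩ := hk1 k (le_trans (le_max_left _ _) hk)
  have h3 := hk2 k (le_trans (le_max_right _ _) hk)
  have h4 : n0 ≤ ⌊(k : ℝ) ^ a⌋₊ := by
    have : (n0 : ℝ) ≤ (⌊(k : ℝ) ^ a⌋₊ : ℕ) := le_trans h3 h2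
    exact_mod_cast this
  obtain ⟨N, φ, hN, hφ⟩ := hn0 _ h4
  have h5 : (d : ℝ) ≤ N := (hd.trans (tow_mono _ h2)).trans hN
  exact TowC_restrict hq (by exact_mod_cast h5) φ hφ

end Pool.Agent.H40.HT
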